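import Pool.Agent.K3h49.SR.Step

set_option autoImplicit false

/-! All requests together. -/

namespace Pool.Agent.K3h49.SR

open Finset Pool.Agent.H581R2.Splay Pool.Agent.TH49.Spl Pool.Agent.Y395.SP

section

variable {κ : Type}

/-- the sum over the requests -/
def Sm (f : List κ → κ → ℝ) : List κ → List κ → ℝ
  | _, [] => 0
  | g, x :: Y => f g x + Sm f (x :: g) Y

theorem Sm_le {f f' : List κ → κ → ℝ} (h : ∀ g x, f g x ≤ f' g x) (Y : List κ) :
    ∀ g, Sm f g Y ≤ Sm f' g Y := by
  induction Y with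
  | nil => intro g; exact le_refl _
  | cons x Y ih => intro g; exact add_le_add (h g x) (ih _)

theorem Sm_add (f f' : List κ → κ → ℝ) (Y : List κ) :
    ∀ g, Sm (fun h x => f h x + f' h x) g Y = Sm f g Y + Sm f' g Y := by
  induction Y with
  | nil => intro g; simp [Sm]
  | cons x Y ih => intro g; simp only [Sm, ih]; ring

theorem Sm_mul (c : ℝ) (f : List κ → κ → ℝ) (Y : List κ) :
    ∀ g, Sm (fun h x => c * f h x) g Y = c * Sm f g Y := by
  induction Y with
  | nil => intro g; simp [Sm]
  | cons x Y ih => intro g; simp only [Sm, ih]; ring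

theorem Sm_const (c : ℝ) (Y : List κ) : ∀ g : List κ, Sm (fun _ _ => c) g Y = c * Y.length := by
  induction Y with
  | nil => intro g; simp [Sm]
  | cons x Y ih =>
    intro g
    simp only [Sm, ih, List.length_cons]
    push_cast
    ring

theorem Sm_sum {ι : Type} (S : Finset ι) (f : ι → List κ → κ → ℝ) (Y : List κ) :
    ∀ g, Sm (fun h x => ∑ i ∈ S, f i h x) g Y = ∑ i ∈ S, Sm (f i) g Y := by
  induction Y with
  | nil => intro g; simp [Sm]
  | cons x Y ih => intro g; simp only [Sm, ih, sum_add_distrib]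

variable [DecidableEq κ]

/-- the number of different keys since the last request of `x` -/
def wk (h : List κ) (x : κ) : ℕ := #(h.takeWhile fun y => decide (y ≠ x)).toFinset

/-- the number of levels -/
def Dk (h : List κ) (x : κ) : ℕ := Nat.log 4 (wk h x + 1)

theorem ws_map {p : κ → ℕ} (hp : Function.Injective p) (h : List κ) (x : κ) :
    ws (h.map p) (p x) = wk h x := by
  unfold ws wk
  have e : (h.map p).takeWhile (fun y => decide (y ≠ p x)) =
      (h.takeWhile fun y => decide (y ≠ x)).map p := by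
    rw [List.takeWhile_map]
    congr 2
    funext y
    exact decide_eq_decide.2 (hp.ne_iff)
  rw [e]
  have e2 : ((h.takeWhile fun y => decide (y ≠ x)).map p).toFinset =
      ((h.takeWhile fun y => decide (y ≠ x)).toFinset).image p := by
    ext z
    simp only [List.mem_toFinset, List.mem_map, mem_image]
  rw [e2, card_image_of_injective _ hp]

theorem wsum_map {p : κ → ℕ} (hp : Function.Injective p) (Y : List κ) : ∀ g : List κ,
    wsum (g.map p) (Y.map p) = Sm (fun h x => Real.logb 2 ((wk h x : ℝ) + 1)) g Y := by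
  induction Y with
  | nil => intro g; rfl
  | cons x Y ih =>
    intro g
    rw [List.map_cons, wsum, ws_map hp]
    have := ih (x :: g)
    rw [List.map_cons] at this
    rw [this]
    rfl

theorem log_le (h : List κ) (x : κ) :
    Real.logb 2 ((wk h x : ℝ) + 1) ≤ 2 * (Dk h x : ℝ) + 2 := by
  have h1 : wk h x + 1 < 4 ^ (Dk h x + 1) := Nat.lt_pow_succ_log_self (by norm_num) _
  have h2 : ((wk h x : ℝ) + 1) ≤ (4 : ℝ) ^ (Dk h x + 1) := by exact_mod_cast h1.le
  have h3 : Real.logb 2 ((wk h x : ℝ) + 1) ≤ Real.logb 2 ((4 : ℝ) ^ (Dk h x + 1)) :=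
    Real.logb_le_logb_of_le (by norm_num) (by positivity) h2
  refine h3.trans (le_of_eq ?_)
  rw [Real.logb_pow, show (4 : ℝ) = 2 ^ (2 : ℕ) by norm_num, Real.logb_pow,
    Real.logb_self_eq_one (by norm_num)]
  push_cast
  ring

variable [Fintype κ] {pos : κ → ℕ}

theorem tot_eq (s : AS) (R : ℕ) (π : Equiv.Perm κ) (Y : List κ) : ∀ g : List κ,
    (tot s 0 R (g.map fun y => pos (π y)) (Y.map fun y => pos (π y)) : ℝ) =
      Sm (fun h x => (PJ pos h x s 0 R π : ℝ)) g Y := by
  induction Y with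
  | nil => intro g; simp [tot, Sm]
  | cons x Y ih =>
    intro g
    rw [List.map_cons, tot]
    have := ih (x :: g)
    rw [List.map_cons] at this
    push_cast
    rw [this]
    rfl

open Classical in
theorem step_bad' {s : AS} {R : ℕ} (hR : ∀ k, pos k < R) (hb : bal pos s 0 R) (h : List κ)
    (x : κ) : (#(univ.filter (fun π : Equiv.Perm κ => 16 * PJ pos h x s 0 R π < Dk h x)) : ℝ) ≤
      2 * (15 / 16 : ℝ) ^ Dk h x * (Fintype.card κ).factorial := by
  set h' := h.takeWhile fun y => decide (y ≠ x) with hh'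
  have hx : x ∉ h' := by
    intro hx
    have := List.mem_takeWhile_imp hx
    simp at this
  have h1 := step_bad (pos := pos) hx hR hb (D := Dk h x)
    (by unfold Dk; exact Nat.pow_log_le_self 4 (by omega))
  refine le_trans ?_ h1
  have h2 : univ.filter (fun π : Equiv.Perm κ => 16 * PJ pos h x s 0 R π < Dk h x) ⊆
      univ.filter (fun π : Equiv.Perm κ => 16 * PJ pos h' x s 0 R π < Dk h x) := by
    intro π hπ
    rw [mem_filter] at hπ ⊢
    refine ⟨mem_univ _, lt_of_le_of_lt ?_ hπ.2⟩
    refine Nat.mul_le_mul_left _ ?_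
    unfold PJ
    refine J_mono ?_ _ _ _ _
    exact (List.takeWhile_prefix _).map _
  exact_mod_cast card_le_card h2

open Classical in
/-- few changes in all are exponentially unlikely -/
theorem all_bad {s : AS} {R : ℕ} (hR : ∀ k, pos k < R) (hb : bal pos s 0 R) (X : List κ)
    (h0 : 0 < Sm (fun h x => (Dk h x : ℝ)) [] X) :
    (#(univ.filter (fun π : Equiv.Perm κ =>
      32 * Sm (fun h x => (PJ pos h x s 0 R π : ℝ)) [] X < Sm (fun h x => (Dk h x : ℝ)) [] X)) : ℝ)
      ≤ 8 * (15 / 16 : ℝ) ^ (Sm (fun h x => (Dk h x : ℝ)) [] X / X.length / 4) *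
        (Fintype.card κ).factorial := by
  set 𝒟 := Sm (fun h x => (Dk h x : ℝ)) [] X with hD
  set Λ := 𝒟 / X.length with hΛ
  set N : ℝ := ((Fintype.card κ).factorial : ℝ) with hN
  have hN0 : 0 ≤ N := Nat.cast_nonneg _
  have hm : (0 : ℝ) < X.length := by
    rcases Nat.eq_zero_or_pos X.length with h | h
    · rw [List.length_eq_zero_iff] at h
      rw [hD, h] at h0
      simp [Sm] at h0
    · exact_mod_cast h
  have hΛm : Λ * X.length = 𝒟 := div_mul_cancel₀ _ hm.ne'
  -- the bad part
  set bad : Equiv.Perm κ → List κ → κ → ℝ := fun π h x =>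
    if 16 * PJ pos h x s 0 R π < Dk h x ∧ Λ < 4 * Dk h x then (Dk h x : ℝ) else 0 with hbad
  have hpt : ∀ π : Equiv.Perm κ, ∀ (h : List κ) (x : κ), (Dk h x : ℝ) ≤
      16 * (PJ pos h x s 0 R π : ℝ) + bad π h x + Λ / 4 := by
    intro π h x
    have h1 : (0 : ℝ) ≤ PJ pos h x s 0 R π := Nat.cast_nonneg _
    have hΛ0 : 0 ≤ Λ := by positivity
    simp only [hbad]
    split_ifs with c
    · linarith
    · rw [not_and_or] at c
      rcases c with c | c
      · push Not at c
        have : (Dk h x : ℝ) ≤ 16 * (PJ pos h x s 0 R π : ℝ) := by exact_mod_cast c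
        linarith
      · push Not at c
        linarith
  have hsum : ∀ π : Equiv.Perm κ, 𝒟 ≤
      16 * Sm (fun h x => (PJ pos h x s 0 R π : ℝ)) [] X + Sm (bad π) [] X + 𝒟 / 4 := by
    intro π
    have := Sm_le (hpt π) X []
    rw [Sm_add, Sm_add, Sm_mul, Sm_const] at this
    have e : Λ / 4 * X.length = 𝒟 / 4 := by rw [← hΛm]; ring
    rw [e] at this
    exact this
  -- the mean of the bad part
  have hmean : ∑ π : Equiv.Perm κ, Sm (bad π) [] X ≤ 2 * (15 / 16 : ℝ) ^ (Λ / 4) * N * 𝒟 := by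
    rw [← Sm_sum]
    refine (Sm_le (f' := fun h x => 2 * (15 / 16 : ℝ) ^ (Λ / 4) * N * (Dk h x : ℝ)) ?_ X []).trans
      (le_of_eq (Sm_mul _ _ X []))
    intro h x
    by_cases c : Λ < 4 * (Dk h x : ℝ)
    · have e : ∑ π : Equiv.Perm κ, bad π h x = (Dk h x : ℝ) *
          #(univ.filter (fun π : Equiv.Perm κ => 16 * PJ pos h x s 0 R π < Dk h x)) := by
        simp only [hbad, c, and_true]
        rw [← sum_filter, sum_const, nsmul_eq_mul, mul_comm]
      rw [e]
      have h1 := step_bad' hR hb h x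
      have h2 : (15 / 16 : ℝ) ^ Dk h x ≤ (15 / 16 : ℝ) ^ (Λ / 4) := by
        rw [← Real.rpow_natCast]
        exact Real.rpow_le_rpow_of_exponent_ge (by norm_num) (by norm_num) (by linarith)
      have h3 : (0 : ℝ) ≤ Dk h x := Nat.cast_nonneg _
      calc _ ≤ (Dk h x : ℝ) * (2 * (15 / 16 : ℝ) ^ Dk h x * N) :=
            mul_le_mul_of_nonneg_left h1 h3
        _ ≤ (Dk h x : ℝ) * (2 * (15 / 16 : ℝ) ^ (Λ / 4) * N) := by
            refine mul_le_mul_of_nonneg_left ?_ h3
            refine mul_le_mul_of_nonneg_right ?_ hN0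
            linarith
        _ = _ := by ring
    · have e : ∑ π : Equiv.Perm κ, bad π h x = 0 := by
        refine sum_eq_zero fun π _ => ?_
        simp only [hbad]
        rw [if_neg (fun hh => c hh.2)]
      rw [e]
      have h2 : (0 : ℝ) ≤ (15 / 16 : ℝ) ^ (Λ / 4) := Real.rpow_nonneg (by norm_num) _
      positivity
  -- Markov
  set F := univ.filter (fun π : Equiv.Perm κ =>
      32 * Sm (fun h x => (PJ pos h x s 0 R π : ℝ)) [] X < 𝒟) with hF
  have hbad0 : ∀ π, 0 ≤ Sm (bad π) [] X := by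
    intro π
    have := Sm_le (f := fun _ _ => (0 : ℝ)) (f' := bad π) (fun h x => by
      simp only [hbad]
      split_ifs
      · exact Nat.cast_nonneg _
      · exact le_refl _) X []
    rw [Sm_const, zero_mul] at this
    exact this
  have h1 : (#F : ℝ) * (𝒟 / 4) ≤ 2 * (15 / 16 : ℝ) ^ (Λ / 4) * N * 𝒟 := by
    refine le_trans ?_ hmean
    rw [← nsmul_eq_mul, ← sum_const]
    refine le_trans (sum_le_sum (g := fun π => Sm (bad π) [] X) ?_)
      (sum_le_sum_of_subset_of_nonneg (subset_univ _) fun π _ _ => hbad0 π)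
    intro π hπ
    rw [hF, mem_filter] at hπ
    have := hsum π
    linarith [hπ.2]
  have h2 : (#F : ℝ) * (𝒟 / 4) ≤ (8 * (15 / 16 : ℝ) ^ (Λ / 4) * N) * (𝒟 / 4) := by
    refine h1.trans (le_of_eq ?_)
    ring
  exact le_of_mul_le_mul_right h2 (by linarith)

end

end Pool.Agent.K3h49.SR
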