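import Pool.Agent.K3h49.SR.Det

set_option autoImplicit false

/-! Arithmetic progressions modulo `N`. -/

namespace Pool.Agent.K3h49.SR

open Finset Pool.Agent.H581R2.Splay Pool.Agent.TH49.Spl Pool.Agent.Y395.SP

/-- the multiples of `a` modulo `N` -/
def ap (a N m : ℕ) : List ℕ := (List.range m).map fun j => a * j % N

theorem ap_dist {a N : ℕ} {c : ℝ}
    (hc : ∀ (d : ℕ) (e : ℤ), 0 < d → d < N → c * N ≤ |(a * d - e * N : ℤ)| * (d : ℝ))
    {i j : ℕ} (hij : i < j) (hd : j - i < N) :
    c * N ≤ |((a * j % N : ℕ) : ℝ) - ((a * i % N : ℕ) : ℝ)| * ((j - i : ℕ) : ℝ) := by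
  have h := hc (j - i) ((a * j / N : ℕ) - (a * i / N : ℕ)) (by omega) hd
  have e : (a * ((j - i : ℕ) : ℤ) - (((a * j / N : ℕ) : ℤ) - ((a * i / N : ℕ) : ℤ)) * N : ℤ) =
      ((a * j % N : ℕ) : ℤ) - ((a * i % N : ℕ) : ℤ) := by
    have h1 := Nat.div_add_mod (a * j) N
    have h2 := Nat.div_add_mod (a * i) N
    have h1' : (N : ℤ) * ((a * j / N : ℕ) : ℤ) + ((a * j % N : ℕ) : ℤ) = a * j := by
      exact_mod_cast h1
    have h2' : (N : ℤ) * ((a * i / N : ℕ) : ℤ) + ((a * i % N : ℕ) : ℤ) = a * i := by
      exact_mod_cast h2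
    have h3 : ((j - i : ℕ) : ℤ) = (j : ℤ) - i := by rw [Nat.cast_sub hij.le]
    rw [h3]
    linarith
  rw [e] at h
  push_cast at h
  exact h

theorem ap_infix {a N m : ℕ} {S : List ℕ} (hS : S <:+: ap a N m) :
    ∃ s len : ℕ, S = (List.range' s len).map fun j => a * j % N := by
  unfold ap at hS
  rw [List.range_eq_range'] at hS
  obtain ⟨P, Q, h⟩ := hS
  have h1 := List.map_eq_append_iff.1 h.symm
  obtain ⟨l1, l2, e1, e2, e3⟩ := h1
  obtain ⟨l3, l4, f1, f2, f3⟩ := List.map_eq_append_iff.1 e2
  subst f1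
  have h2 : l4 <:+: List.range' 0 m := ⟨l3, l2, by rw [e1]⟩
  obtain ⟨P', Q', h3⟩ := h2
  have h4 : (List.range' 0 m) = (P' ++ l4) ++ Q' := h3.symm
  have h5 : l4 = (List.range' P'.length l4.length) := by
    refine List.ext_getElem (by simp) fun i hi _ => ?_
    have h6 : (List.range' 0 m)[P'.length + i]? = l4[i]? := by
      rw [h4, List.append_assoc, List.getElem?_append_right (by omega), Nat.add_sub_cancel_left,
        List.getElem?_append_left hi]
    rw [List.getElem?_eq_getElem hi] at h6
    have h7 : P'.length + i < (List.range' 0 m).length := by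
      by_contra hcon
      rw [List.getElem?_eq_none (by omega)] at h6
      simp at h6
    rw [List.getElem?_eq_getElem h7, Option.some.injEq] at h6
    rw [← h6]
    simp
  exact ⟨P'.length, l4.length, by rw [← f3]; congr 1⟩

theorem ap_spread {a N m : ℕ} {c : ℝ} (hc0 : 0 < c) (hN : 0 < N)
    (hc : ∀ (d : ℕ) (e : ℤ), 0 < d → d < N → c * N ≤ |(a * d - e * N : ℤ)| * (d : ℝ)) :
    ∀ S : List ℕ, S <:+: ap a N m → ∀ x ∈ S, ∀ y ∈ S, x < y →
      c * N ≤ ((y : ℝ) - x) * #S.toFinset := by
  intro S hS x hx y hy hxy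
  obtain ⟨s, len, rfl⟩ := ap_infix hS
  have hNr : (0 : ℝ) < N := by exact_mod_cast hN
  -- distinct values
  have hne : ∀ i j : ℕ, i < j → j - i < N → a * i % N ≠ a * j % N := by
    intro i j hij hd e
    have := ap_dist hc hij hd
    rw [e, sub_self, abs_zero, zero_mul] at this
    have : 0 < c * N := by positivity
    linarith
  have hcard : min len N ≤ #((List.range' s len).map fun j => a * j % N).toFinset := by
    have h1 : #((Finset.range (min len N)).image fun j => a * (s + j) % N) = min len N := by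
      rw [card_image_of_injOn, card_range]
      intro i hi j hj e
      rw [mem_coe, mem_range] at hi hj
      simp only at e
      by_contra hcon
      rcases lt_or_gt_of_ne hcon with h | h
      · exact hne (s + i) (s + j) (by omega) (by omega) e
      · exact hne (s + j) (s + i) (by omega) (by omega) e.symm
    rw [← h1]
    refine card_le_card ?_
    intro z hz
    rw [mem_image] at hz
    obtain ⟨j, hj, rfl⟩ := hz
    rw [mem_range] at hj
    rw [List.mem_toFinset, List.mem_map]
    exact ⟨s + j, by rw [List.mem_range'_1]; omega, rfl⟩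
  rw [List.mem_map] at hx hy
  obtain ⟨i, hi, rfl⟩ := hx
  obtain ⟨j, hj, rfl⟩ := hy
  rw [List.mem_range'_1] at hi hj
  -- reduce the difference of the indices
  have key : ∀ i j : ℕ, i ≤ j → j - i < len → a * i % N ≠ a * j % N →
      c * N ≤ |((a * j % N : ℕ) : ℝ) - ((a * i % N : ℕ) : ℝ)| * ((min len N : ℕ) : ℝ) := by
    intro i j hij hlen hne'
    set δ := (j - i) % N with hδ
    have hδN : δ < N := Nat.mod_lt _ hN
    have hmod : a * j % N = a * (i + δ) % N := by
      have h1 : j = i + (j - i) := by omega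
      have h2 : (j - i) ≡ δ [MOD N] := (Nat.mod_modEq _ _).symm
      have h3 : a * j ≡ a * (i + δ) [MOD N] := by
        conv_lhs => rw [h1]
        exact Nat.ModEq.mul_left a (Nat.ModEq.add_left i h2)
      exact h3
    have hδ0 : 0 < δ := by
      rcases Nat.eq_zero_or_pos δ with h | h
      · rw [h, add_zero] at hmod
        exact absurd hmod.symm hne'
      · exact h
    have h4 := ap_dist hc (i := i) (j := i + δ) (by omega) (by omega)
    rw [← hmod] at h4
    have h5 : ((i + δ - i : ℕ) : ℝ) ≤ ((min len N : ℕ) : ℝ) := by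
      have h6 : δ ≤ j - i := Nat.mod_le _ _
      have : i + δ - i ≤ min len N := by omega
      exact_mod_cast this
    exact h4.trans (mul_le_mul_of_nonneg_left h5 (abs_nonneg _))
  have hxy' : ((a * i % N : ℕ) : ℝ) < ((a * j % N : ℕ) : ℝ) := by exact_mod_cast hxy
  have hfin : c * N ≤ (((a * j % N : ℕ) : ℝ) - ((a * i % N : ℕ) : ℝ)) *
      ((min len N : ℕ) : ℝ) := by
    rcases le_total i j with h | h
    · have := key i j h (by omega) (by omega)
      rwa [abs_of_pos (by linarith)] at this
    · have := key j i h (by omega) (by omega)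
      rwa [abs_of_neg (by linarith), neg_sub] at this
  refine hfin.trans (mul_le_mul_of_nonneg_left ?_ (by linarith))
  exact_mod_cast hcard

end Pool.Agent.K3h49.SR
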