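import Pool.Agent.K3h49.SR.Win

set_option autoImplicit false

/-! For a random relabelling most nodes of a level have keys of the window on both sides. -/

namespace Pool.Agent.K3h49.SR

open Finset Pool.Agent.H581R2.Splay Pool.Agent.TH49.Spl Pool.Agent.Y395.SP

section

variable {κ : Type} [Fintype κ] [DecidableEq κ]

/-- the keys of `V` do not go to `H` -/
def Av' (H V : Finset κ) : Finset (Equiv.Perm κ) := univ.filter fun π => ∀ y ∈ V, π y ∉ H

theorem av'_step (H : Finset κ) {y₀ : κ} {V : Finset κ} (h1 : y₀ ∉ V) :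
    #(Av' H (insert y₀ V)) * Fintype.card κ ≤ (Fintype.card κ - #H) * #(Av' H V) := by
  classical
  set A' := Av' H (insert y₀ V) with hA'
  set A := Av' H V with hA
  set C := A.filter (fun π => π y₀ ∈ H) with hC
  have hsub : A' = A.filter (fun π => π y₀ ∉ H) := by
    ext π
    simp only [hA', hA, Av', mem_filter, mem_univ, true_and, mem_insert, forall_eq_or_imp]
    tauto
  have hcard : #A = #C + #A' := by
    rw [hsub, hC]
    exact (card_filter_add_card_filter_not (s := A) (fun π => π y₀ ∈ H)).symm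
  have hB : #H ≤ Fintype.card κ := card_le_univ H
  have key : #A' * #H ≤ #C * (Fintype.card κ - #H) := by
    rw [← card_compl, ← card_product, ← card_product]
    refine card_le_card_of_injOn
      (fun q : Equiv.Perm κ × κ => (Equiv.swap (q.1 y₀) q.2 * q.1, q.1 y₀)) ?_ ?_
    · rintro ⟨π, b⟩ hp
      rw [mem_coe, mem_product] at hp
      obtain ⟨hp1, hp2⟩ := hp
      simp only at hp1 hp2
      rw [hA', Av', mem_filter] at hp1
      obtain ⟨-, q2⟩ := hp1
      have q3 := q2 y₀ (mem_insert_self _ _)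
      rw [mem_coe, mem_product, mem_compl, hC, mem_filter, hA, Av', mem_filter]
      simp only [Equiv.Perm.mul_apply, Equiv.swap_apply_left, mem_univ, true_and]
      refine ⟨⟨?_, hp2⟩, q3⟩
      intro y hy
      have q4 := q2 y (mem_insert_of_mem hy)
      rw [Equiv.swap_apply_of_ne_of_ne]
      · exact q4
      · exact fun e => h1 (π.injective e ▸ hy)
      · exact fun e => q4 (e ▸ hp2)
    · rintro ⟨π, b⟩ hp ⟨π', b'⟩ hp' e
      simp only [Prod.mk.injEq] at e
      obtain ⟨e1, e2⟩ := e
      have e3 : b = b' := by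
        have := congrArg (fun τ : Equiv.Perm κ => τ y₀) e1
        simpa [Equiv.Perm.mul_apply, Equiv.swap_apply_left] using this
      subst e3
      rw [e2] at e1
      have e4 := mul_left_cancel e1
      subst e4
      rfl
  have e5 : Fintype.card κ = #H + (Fintype.card κ - #H) := by omega
  calc #A' * Fintype.card κ = #A' * #H + #A' * (Fintype.card κ - #H) := by
        rw [← mul_add, ← e5]
    _ ≤ #C * (Fintype.card κ - #H) + #A' * (Fintype.card κ - #H) := by omega
    _ = (Fintype.card κ - #H) * #A := by rw [hcard]; ring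

theorem av'_pow (H : Finset κ) {ρ : ℝ} (hn : 1 ≤ Fintype.card κ)
    (hρ : 1 - (#H : ℝ) / Fintype.card κ ≤ ρ) : ∀ V : Finset κ,
    (#(Av' H V) : ℝ) ≤ ρ ^ #V * (Fintype.card κ).factorial := by
  have hH : (#H : ℝ) ≤ Fintype.card κ := by exact_mod_cast card_le_univ H
  have hn' : (1 : ℝ) ≤ Fintype.card κ := by exact_mod_cast hn
  have hρ0 : 0 ≤ ρ := le_trans (by rw [sub_nonneg]; exact div_le_one_of_le₀ hH (by linarith)) hρ
  intro V
  induction V using Finset.induction_on with
  | empty =>
    rw [card_empty, pow_zero, one_mul]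
    have := card_le_univ (Av' H (∅ : Finset κ))
    rw [Fintype.card_perm] at this
    exact_mod_cast this
  | insert y₀ V h ih =>
    have h1 := av'_step H h
    have h3 : (#(Av' H (insert y₀ V)) : ℝ) * (Fintype.card κ : ℝ) ≤
        ((Fintype.card κ : ℝ) - #H) * #(Av' H V) := by
      have e2 : ((Fintype.card κ - #H : ℕ) : ℝ) = (Fintype.card κ : ℝ) - #H := by
        rw [Nat.cast_sub (card_le_univ H)]
      rw [← e2]
      exact_mod_cast h1
    have h4 : 0 < (Fintype.card κ : ℝ) := by linarith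
    have h5 : (#(Av' H (insert y₀ V)) : ℝ) ≤ ρ * #(Av' H V) := by
      have h6 : (#(Av' H (insert y₀ V)) : ℝ) ≤
          ((Fintype.card κ : ℝ) - #H) / (Fintype.card κ : ℝ) * #(Av' H V) := by
        rw [div_mul_eq_mul_div, le_div_iff₀ h4]
        exact h3
      refine h6.trans (mul_le_mul_of_nonneg_right ?_ (Nat.cast_nonneg _))
      rw [sub_div, div_self h4.ne']
      exact hρ
    rw [card_insert_of_notMem h, pow_succ]
    calc _ ≤ ρ * #(Av' H V) := h5
      _ ≤ ρ * (ρ ^ #V * (Fintype.card κ).factorial) := mul_le_mul_of_nonneg_left ih hρ0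
      _ = _ := by ring

variable (pos : κ → ℕ)

/-- the sets of positions which can be missed, with the number of nodes -/
def cand : ℕ → AS → ℕ → ℕ → List (Finset κ × ℕ)
  | _, AS.leaf, _, _ => [(∅, 0)]
  | 0, AS.node m _ _ _ _, l, r => [(∅, 0), (S0 pos l m, 1), (S0 pos m r, 1)]
  | d + 1, AS.node m _ _ A C, l, r =>
      (cand d A l m).flatMap fun u => (cand d C m r).map fun v => (u.1 ∪ v.1, u.2 + v.2)

theorem cand_length : ∀ (d : ℕ) (s : AS) (l r : ℕ), (cand pos d s l r).length ≤ 3 ^ 2 ^ d := by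
  intro d
  induction d with
  | zero => intro s l r; cases s <;> simp [cand]
  | succ d ih =>
    intro s l r
    cases s with
    | leaf => simp [cand, Nat.one_le_pow]
    | node m b b' A C =>
      simp only [cand]
      rw [List.length_flatMap]
      simp only [List.length_map, List.map_const', List.sum_replicate, smul_eq_mul]
      rw [pow_succ 2 d, mul_comm (2 ^ d) 2, two_mul, pow_add]
      exact Nat.mul_le_mul (ih A l m) (ih C m r)

theorem cand_mem {S : ℕ} : ∀ (d : ℕ) (s : AS) (l r : ℕ), bal pos s l r →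
    2 ^ (d + 1) * S ≤ #(S0 pos l r) → ∀ u ∈ cand pos d s l r,
      u.1 ⊆ S0 pos l r ∧ u.2 * S ≤ #u.1 := by
  intro d
  induction d with
  | zero =>
    intro s l r hb hS u hu
    cases s with
    | leaf =>
      simp only [cand, List.mem_singleton] at hu
      subst hu
      simp
    | node m b b' A C =>
      obtain ⟨_, _, h1, h2, hm, hA, hC⟩ := hb
      have hc := S0_card (pos := pos) h1 h2
      have hSp := S0_split (pos := pos) h1 h2
      simp only [cand, List.mem_cons, List.not_mem_nil, or_false] at hu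
      rw [zero_add, pow_one] at hS
      rcases hu with rfl | rfl | rfl
      · simp
      · refine ⟨?_, ?_⟩
        · rw [hSp.1]; exact subset_union_left
        · simp only [one_mul]; omega
      · refine ⟨?_, ?_⟩
        · rw [hSp.1]; exact subset_union_right
        · simp only [one_mul]; omega
  | succ d ih =>
    intro s l r hb hS u hu
    cases s with
    | leaf =>
      simp only [cand, List.mem_singleton] at hu
      subst hu
      simp
    | node m b b' A C =>
      obtain ⟨_, _, h1, h2, hm, hA, hC⟩ := hb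
      have hc := S0_card (pos := pos) h1 h2
      have hSp := S0_split (pos := pos) h1 h2
      rw [pow_succ, mul_assoc, mul_comm 2 S, ← mul_assoc] at hS
      simp only [cand, List.mem_flatMap, List.mem_map] at hu
      obtain ⟨v, hv, w, hw, rfl⟩ := hu
      obtain ⟨a1, a2⟩ := ih A l m hA (by omega) v hv
      obtain ⟨c1, c2⟩ := ih C m r hC (by omega) w hw
      refine ⟨?_, ?_⟩
      · rw [hSp.1]; exact union_subset_union a1 c1
      · simp only
        rw [card_union_of_disjoint (disjoint_of_subset_left a1 (disjoint_of_subset_right c1 hSp.2)),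
          add_mul]
        omega

theorem cand_ex (V : Finset κ) (π : Equiv.Perm κ) : ∀ (d : ℕ) (s : AS) (l r : ℕ), bal pos s l r →
    2 ^ (d + 1) ≤ #(S0 pos l r) → ∃ u ∈ cand pos d s l r,
      (∀ y ∈ V, π y ∉ u.1) ∧ u.2 + bh (fun y => pos (π y)) V d s l r = 2 ^ d := by
  intro d
  induction d with
  | zero =>
    intro s l r hb hS
    cases s with
    | leaf =>
      have : #(S0 pos l r) ≤ 1 := hb
      omega
    | node m b b' A C =>
      simp only [cand, bh]
      by_cases c1 : hit (fun y => pos (π y)) V l m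
      · by_cases c2 : hit (fun y => pos (π y)) V m r
        · refine ⟨(∅, 0), by simp, by simp, ?_⟩
          rw [if_pos ⟨c1, c2⟩]; simp
        · refine ⟨(S0 pos m r, 1), by simp, ?_, ?_⟩
          · intro y hy hh
            exact c2 ⟨y, hy, mem_S0.1 hh⟩
          · rw [if_neg (fun q => c2 q.2)]; simp
      · refine ⟨(S0 pos l m, 1), by simp, ?_, ?_⟩
        · intro y hy hh
          exact c1 ⟨y, hy, mem_S0.1 hh⟩
        · rw [if_neg (fun q => c1 q.1)]; simp
  | succ d ih =>
    intro s l r hb hS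
    cases s with
    | leaf =>
      have : #(S0 pos l r) ≤ 1 := hb
      have h1 : 1 ≤ 2 ^ (d + 1) := Nat.one_le_two_pow
      rw [pow_succ] at hS
      omega
    | node m b b' A C =>
      obtain ⟨_, _, h1, h2, hm, hA, hC⟩ := hb
      have hc := S0_card (pos := pos) h1 h2
      rw [pow_succ] at hS
      obtain ⟨v, hv, a1, a2⟩ := ih A l m hA (by omega)
      obtain ⟨w, hw, c1, c2⟩ := ih C m r hC (by omega)
      refine ⟨(v.1 ∪ w.1, v.2 + w.2), ?_, ?_, ?_⟩
      · simp only [cand, List.mem_flatMap, List.mem_map]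
        exact ⟨v, hv, w, hw, rfl⟩
      · intro y hy
        rw [mem_union, not_or]
        exact ⟨a1 y hy, c1 y hy⟩
      · simp only [bh]
        rw [pow_succ]
        omega

variable {pos}

open Classical in
/-- the window lemma -/
theorem window {d : ℕ} {s : AS} {R : ℕ} (hR : ∀ k, pos k < R) (hb : bal pos s 0 R)
    {V : Finset κ} (hV : #V = 8 * 2 ^ d) :
    (#(univ.filter (fun π : Equiv.Perm κ => 2 * bh (fun y => pos (π y)) V d s 0 R < 2 ^ d)) : ℝ) ≤
      (196608 / 390625 : ℝ) ^ 2 ^ d * (Fintype.card κ).factorial := by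
  set n := Fintype.card κ with hn
  have hVn : 8 * 2 ^ d ≤ n := by rw [← hV]; exact card_le_univ V
  have hP : 0 < 2 ^ d := by positivity
  set S := n / 2 ^ (d + 1) with hS
  have hS1 : 2 ^ (d + 1) * S ≤ n := Nat.mul_div_le _ _
  have hS2 : n < 2 ^ (d + 1) * (S + 1) := Nat.lt_mul_div_succ n (by positivity)
  have hS3 : 4 ≤ S := by
    rw [hS, Nat.le_div_iff_mul_le (by positivity), pow_succ]
    omega
  have hall := S0_all (pos := pos) hR
  rw [← hn] at hall
  have hmem := cand_mem pos d s 0 R hb (S := S) (by rw [hall]; exact hS1)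
  have hex : ∀ π : Equiv.Perm κ, ∃ u ∈ cand pos d s 0 R,
      (∀ y ∈ V, π y ∉ u.1) ∧ u.2 + bh (fun y => pos (π y)) V d s 0 R = 2 ^ d := fun π =>
    cand_ex pos V π d s 0 R hb (by rw [hall, pow_succ]; omega)
  set U := ((cand pos d s 0 R).toFinset).filter (fun u => 2 ^ d < 2 * u.2) with hU
  have hsub : univ.filter (fun π : Equiv.Perm κ =>
      2 * bh (fun y => pos (π y)) V d s 0 R < 2 ^ d) ⊆ U.biUnion (fun u => Av' u.1 V) := by
    intro π hπ
    rw [mem_filter] at hπ
    obtain ⟨u, u1, u2, u3⟩ := hex π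
    rw [mem_biUnion]
    refine ⟨u, ?_, ?_⟩
    · rw [hU, mem_filter, List.mem_toFinset]
      exact ⟨u1, by omega⟩
    · rw [Av', mem_filter]
      exact ⟨mem_univ _, u2⟩
  have hn1 : 1 ≤ n := by omega
  have hn1' : (1 : ℝ) ≤ n := by exact_mod_cast hn1
  have hone : ∀ u ∈ U, (#(Av' u.1 V) : ℝ) ≤ (4 / 5 : ℝ) ^ (8 * 2 ^ d) * n.factorial := by
    intro u hu
    rw [hU, mem_filter, List.mem_toFinset] at hu
    obtain ⟨u1, u2⟩ := hu
    obtain ⟨-, u4⟩ := hmem u u1
    have h1 := av'_pow u.1 (ρ := 4 / 5) hn1 ?_ V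
    · rw [hV] at h1
      exact h1
    · have h2 : n ≤ 5 * #u.1 := by
        have h3 : n < 2 * 2 ^ d * (S + 1) := by rw [pow_succ, mul_comm (2 ^ d) 2] at hS2; exact hS2
        have h4 : 2 ^ d * S ≤ 2 * u.2 * S := Nat.mul_le_mul_right _ u2.le
        have h5 : 4 * (S + 1) ≤ 5 * S := by omega
        have h6 : 2 * 2 ^ d * (4 * (S + 1)) ≤ 2 * 2 ^ d * (5 * S) := Nat.mul_le_mul_left _ h5
        nlinarith
      have h7 : (n : ℝ) ≤ 5 * (#u.1 : ℝ) := by exact_mod_cast h2
      rw [sub_le_iff_le_add, ← sub_le_iff_le_add', le_div_iff₀ (by linarith)]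
      linarith
  have hUcard : (#U : ℝ) ≤ 3 ^ 2 ^ d := by
    have h1 : #U ≤ 3 ^ 2 ^ d := (card_filter_le _ _).trans
      ((List.toFinset_card_le _).trans (cand_length pos d s 0 R))
    exact_mod_cast h1
  calc (#(univ.filter (fun π : Equiv.Perm κ =>
      2 * bh (fun y => pos (π y)) V d s 0 R < 2 ^ d)) : ℝ)
      ≤ #(U.biUnion (fun u => Av' u.1 V)) := by exact_mod_cast card_le_card hsub
    _ ≤ ∑ u ∈ U, (#(Av' u.1 V) : ℝ) := by exact_mod_cast card_biUnion_le
    _ ≤ ∑ _u ∈ U, (4 / 5 : ℝ) ^ (8 * 2 ^ d) * n.factorial := sum_le_sum hone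
    _ = #U * ((4 / 5 : ℝ) ^ (8 * 2 ^ d) * n.factorial) := by rw [sum_const, nsmul_eq_mul]
    _ ≤ 3 ^ 2 ^ d * ((4 / 5 : ℝ) ^ (8 * 2 ^ d) * n.factorial) :=
        mul_le_mul_of_nonneg_right hUcard (by positivity)
    _ = (196608 / 390625 : ℝ) ^ 2 ^ d * n.factorial := by
        rw [pow_mul, ← mul_assoc, ← mul_pow]
        norm_num

end

end Pool.Agent.K3h49.SR
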