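import Mathlib

set_option autoImplicit false

/-! Windows and close pairs. -/

namespace Pool.Agent.K3h49.SR

open Finset

/-- the number of ordered pairs of different elements of `U` which differ by at most `t` -/
def closePairs (t : ℕ) (U : Finset ℕ) : ℕ :=
  #(U.offDiag.filter fun q => q.1 ≤ q.2 + t ∧ q.2 ≤ q.1 + t)

/-- cut the sequence greedily into consecutive windows with exactly `k` different entries each (the
rest is dropped) and list the sets of entries of the windows; `V` is the set of the entries of the
current window -/
def windows (k : ℕ) : Finset ℕ → List ℕ → List (Finset ℕ)
  | _, [] => []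
  | V, x :: Y => if #(insert x V) ≤ k then windows k (insert x V) Y else V :: windows k {x} Y

/-- the number of close pairs in the windows of all scales: for `j = 0, 1, …, n - 1` the pairs of
different keys in the same window with `2^(j b + 1)` different keys whose difference is at most
`(N - 1) / 2^(j b + b)` -/
def closeSum (N b n : ℕ) (X : List ℕ) : ℕ :=
  ∑ j ∈ range n, ((windows (2 ^ (j * b + 1)) ∅ X).map
    (closePairs ((N - 1) / 2 ^ (j * b + b)))).sum

end Pool.Agent.K3h49.SR
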