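import Pool.Agent.K3h49.SR.Perm

set_option autoImplicit false

/-! The relabellings for which no recent key comes near the requested key. -/

namespace Pool.Agent.K3h49.SR

open Finset Pool.Agent.TH49.Spl

section

variable {κ : Type} [Fintype κ] [DecidableEq κ]

/-- `x` goes to `B`, the keys in `Y` do not -/
def Av (B : Finset κ) (x : κ) (Y : Finset κ) : Finset (Equiv.Perm κ) :=
  univ.filter fun π => π x ∈ B ∧ ∀ y ∈ Y, π y ∉ B

theorem av_step (B : Finset κ) {x y₀ : κ} {Y : Finset κ} (h1 : y₀ ∉ Y) (h2 : y₀ ≠ x)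
    (h3 : x ∉ Y) :
    #(Av B x (insert y₀ Y)) * (Fintype.card κ - 1) ≤ (Fintype.card κ - #B) * #(Av B x Y) := by
  classical
  set A' := Av B x (insert y₀ Y) with hA'
  set A := Av B x Y with hA
  set C := A.filter (fun π => π y₀ ∈ B) with hC
  have hsub : A' = A.filter (fun π => π y₀ ∉ B) := by
    ext π
    simp only [hA', hA, Av, mem_filter, mem_univ, true_and, mem_insert, forall_eq_or_imp]
    tauto
  have hcard : #A = #C + #A' := by
    rw [hsub, hC]
    exact (card_filter_add_card_filter_not (s := A) (fun π => π y₀ ∈ B)).symm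
  have hB : #B ≤ Fintype.card κ := card_le_univ B
  by_cases hne : A' = ∅
  · rw [hne, card_empty, zero_mul]; exact Nat.zero_le _
  have hBpos : 1 ≤ #B := by
    obtain ⟨π, hπ⟩ := nonempty_iff_ne_empty.2 hne
    rw [hA', Av, mem_filter] at hπ
    exact card_pos.2 ⟨_, hπ.2.1⟩
  have key : #A' * (#B - 1) ≤ #C * (Fintype.card κ - #B) := by
    have e1 : #(A'.sigma fun π => B.erase (π x)) = #A' * (#B - 1) := by
      rw [card_sigma, sum_congr rfl (g := fun _ => #B - 1)]
      · rw [sum_const, smul_eq_mul]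
      · intro π hπ
        rw [hA', Av, mem_filter] at hπ
        exact card_erase_of_mem hπ.2.1
    have e2 : #(C ×ˢ Bᶜ) = #C * (Fintype.card κ - #B) := by
      rw [card_product, card_compl]
    rw [← e1, ← e2]
    refine card_le_card_of_injOn
      (fun p : (_ : Equiv.Perm κ) × κ => (Equiv.swap (p.1 y₀) p.2 * p.1, p.1 y₀)) ?_ ?_
    · rintro ⟨π, b⟩ hp
      rw [mem_coe, mem_sigma] at hp
      obtain ⟨hp1, hp2⟩ := hp
      simp only at hp1 hp2
      rw [hA', Av, mem_filter] at hp1
      obtain ⟨-, q1, q2⟩ := hp1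
      rw [mem_erase] at hp2
      have q3 := q2 y₀ (mem_insert_self _ _)
      rw [mem_coe, mem_product, mem_compl, hC, mem_filter, hA, Av, mem_filter]
      simp only [Equiv.Perm.mul_apply, Equiv.swap_apply_left, mem_univ, true_and]
      refine ⟨⟨⟨?_, ?_⟩, hp2.2⟩, q3⟩
      · rw [Equiv.swap_apply_of_ne_of_ne]
        · exact q1
        · exact fun e => h2 (π.injective e).symm
        · exact hp2.1.symm
      · intro y hy
        have q4 := q2 y (mem_insert_of_mem hy)
        rw [Equiv.swap_apply_of_ne_of_ne]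
        · exact q4
        · exact fun e => h1 (π.injective e ▸ hy)
        · exact fun e => q4 (e ▸ hp2.2)
    · rintro ⟨π, b⟩ hp ⟨π', b'⟩ hp' e
      simp only [Prod.mk.injEq] at e
      obtain ⟨e1, e2⟩ := e
      have e3 : b = b' := by
        have := congrArg (fun τ : Equiv.Perm κ => τ y₀) e1
        simpa [Equiv.Perm.mul_apply, Equiv.swap_apply_left] using this
      subst e3
      rw [e2] at e1
      have e4 := mul_left_cancel e1
      subst e4
      rfl
  have e5 : Fintype.card κ - 1 = (#B - 1) + (Fintype.card κ - #B) := by omega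
  have e6 : #A' ≤ #A := by omega
  calc #A' * (Fintype.card κ - 1) = #A' * (#B - 1) + #A' * (Fintype.card κ - #B) := by
        rw [e5, mul_add]
    _ ≤ #C * (Fintype.card κ - #B) + #A' * (Fintype.card κ - #B) := by omega
    _ = (Fintype.card κ - #B) * #A := by rw [hcard]; ring

theorem av_pow (B : Finset κ) {x : κ} (hn : 2 ≤ Fintype.card κ) : ∀ Y : Finset κ, x ∉ Y →
    (#(Av B x Y) : ℝ) ≤ (((Fintype.card κ : ℝ) - #B) / ((Fintype.card κ : ℝ) - 1)) ^ #Y *
      #(Av B x ∅) := by
  intro Y
  have hB : (#B : ℝ) ≤ Fintype.card κ := by exact_mod_cast card_le_univ B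
  have hn' : (2 : ℝ) ≤ Fintype.card κ := by exact_mod_cast hn
  induction Y using Finset.induction_on with
  | empty => intro _; simp
  | insert y₀ Y h ih =>
    intro hx
    rw [mem_insert, not_or] at hx
    have h1 := av_step B h (Ne.symm hx.1) hx.2
    have h2 := ih hx.2
    have h3 : (#(Av B x (insert y₀ Y)) : ℝ) * ((Fintype.card κ : ℝ) - 1) ≤
        ((Fintype.card κ : ℝ) - #B) * #(Av B x Y) := by
      have := h1
      have e1 : ((Fintype.card κ - 1 : ℕ) : ℝ) = (Fintype.card κ : ℝ) - 1 := by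
        rw [Nat.cast_sub (by omega)]; simp
      have e2 : ((Fintype.card κ - #B : ℕ) : ℝ) = (Fintype.card κ : ℝ) - #B := by
        rw [Nat.cast_sub (card_le_univ B)]
      rw [← e1, ← e2]
      exact_mod_cast this
    rw [card_insert_of_notMem h, pow_succ]
    have h4 : 0 < (Fintype.card κ : ℝ) - 1 := by linarith
    have h5 : (#(Av B x (insert y₀ Y)) : ℝ) ≤
        ((Fintype.card κ : ℝ) - #B) / ((Fintype.card κ : ℝ) - 1) * #(Av B x Y) := by
      rw [div_mul_eq_mul_div, le_div_iff₀ h4]
      exact h3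
    refine h5.trans ?_
    have h6 : 0 ≤ ((Fintype.card κ : ℝ) - #B) / ((Fintype.card κ : ℝ) - 1) :=
      div_nonneg (by linarith) h4.le
    calc _ ≤ ((Fintype.card κ : ℝ) - #B) / ((Fintype.card κ : ℝ) - 1) *
          ((((Fintype.card κ : ℝ) - #B) / ((Fintype.card κ : ℝ) - 1)) ^ #Y * #(Av B x ∅)) :=
          mul_le_mul_of_nonneg_left h2 h6
      _ = _ := by ring

variable {pos : κ → ℕ} {h : List κ} {x : κ}

theorem Gd_Ex {D : ℕ} {s : AS} {l r : ℕ} {π : Equiv.Perm κ}
    (hg : Gd pos h x (D + 1) s l r π) : Ex pos h l r π := by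
  cases s with
  | leaf => exact absurd hg id
  | node m b p A C => exact hg.1

theorem Ex_mono {l r l' r' : ℕ} {π : Equiv.Perm κ} (hg : Ex pos h l r π) (h1 : l' ≤ l)
    (h2 : r ≤ r') : Ex pos h l' r' π := by
  obtain ⟨y, q1, q2, q3⟩ := hg
  exact ⟨y, q1, by omega, by omega⟩

open Classical in
/-- the first levels without a recent key -/
theorem ngd (hx : x ∉ h) (hn : 2 ≤ Fintype.card κ) {S : ℕ} (hS : 2 ≤ S)
    (hSn : S ≤ Fintype.card κ) :
    ∀ (D : ℕ) (s : AS) (l r : ℕ), bal pos s l r → 2 ^ D * S ≤ #(S0 pos l r) →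
    (#(univ.filter (fun π : Equiv.Perm κ => π x ∈ S0 pos l r ∧ ¬ Gd pos h x (D + 1) s l r π)) : ℝ)
      ≤ (((Fintype.card κ : ℝ) - S) / ((Fintype.card κ : ℝ) - 1)) ^ #h.toFinset *
        #(univ.filter (fun π : Equiv.Perm κ => π x ∈ S0 pos l r)) := by
  have hn' : (2 : ℝ) ≤ Fintype.card κ := by exact_mod_cast hn
  have hS' : (S : ℝ) ≤ Fintype.card κ := by exact_mod_cast hSn
  have h4 : 0 < (Fintype.card κ : ℝ) - 1 := by linarith
  intro D
  induction D with
  | zero =>
    intro s l r hb hD
    rw [pow_zero, one_mul] at hD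
    have e1 : (univ.filter (fun π : Equiv.Perm κ => π x ∈ S0 pos l r ∧
        ¬ Gd pos h x (0 + 1) s l r π)) ⊆ Av (S0 pos l r) x h.toFinset := by
      intro π hπ
      rw [mem_filter] at hπ
      obtain ⟨-, q1, q2⟩ := hπ
      rw [Av, mem_filter]
      refine ⟨mem_univ _, q1, fun y hy hyB => q2 ?_⟩
      rw [List.mem_toFinset] at hy
      rw [mem_S0] at hyB
      cases s with
      | leaf =>
        have : #(S0 pos l r) ≤ 1 := hb
        omega
      | node m b p A C =>
        refine ⟨⟨y, hy, hyB⟩, ?_⟩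
        split_ifs <;> trivial
    have e2 : Av (S0 pos l r) x ∅ = univ.filter (fun π : Equiv.Perm κ => π x ∈ S0 pos l r) := by
      ext π
      simp [Av]
    rw [← e2]
    have e3 := av_pow (S0 pos l r) (x := x) hn h.toFinset (by rwa [List.mem_toFinset])
    have e4 : (#(univ.filter (fun π : Equiv.Perm κ => π x ∈ S0 pos l r ∧
        ¬ Gd pos h x (0 + 1) s l r π)) : ℝ) ≤ #(Av (S0 pos l r) x h.toFinset) := by
      exact_mod_cast card_le_card e1
    refine e4.trans (e3.trans ?_)
    refine mul_le_mul_of_nonneg_right ?_ (Nat.cast_nonneg _)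
    refine pow_le_pow_left₀ (div_nonneg ?_ h4.le) ?_ _
    · have : (#(S0 pos l r) : ℝ) ≤ Fintype.card κ := by exact_mod_cast card_le_univ _
      linarith
    · refine div_le_div_of_nonneg_right ?_ h4.le
      have : (S : ℝ) ≤ #(S0 pos l r) := by exact_mod_cast hD
      linarith
  | succ D ih =>
    intro s l r hb hD
    cases s with
    | leaf =>
      have : #(S0 pos l r) ≤ 1 := hb
      have h1 : 1 ≤ 2 ^ (D + 1) := Nat.one_le_two_pow
      nlinarith
    | node m b p A C =>
      obtain ⟨_, _, h1, h2, hm, hA, hC⟩ := hb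
      have hc := S0_card (pos := pos) h1 h2
      have hSp := S0_split (pos := pos) h1 h2
      rw [pow_succ, mul_assoc, mul_comm 2 S, ← mul_assoc] at hD
      have iA := ih A l m hA (by omega)
      have iC := ih C m r hC (by omega)
      have e1 : (univ.filter (fun π : Equiv.Perm κ => π x ∈ S0 pos l r ∧
          ¬ Gd pos h x (D + 1 + 1) (AS.node m b p A C) l r π)) ⊆
          (univ.filter (fun π : Equiv.Perm κ => π x ∈ S0 pos l m ∧
            ¬ Gd pos h x (D + 1) A l m π)) ∪
          (univ.filter (fun π : Equiv.Perm κ => π x ∈ S0 pos m r ∧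
            ¬ Gd pos h x (D + 1) C m r π)) := by
        intro π hπ
        rw [mem_filter] at hπ
        obtain ⟨-, q1, q2⟩ := hπ
        rw [mem_union, mem_filter, mem_filter]
        rw [mem_S0] at q1
        by_cases c : pos (π x) < m
        · left
          refine ⟨mem_univ _, mem_S0.2 ⟨q1.1, c⟩, fun hg => q2 ?_⟩
          refine ⟨Ex_mono (Gd_Ex hg) (le_refl l) h2, ?_⟩
          rw [if_pos c]
          exact hg
        · right
          refine ⟨mem_univ _, mem_S0.2 ⟨by omega, q1.2⟩, fun hg => q2 ?_⟩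
          refine ⟨Ex_mono (Gd_Ex hg) h1 (le_refl r), ?_⟩
          rw [if_neg c]
          exact hg
      have e2 : (univ.filter (fun π : Equiv.Perm κ => π x ∈ S0 pos l r)) =
          (univ.filter (fun π : Equiv.Perm κ => π x ∈ S0 pos l m)) ∪
          (univ.filter (fun π : Equiv.Perm κ => π x ∈ S0 pos m r)) := by
        ext π
        rw [mem_union, mem_filter, mem_filter, mem_filter, hSp.1, mem_union]
        tauto
      have e3 : Disjoint (univ.filter (fun π : Equiv.Perm κ => π x ∈ S0 pos l m))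
          (univ.filter (fun π : Equiv.Perm κ => π x ∈ S0 pos m r)) := by
        rw [disjoint_left]
        intro π q1 q2
        rw [mem_filter] at q1 q2
        exact disjoint_left.1 hSp.2 q1.2 q2.2
      rw [e2, card_union_of_disjoint e3, Nat.cast_add, mul_add]
      refine le_trans ?_ (add_le_add iA iC)
      have := (card_le_card e1).trans (card_union_le _ _)
      exact_mod_cast this

end

end Pool.Agent.K3h49.SR
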