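import Pool.Agent.K3h49.SR.Smo2
import Pool.Agent.K3h49.SR.Clo

set_option autoImplicit false

/-! A bound for every request sequence. -/

namespace Pool.Agent.K3h49.SR

open Finset Pool.Agent.H581R2.Splay Pool.Agent.TH49.Spl Pool.Agent.Y395.SP

theorem windows_map {κ : Type} [DecidableEq κ] {f : κ → ℕ} (hf : Function.Injective f) (k : ℕ) :
    ∀ (Y : List κ) (V : Finset κ), windows k (V.image f) (Y.map f) =
      (cl k V Y).map fun U => U.image f := by
  intro Y
  induction Y with
  | nil => intro V; simp [windows, cl]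
  | cons x Y ih =>
    intro V
    simp only [windows, cl, List.map_cons]
    rw [← image_insert, card_image_of_injective _ hf]
    split_ifs with h
    · exact ih _
    · rw [List.map_cons]
      congr 1
      have := ih {x}
      rw [image_singleton] at this
      exact this

/-- every window comes from a segment of the sequence -/
theorem windows_infix (k : ℕ) : ∀ (Y L : List ℕ), ∀ U ∈ windows k L.toFinset Y,
    ∃ S : List ℕ, S <:+: (L ++ Y) ∧ S.toFinset = U := by
  intro Y
  induction Y with
  | nil => intro L U hU; simp [windows] at hU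
  | cons x Y ih =>
    intro L U hU
    simp only [windows] at hU
    have e : insert x L.toFinset = (L ++ [x]).toFinset := by
      ext z; simp [or_comm]
    split_ifs at hU with h
    · rw [e] at hU
      obtain ⟨S, h1, h2⟩ := ih (L ++ [x]) U hU
      rw [List.append_assoc, List.singleton_append] at h1
      exact ⟨S, h1, h2⟩
    · rw [List.mem_cons] at hU
      rcases hU with rfl | hU
      · exact ⟨L, (List.prefix_append L (x :: Y)).isInfix, rfl⟩
      · have e2 : ({x} : Finset ℕ) = ([x] : List ℕ).toFinset := by simp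
        rw [e2] at hU
        obtain ⟨S, h1, h2⟩ := ih [x] U hU
        rw [List.singleton_append] at h1
        exact ⟨S, h1.trans (List.suffix_append L (x :: Y)).isInfix, h2⟩

theorem windows_card {k : ℕ} (hk : 1 ≤ k) : ∀ (Y : List ℕ) (V : Finset ℕ), #V ≤ k →
    ∀ U ∈ windows k V Y, #U = k := by
  intro Y
  induction Y with
  | nil => intro V _ U hU; simp [windows] at hU
  | cons x Y ih =>
    intro V hV U hU
    simp only [windows] at hU
    split_ifs at hU with h
    · exact ih _ h U hU
    · rw [List.mem_cons] at hU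
      rcases hU with rfl | hU
      · have := card_insert_le x U
        omega
      · exact ih _ (by simpa using hk) U hU

theorem cp_close {κ : Type} [DecidableEq κ] {f : κ → ℕ} (hf : Function.Injective f) (t N : ℕ)
    (U : Finset κ) : #(cp f U t 0 N) ≤ closePairs t (U.image f) := by
  unfold closePairs
  refine card_le_card_of_injOn (fun q => (f q.1, f q.2)) ?_ ?_
  · intro q hq
    rw [mem_coe, cp, mem_filter, mem_offDiag] at hq
    rw [mem_coe, mem_filter, mem_offDiag]
    obtain ⟨⟨q1, q2, q3⟩, -, -, q4⟩ := hq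
    exact ⟨⟨mem_image_of_mem _ q1, mem_image_of_mem _ q2, fun e => q3 (hf e)⟩, q4⟩
  · intro q _ q' _ e
    simp only [Prod.mk.injEq] at e
    exact Prod.ext (hf e.1) (hf e.2)

/-- the deterministic inequality -/
theorem det {T : Tr} (hT : IsBST T) {N : ℕ} (hN : ∀ k ∈ keys T, k < N) {X : List ℕ}
    (hX : ∀ x ∈ X, x ∈ keys T) {b : ℕ} (hb1 : 1 ≤ b) :
    wsum [] X ≤ X.length + b * (10 * (optAny (keys T) X : ℝ) +
      closeSum N b (keys T).length X) := by
  classical
  obtain ⟨s, hb⟩ := exists_bl N 0 N (by omega) (by omega)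
  set κ := {x // x ∈ (keys T).toFinset} with hκ
  set f : κ → ℕ := fun x => x.1 with hf
  have hinj : Function.Injective f := fun x y e => Subtype.ext e
  obtain ⟨X', hX'⟩ : ∃ X' : List κ, X'.map f = X := by
    refine ⟨X.pmap (fun x hx => ⟨x, List.mem_toFinset.2 hx⟩) hX, ?_⟩
    rw [List.map_pmap]
    simp [hf]
  have hcard : Fintype.card κ = (keys T).length := by
    rw [Fintype.card_coe, List.toFinset_card_of_nodup]
    exact hT.imp (fun h => ne_of_lt h)
  have hlt : ∀ y : κ, f y < N := fun y => hN _ (List.mem_toFinset.1 y.2)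
  set n := (keys T).length with hn
  -- heavy requests
  set H : ℝ := ∑ j ∈ range n, Sm (hv (2 ^ (j * b + 1))) [] X' with hH
  have hW : wsum [] X ≤ X.length + b * H := by
    have h1 := wsum_map hinj X' []
    rw [List.map_nil, hX'] at h1
    have h2 := Sm_le (fun h x => hvb_sum hb1 n h x ((card_le_univ _).trans (le_of_eq hcard))) X' []
    rw [Sm_add, Sm_const, Sm_mul, Sm_sum, one_mul] at h2
    have e : X.length = X'.length := by rw [← hX', List.length_map]
    rw [h1, e]
    exact h2
  set Tot : ℝ := ∑ j ∈ range n, 2 ^ (j * b + 1) * ((cl (2 ^ (j * b + 1)) ∅ X').length : ℝ)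
    with hTot
  have hHT : H ≤ Tot := by
    refine sum_le_sum fun j _ => ?_
    have := claim2 (k := 2 ^ (j * b + 1)) Nat.one_le_two_pow X' [] ∅ (by simp) (by simp)
    push_cast at this
    exact this
  have h1 := sum_le_sum fun j (_ : j ∈ range n) => one_scale hb hinj hlt X' b j
  rw [sum_add_distrib, ← mul_sum,
    dsum (fun e => Sm (fun h x => (Jd (h.map f) (f x) e s 0 N : ℝ)) [] X') b n] at h1
  have hKs : (keys T).Pairwise (· < ·) := hT
  have h2 := changes' hb (p := f) hKs (fun y => List.mem_toFinset.1 y.2) X' (n * b)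
  rw [hX'] at h2
  have h3 : ∑ j ∈ range n, colW f N b X' j ≤ (closeSum N b n X : ℝ) := by
    unfold closeSum
    rw [Nat.cast_sum]
    refine sum_le_sum fun j _ => ?_
    unfold colW
    have e := windows_map hinj (2 ^ (j * b + 1)) X' ∅
    rw [image_empty, hX'] at e
    rw [e]
    generalize cl (2 ^ (j * b + 1)) ∅ X' = C
    induction C with
    | nil => simp
    | cons U C ih =>
      simp only [List.map_cons, List.sum_cons]
      push_cast
      have h4 : (#(cp f U ((N - 1) / 2 ^ (j * b + b)) 0 N) : ℝ) ≤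
          (closePairs ((N - 1) / 2 ^ (j * b + b)) (U.image f) : ℝ) := by
        exact_mod_cast cp_close hinj _ N U
      push_cast at ih
      linarith
  have h4 : H ≤ 10 * (optAny (keys T) X : ℝ) + closeSum N b n X := by linarith
  have h5 : (b : ℝ) * H ≤ b * (10 * (optAny (keys T) X : ℝ) + closeSum N b n X) :=
    mul_le_mul_of_nonneg_left h4 (Nat.cast_nonneg _)
  linarith

/-- the cost of splaying -/
theorem det_splay {T : Tr} (hT : IsBST T) {N : ℕ} (hN : ∀ k ∈ keys T, k < N) {X : List ℕ}
    (hX : ∀ x ∈ X, x ∈ keys T) {b : ℕ} (hb1 : 1 ≤ b) :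
    (costSplay T X : ℝ) ≤ (60 * b + 14) * (optAny (keys T) X : ℝ) +
      6 * b * closeSum N b (keys T).length X +
      8 * ((keys T).length * Real.logb 2 (keys T).length) := by
  have hlog : (0 : ℝ) ≤ 8 * (((keys T).length : ℝ) * Real.logb 2 (keys T).length) := by
    rcases Nat.eq_zero_or_pos (keys T).length with h | h
    · simp [h]
    · have h1 : (1 : ℝ) ≤ (keys T).length := by exact_mod_cast h
      have h2 := Real.logb_nonneg (b := 2) (by norm_num) h1
      positivity
  by_cases h0 : X = []
  · subst h0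
    have e : costSplay T [] = 0 := by simp [costSplay]
    rw [e, Nat.cast_zero]
    positivity
  have hne : T ≠ Tr.nil := by
    rintro rfl
    obtain ⟨x, hx⟩ := List.exists_mem_of_ne_nil X h0
    have := hX x hx
    simp [keys] at this
  have h := ws_holds T X hT hne hX
  have h1 := det hT hN hX hb1
  have h3 := len_le'' (keys T) X
  linarith

/-- spread sequences -/
theorem closeSum_zero {N b n : ℕ} {X : List ℕ} {c : ℝ}
    (hS : ∀ S : List ℕ, S <:+: X → ∀ x ∈ S, ∀ y ∈ S, x < y →
      c * N ≤ ((y : ℝ) - x) * #S.toFinset) (hc : 2 ≤ c * 2 ^ b) (hXN : ∀ x ∈ X, x < N) :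
    closeSum N b n X = 0 := by
  unfold closeSum
  refine sum_eq_zero fun j _ => ?_
  refine List.sum_eq_zero fun a ha => ?_
  rw [List.mem_map] at ha
  obtain ⟨U, hU, rfl⟩ := ha
  have hcard : #U = 2 ^ (j * b + 1) := windows_card Nat.one_le_two_pow X ∅ (by simp) U hU
  have e : (∅ : Finset ℕ) = ([] : List ℕ).toFinset := by simp
  rw [e] at hU
  obtain ⟨S, hS1, hS2⟩ := windows_infix _ X [] U hU
  rw [List.nil_append] at hS1
  unfold closePairs
  rw [card_eq_zero, filter_eq_empty_iff]
  have key : ∀ x y : ℕ, x ∈ U → y ∈ U → x < y → ¬ y ≤ x + (N - 1) / 2 ^ (j * b + b) := by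
    intro x y hx hy hxy hcon
    have hx' : x ∈ S := by rw [← List.mem_toFinset, hS2]; exact hx
    have hy' : y ∈ S := by rw [← List.mem_toFinset, hS2]; exact hy
    have h1 := hS S hS1 x hx' y hy' hxy
    rw [hS2, hcard] at h1
    have hN1 : 1 ≤ N := by
      have := hXN x (hS1.subset hx')
      omega
    have h2 : (N - 1) / 2 ^ (j * b + b) * 2 ^ (j * b + b) ≤ N - 1 := Nat.div_mul_le_self _ _
    have h3 : (y - x) * 2 ^ (j * b + b) < N := by
      have : (y - x) * 2 ^ (j * b + b) ≤ (N - 1) / 2 ^ (j * b + b) * 2 ^ (j * b + b) :=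
        Nat.mul_le_mul_right _ (by omega)
      omega
    have h4 : ((y : ℝ) - x) * 2 ^ (j * b + b) < N := by
      have e4 : ((y - x : ℕ) : ℝ) = (y : ℝ) - x := by rw [Nat.cast_sub hxy.le]
      rw [← e4]
      exact_mod_cast h3
    push_cast at h1
    have e5 : (2 : ℝ) ^ (j * b + 1) * 2 ^ b = 2 * 2 ^ (j * b + b) := by
      rw [pow_add, pow_add]; ring
    have h6 : (2 : ℝ) * N ≤ (c * 2 ^ b) * N := mul_le_mul_of_nonneg_right hc (Nat.cast_nonneg _)
    have h7 : (c * N) * 2 ^ b ≤ (((y : ℝ) - x) * 2 ^ (j * b + 1)) * 2 ^ b :=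
      mul_le_mul_of_nonneg_right h1 (by positivity)
    have h8 : (((y : ℝ) - x) * 2 ^ (j * b + 1)) * 2 ^ b = 2 * (((y : ℝ) - x) * 2 ^ (j * b + b)) := by
      rw [mul_assoc, e5]; ring
    rw [h8] at h7
    linarith
  rintro ⟨x, y⟩ hq ⟨h1, h2⟩
  rw [mem_offDiag] at hq
  simp only at hq h1 h2
  rcases lt_trichotomy x y with h | h | h
  · exact key x y hq.1 hq.2.1 h h2
  · exact hq.2.2 h
  · exact key y x hq.2.1 hq.1 h h1

end Pool.Agent.K3h49.SR
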