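import Pool.Agent.K3h49.SR.Fin

set_option autoImplicit false

/-! Few labellings: nodes with keys on both sides, and collisions. -/

namespace Pool.Agent.K3h49.SR

open Finset Pool.Agent.H581R2.Splay Pool.Agent.TH49.Spl Pool.Agent.Y395.SP

/-- a balanced scheme of intervals -/
def bl : AS → ℕ → ℕ → Prop
  | AS.leaf, l, r => r ≤ l + 1
  | AS.node m b p A C, l, r => b = false ∧ p = false ∧ l ≤ m ∧ m ≤ r ∧
      2 * (m - l) ≤ r - l + 1 ∧ 2 * (r - m) ≤ r - l + 1 ∧ bl A l m ∧ bl C m r

theorem exists_bl : ∀ (n l r : ℕ), r - l ≤ n → l ≤ r → ∃ s : AS, bl s l r := by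
  intro n
  induction n with
  | zero => intro l r h _; exact ⟨AS.leaf, by show _ ≤ _; omega⟩
  | succ n ih =>
    intro l r h hlr
    by_cases h1 : r ≤ l + 1
    · exact ⟨AS.leaf, h1⟩
    obtain ⟨A, hA⟩ := ih l (l + (r - l) / 2) (by omega) (by omega)
    obtain ⟨C, hC⟩ := ih (l + (r - l) / 2) r (by omega) (by omega)
    exact ⟨AS.node (l + (r - l) / 2) false false A C, rfl, rfl, by omega, by omega, by omega,
      by omega, hA, hC⟩

theorem bl_ok : ∀ {s : AS} {l r : ℕ}, bl s l r → ok s l r ∧ cln s := by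
  intro s
  induction s with
  | leaf => intro l r _; exact ⟨trivial, trivial⟩
  | node m b p A C ihA ihC =>
    intro l r h
    obtain ⟨h1, h2, h3, h4, _, _, h6, h7⟩ := h
    exact ⟨⟨h3, h4, (ihA h6).1, (ihC h7).1⟩, ⟨h1, h2, (ihA h6).2, (ihC h7).2⟩⟩

section

variable {κ : Type} [DecidableEq κ] (p : κ → ℕ) (V : Finset κ)

/-- the keys in `[l, r)` -/
def inn (l r : ℕ) : Finset κ := V.filter fun y => l ≤ p y ∧ p y < r

/-- the collisions in the nodes of level `D` -/
def col : ℕ → AS → ℕ → ℕ → ℕ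
  | 0, _, l, r => #(inn p V l r) - 1
  | _ + 1, AS.leaf, _, _ => 0
  | D + 1, AS.node m _ _ A C, l, r => col D A l m + col D C m r

theorem inn_split {l m r : ℕ} (h1 : l ≤ m) (h2 : m ≤ r) :
    #(inn p V l r) = #(inn p V l m) + #(inn p V m r) := by
  unfold inn
  rw [← card_union_of_disjoint]
  · congr 1
    ext y
    rw [mem_union, mem_filter, mem_filter, mem_filter]
    constructor
    · rintro ⟨q1, q2⟩
      by_cases c : p y < m
      · exact Or.inl ⟨q1, by omega⟩
      · exact Or.inr ⟨q1, by omega⟩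
    · rintro (⟨q1, q2⟩ | ⟨q1, q2⟩)
      · exact ⟨q1, by omega⟩
      · exact ⟨q1, by omega⟩
  · rw [disjoint_left]
    intro y
    rw [mem_filter, mem_filter]
    rintro ⟨_, q⟩ ⟨_, q'⟩
    omega

theorem hit_iff (l r : ℕ) : hit p V l r ↔ 0 < #(inn p V l r) := by
  rw [card_pos]
  constructor
  · rintro ⟨y, q1, q2⟩
    exact ⟨y, by rw [inn, mem_filter]; exact ⟨q1, q2⟩⟩
  · rintro ⟨y, hy⟩
    rw [inn, mem_filter] at hy
    exact ⟨y, hy.1, hy.2⟩

theorem inn_leaf {p : κ → ℕ} (hp : Function.Injective p) {l r : ℕ} (h : r ≤ l + 1) :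
    #(inn p V l r) ≤ 1 := by
  rw [card_le_one]
  intro y hy z hz
  rw [inn, mem_filter] at hy hz
  exact hp (by omega)

/-- branching nodes and collisions -/
theorem branch {p : κ → ℕ} (hp : Function.Injective p) : ∀ (D : ℕ) (s : AS) (l r : ℕ),
    bl s l r → #(inn p V l r) ≤ ∑ e ∈ range D, bh p V e s l r + col p V D s l r +
      min 1 #(inn p V l r) := by
  intro D
  induction D with
  | zero => intro s l r _; simp only [sum_range_zero, col]; omega
  | succ D ih =>
    intro s l r hb
    cases s with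
    | leaf =>
      have := inn_leaf V hp (show r ≤ l + 1 from hb)
      omega
    | node m b b' A C =>
      obtain ⟨_, _, h1, h2, _, _, hA, hC⟩ := hb
      have i1 := ih A l m hA
      have i2 := ih C m r hC
      have i3 := inn_split p V h1 h2
      rw [sum_range_succ']
      simp only [bh, col, sum_add_distrib]
      by_cases c : hit p V l m ∧ hit p V m r
      · rw [if_pos c]
        rw [hit_iff, hit_iff] at c
        omega
      · rw [if_neg c]
        rw [hit_iff, hit_iff] at c
        omega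

theorem bh_le : ∀ (d : ℕ) (s : AS) (l r : ℕ), bh p V d s l r ≤ 2 ^ d := by
  intro d
  induction d with
  | zero =>
    intro s l r
    cases s with
    | leaf => simp [bh]
    | node m b b' A C => simp only [bh]; split_ifs <;> simp
  | succ d ih =>
    intro s l r
    cases s with
    | leaf => simp [bh]
    | node m b b' A C =>
      simp only [bh]
      have h1 := ih A l m
      have h2 := ih C m r
      rw [pow_succ]
      omega

theorem sum_bh_le (d : ℕ) (s : AS) (l r : ℕ) : ∑ e ∈ range d, bh p V e s l r + 1 ≤ 2 ^ d := by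
  have h : ∑ e ∈ range d, bh p V e s l r ≤ ∑ e ∈ range d, 2 ^ e :=
    sum_le_sum fun e _ => bh_le p V e s l r
  have h2 : ∑ e ∈ range d, 2 ^ e + 1 = 2 ^ d := by
    have := Nat.geomSum_eq (le_refl 2) d
    have h3 : 1 ≤ 2 ^ d := Nat.one_le_two_pow
    rw [this]
    omega
  omega

/-- the ordered pairs of different keys within distance `t` in `[l, r)` -/
def cp (t l r : ℕ) : Finset (κ × κ) :=
  V.offDiag.filter fun q => (l ≤ p q.1 ∧ p q.1 < r) ∧ (l ≤ p q.2 ∧ p q.2 < r) ∧
    p q.1 ≤ p q.2 + t ∧ p q.2 ≤ p q.1 + t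

theorem col_le (t : ℕ) : ∀ (D : ℕ) (s : AS) (l r : ℕ), bl s l r → r - l < 2 ^ D * (t + 1) + 1 →
    2 * col p V D s l r ≤ #(cp p V t l r) := by
  intro D
  induction D with
  | zero =>
    intro s l r _ h
    rw [pow_zero, one_mul] at h
    have hsub : (inn p V l r).offDiag ⊆ cp p V t l r := by
      rintro ⟨y, z⟩ hq
      rw [mem_offDiag] at hq
      simp only [inn, mem_filter] at hq
      rw [cp, mem_filter, mem_offDiag]
      simp only
      refine ⟨⟨hq.1.1, hq.2.1.1, hq.2.2⟩, hq.1.2, hq.2.1.2, ?_, ?_⟩ <;> omega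
    have h1 := card_le_card hsub
    rw [offDiag_card] at h1
    simp only [col]
    refine le_trans ?_ h1
    obtain ⟨c, hc⟩ : ∃ c, c = #(inn p V l r) := ⟨_, rfl⟩
    rw [← hc]
    rcases Nat.eq_zero_or_pos c with h0 | h0
    · simp [h0]
    · obtain ⟨e, rfl⟩ : ∃ e, c = e + 1 := ⟨c - 1, by omega⟩
      have : (e + 1) * (e + 1) - (e + 1) = (e + 1) * e := by
        rw [Nat.sub_eq_of_eq_add]; ring
      rw [this]
      simp only [Nat.add_sub_cancel]
      rcases Nat.eq_zero_or_pos e with h2 | h2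
      · simp [h2]
      · nlinarith
  | succ D ih =>
    intro s l r hb h
    cases s with
    | leaf => simp [col]
    | node m b b' A C =>
      obtain ⟨_, _, h1, h2, h3, h4, hA, hC⟩ := hb
      rw [pow_succ, mul_assoc, mul_comm 2 (t + 1), ← mul_assoc] at h
      have i1 := ih A l m hA (by omega)
      have i2 := ih C m r hC (by omega)
      simp only [col]
      have hun : cp p V t l m ∪ cp p V t m r ⊆ cp p V t l r := by
        intro q
        rw [mem_union, cp, cp, cp, mem_filter, mem_filter, mem_filter]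
        rintro (⟨q1, q2⟩ | ⟨q1, q2⟩)
        · exact ⟨q1, by omega⟩
        · exact ⟨q1, by omega⟩
      have hdis : Disjoint (cp p V t l m) (cp p V t m r) := by
        rw [disjoint_left]
        intro q
        rw [cp, cp, mem_filter, mem_filter]
        rintro ⟨_, q1⟩ ⟨_, q2⟩
        omega
      have := card_le_card hun
      rw [card_union_of_disjoint hdis] at this
      omega

/-- the branching nodes of the levels `d, …, d + b - 1` -/
theorem block {p : κ → ℕ} (hp : Function.Injective p) {n : ℕ} (hn : ∀ y, p y < n) {s : AS}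
    (hb : bl s 0 n) (d b : ℕ) :
    2 * #V ≤ 2 * ∑ e ∈ range b, bh p V (d + e) s 0 n + 2 * 2 ^ d +
      #(cp p V ((n - 1) / 2 ^ (d + b)) 0 n) := by
  have e1 : inn p V 0 n = V := by
    ext y
    simp [inn, hn]
  have h1 := branch V hp (d + b) s 0 n hb
  rw [e1, sum_range_add] at h1
  have h2 := sum_bh_le p V d s 0 n
  have h3 := col_le p V ((n - 1) / 2 ^ (d + b)) (d + b) s 0 n hb (by
    have := Nat.lt_mul_div_succ (n - 1) (show 0 < 2 ^ (d + b) by positivity)
    omega)
  omega

end

end Pool.Agent.K3h49.SR
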