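import Mathlib

set_option autoImplicit false

/-! Families of labellings. -/

namespace Pool.Agent.K3h49.SR

open Finset

open Classical in
/-- for two different keys and `t ≥ 1` at most a proportion `A t / (n - 1)` of the labellings of the
family gives them labels which differ by at most `t` -/
def Spread {κ ι : Type} [Fintype ι] (ρ : ι → κ → ℕ) (A : ℝ) (n : ℕ) : Prop :=
  ∀ x y : κ, x ≠ y → ∀ t : ℕ, 1 ≤ t →
    (#(univ.filter fun i : ι => ρ i x ≤ ρ i y + t ∧ ρ i y ≤ ρ i x + t) : ℝ) * (n - 1 : ℝ) ≤
      A * t * Fintype.card ι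

end Pool.Agent.K3h49.SR
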