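import Pool.Agent.K3h49.SR.Few
import Pool.Agent.K3h49.SR.Sprd

set_option autoImplicit false

/-! Few labellings: the theorem. -/

namespace Pool.Agent.K3h49.SR

open Finset Pool.Agent.H581R2.Splay Pool.Agent.TH49.Spl Pool.Agent.Y395.SP

theorem dsum {M : Type} [AddCommMonoid M] (f : ℕ → M) (b : ℕ) : ∀ N : ℕ,
    ∑ j ∈ range N, ∑ e ∈ range b, f (j * b + e) = ∑ e ∈ range (N * b), f e := by
  intro N
  induction N with
  | zero => simp
  | succ N ih => rw [sum_range_succ, ih, add_mul, one_mul, sum_range_add]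

section

variable {κ : Type} [DecidableEq κ]

theorem hvb_sum {b : ℕ} (hb : 1 ≤ b) (N : ℕ) (h : List κ) (x : κ) (hN : wk h x ≤ N) :
    Real.logb 2 ((wk h x : ℝ) + 1) ≤
      1 + b * ∑ j ∈ range N, hv (2 ^ (j * b + 1)) h x := by
  set w := wk h x with hw
  have h1 : w + 1 ≤ 2 ^ (Nat.log 2 w + 1) := Nat.lt_pow_succ_log_self (by norm_num) _
  have h2 : Real.logb 2 ((w : ℝ) + 1) ≤ (Nat.log 2 w : ℝ) + 1 := by
    have h3 : ((w : ℝ) + 1) ≤ (2 : ℝ) ^ (Nat.log 2 w + 1) := by exact_mod_cast h1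
    have h4 := Real.logb_le_logb_of_le (b := 2) (by norm_num) (by positivity) h3
    rw [Real.logb_pow, Real.logb_self_eq_one (by norm_num)] at h4
    push_cast at h4
    linarith
  have hnn : (0 : ℝ) ≤ ∑ j ∈ range N, hv (2 ^ (j * b + 1)) h x := by
    refine sum_nonneg fun i _ => ?_
    unfold hv; split_ifs <;> norm_num
  rcases Nat.eq_zero_or_pos (Nat.log 2 w) with h0 | h0
  · rw [h0] at h2
    have : (0 : ℝ) ≤ b * ∑ j ∈ range N, hv (2 ^ (j * b + 1)) h x := by positivity
    push_cast at h2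
    linarith
  set q := (Nat.log 2 w - 1) / b + 1 with hq
  have hw0 : w ≠ 0 := by
    rintro e
    rw [e] at h0
    simp at h0
  have hlw : Nat.log 2 w ≤ w := Nat.log_le_self 2 w
  have hqN : q ≤ N := by
    have : (Nat.log 2 w - 1) / b ≤ Nat.log 2 w - 1 := Nat.div_le_self _ _
    omega
  have hbq : Nat.log 2 w ≤ b * q := by
    have := Nat.lt_mul_div_succ (Nat.log 2 w - 1) (show 0 < b by omega)
    rw [hq]
    omega
  have h5 : (q : ℝ) ≤ ∑ j ∈ range N, hv (2 ^ (j * b + 1)) h x := by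
    have h6 : ∑ j ∈ range q, hv (2 ^ (j * b + 1)) h x = q := by
      rw [sum_congr rfl (g := fun _ => (1 : ℝ))]
      · simp
      · intro j hj
        rw [mem_range] at hj
        unfold hv
        rw [if_pos]
        have h7 : j * b ≤ Nat.log 2 w - 1 := by
          have h8 : j ≤ (Nat.log 2 w - 1) / b := by omega
          calc j * b ≤ (Nat.log 2 w - 1) / b * b := Nat.mul_le_mul_right _ h8
            _ ≤ Nat.log 2 w - 1 := Nat.div_mul_le_self _ _
        rw [← hw]
        calc 2 ^ (j * b + 1) ≤ 2 ^ Nat.log 2 w :=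
              Nat.pow_le_pow_right (by norm_num) (by omega)
          _ ≤ w := Nat.pow_log_le_self 2 hw0
    rw [← h6]
    refine sum_le_sum_of_subset_of_nonneg (fun i hi => ?_) fun i _ _ => ?_
    · rw [mem_range] at hi ⊢; omega
    · unfold hv; split_ifs <;> norm_num
  have h6 : (Nat.log 2 w : ℝ) ≤ b * q := by exact_mod_cast hbq
  have h7 : (b : ℝ) * q ≤ b * ∑ j ∈ range N, hv (2 ^ (j * b + 1)) h x :=
    mul_le_mul_of_nonneg_left h5 (Nat.cast_nonneg _)
  linarith

theorem tot_map (s : AS) (R : ℕ) (p : κ → ℕ) (Y : List κ) : ∀ g : List κ,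
    (tot s 0 R (g.map p) (Y.map p) : ℝ) =
      Sm (fun h x => (J (h.map p) (p x) s 0 R : ℝ)) g Y := by
  induction Y with
  | nil => intro g; simp [tot, Sm]
  | cons x Y ih =>
    intro g
    rw [List.map_cons, tot]
    have := ih (x :: g)
    rw [List.map_cons] at this
    push_cast
    rw [this]
    rfl

theorem bst_range {n : ℕ} {T : Tr} (hT : keys T = List.range n) : IsBST T := by
  unfold IsBST
  rw [hT]
  exact List.pairwise_lt_range

theorem len_le' (n : ℕ) (Y : List ℕ) : (Y.length : ℝ) ≤ optAny (List.range n) Y := by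
  have h := len_optAny (T := comb (List.range n)) Y
  rw [keys_comb] at h
  exact_mod_cast h

/-- all changes -/
theorem changes {n : ℕ} {s : AS} (hb : bl s 0 n) {p : κ → ℕ} (hp : ∀ y, p y < n)
    (X : List κ) (D : ℕ) :
    ∑ e ∈ range D, Sm (fun h x => (Jd (h.map p) (p x) e s 0 n : ℝ)) [] X ≤
      5 * (optAny (List.range n) (X.map p) : ℝ) := by
  have hok := (bl_ok hb).1
  have h2 : Sm (fun h x => (J (h.map p) (p x) s 0 n : ℝ)) [] X / 2 ≤
      (optAny (List.range n) (X.map p) : ℝ) := by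
    refine optAny_ge (keys_comb (List.range n)) fun T c hT hE => ?_
    have h1 := tot_le hE (bst_range hT) (by
      intro x hx
      rw [List.mem_map] at hx
      obtain ⟨y, _, rfl⟩ := hx
      rw [hT, List.mem_range]
      exact hp y) hok (bl_ok hb).2
    have h2 := tot_map s n p X []
    rw [List.map_nil] at h2
    rw [← h2]
    have h3 : ((tot s 0 n [] (X.map p) : ℕ) : ℝ) ≤ 2 * c := by exact_mod_cast h1
    linarith
  have h3 := len_le' n (X.map p)
  rw [List.length_map] at h3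
  have h4 : Sm (fun h x => ∑ e ∈ range D, (Jd (h.map p) (p x) e s 0 n : ℝ)) [] X ≤
      Sm (fun h x => (J (h.map p) (p x) s 0 n : ℝ) + (JL (h.map p) (p x) s 0 n : ℝ)) [] X := by
    refine Sm_le (fun h x => ?_) X []
    exact_mod_cast Jd_le (h.map p) (p x) D s 0 n
  rw [Sm_add, Sm_sum] at h4
  have h7 := JL_le (X.map p) s 0 n hok
  have h8 := Sm_len_le (X.map p) hok
  have h9 := Sm_map (fun g x => (JL g x s 0 n : ℝ)) p X []
  have h10 := Sm_map (fun g x => (J g x s 0 n : ℝ)) p X []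
  rw [List.map_nil] at h9 h10
  rw [h9, h10] at h7
  rw [List.length_map] at h8
  linarith

/-- the sum of the collisions over the windows -/
def colW (p : κ → ℕ) (n b : ℕ) (X : List κ) (j : ℕ) : ℝ :=
  ((cl (2 ^ (j * b + 1)) ∅ X).map fun U => (#(cp p U ((n - 1) / 2 ^ (j * b + b)) 0 n) : ℝ)).sum

theorem one_scale {n : ℕ} {s : AS} (hb : bl s 0 n) {p : κ → ℕ} (hpi : Function.Injective p)
    (hp : ∀ y, p y < n) (X : List κ) (b j : ℕ) :
    2 ^ (j * b + 1) * ((cl (2 ^ (j * b + 1)) ∅ X).length : ℝ) ≤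
      2 * (∑ e ∈ range b, Sm (fun h x => (Jd (h.map p) (p x) (j * b + e) s 0 n : ℝ)) [] X) +
      colW p n b X j := by
  set k := 2 ^ (j * b + 1) with hk
  have hk1 : 1 ≤ k := Nat.one_le_two_pow
  set C := cl k ∅ X with hC
  have hcard : ∀ U ∈ C, #U = k := cl_card hk1 X ∅ (by simp)
  have h1 : ∀ e, (C.map fun U => (bh p U (j * b + e) s 0 n : ℝ)).sum ≤
      Sm (fun h x => (Jd (h.map p) (p x) (j * b + e) s 0 n : ℝ)) [] X := by
    intro e
    have := claim1 p k (j * b + e) s 0 n X [] 0 ∅ (by simp)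
    rw [bh_empty, ← hC] at this
    simpa using this
  have h2 : ∀ C : List (Finset κ), (∀ U ∈ C, #U = k) → (k : ℝ) * C.length ≤
      2 * (∑ e ∈ range b, (C.map fun U => (bh p U (j * b + e) s 0 n : ℝ)).sum) +
      (C.map fun U => (#(cp p U ((n - 1) / 2 ^ (j * b + b)) 0 n) : ℝ)).sum := by
    intro C
    induction C with
    | nil => intro _; simp
    | cons U C ih =>
      intro hU
      have i1 := ih fun U' hU' => hU U' (List.mem_cons_of_mem _ hU')
      have i2 := hU U List.mem_cons_self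
      have i3 := block U hpi hp hb (j * b) b
      rw [i2] at i3
      have i4 : 2 * (k : ℝ) ≤ 2 * ∑ e ∈ range b, (bh p U (j * b + e) s 0 n : ℝ) +
          2 * 2 ^ (j * b) + (#(cp p U ((n - 1) / 2 ^ (j * b + b)) 0 n) : ℝ) := by
        exact_mod_cast i3
      have i5 : (k : ℝ) = 2 * 2 ^ (j * b) := by rw [hk]; push_cast; ring
      simp only [List.map_cons, List.sum_cons, List.length_cons, sum_add_distrib]
      push_cast
      linarith
  have h3 := h2 C hcard
  have h4 := sum_le_sum fun e (_ : e ∈ range b) => h1 e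
  have e5 : ((2 : ℝ) ^ (j * b + 1)) = (k : ℝ) := by rw [hk]; push_cast; ring
  rw [e5]
  unfold colW
  rw [← hk, ← hC]
  linarith

end

section

variable {κ ι : Type} [DecidableEq κ] [Fintype κ] [Fintype ι] {n : ℕ} (ρ : ι → κ → ℕ)

variable {ρ}

open Classical in
theorem mean_cp {A : ℝ} (hA : 0 ≤ A) (hinj : ∀ i, Function.Injective (ρ i))
    (hS : Spread ρ A n) (U : Finset κ) {b j : ℕ} (hU : #U = 2 ^ (j * b + 1)) :
    ∑ i : ι, (#(cp (ρ i) U ((n - 1) / 2 ^ (j * b + b)) 0 n) : ℝ) ≤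
      2 * A * (1 / 2) ^ b * Fintype.card ι * 2 ^ (j * b + 1) := by
  set t := (n - 1) / 2 ^ (j * b + b) with ht
  have h1 : ∀ i : ι, (#(cp (ρ i) U t 0 n) : ℝ) ≤ ∑ q ∈ U.offDiag,
      if ρ i q.1 ≤ ρ i q.2 + t ∧ ρ i q.2 ≤ ρ i q.1 + t then (1 : ℝ) else 0 := by
    intro i
    rw [← sum_filter, sum_const, nsmul_eq_mul, mul_one]
    refine Nat.cast_le.2 (card_le_card ?_)
    intro q hq
    rw [cp, mem_filter] at hq
    rw [mem_filter]
    exact ⟨hq.1, hq.2.2.2⟩
  have h2 : ∀ q ∈ U.offDiag, ∑ i : ι,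
      (if ρ i q.1 ≤ ρ i q.2 + t ∧ ρ i q.2 ≤ ρ i q.1 + t then (1 : ℝ) else 0) ≤
        A * (1 / 2) ^ (j * b + b) * Fintype.card ι := by
    intro q hq
    rw [mem_offDiag] at hq
    rw [← sum_filter, sum_const, nsmul_eq_mul, mul_one]
    rcases Nat.eq_zero_or_pos t with h0 | h0
    · rw [filter_eq_empty_iff.2]
      · rw [card_empty, Nat.cast_zero]; positivity
      · rintro i _ ⟨q1, q2⟩
        rw [h0] at q1 q2
        exact hq.2.2 (hinj i (by omega))
    · have h3 := hS q.1 q.2 hq.2.2 t h0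
      have h4 : 1 ≤ n - 1 := by
        by_contra hcon
        have : n - 1 = 0 := by omega
        rw [ht, this, Nat.zero_div] at h0
        exact lt_irrefl _ h0
      have h5 : (1 : ℝ) ≤ (n : ℝ) - 1 := by
        have : (2 : ℕ) ≤ n := by omega
        have : (2 : ℝ) ≤ n := by exact_mod_cast this
        linarith
      have h6 : (t : ℝ) ≤ ((n : ℝ) - 1) * (1 / 2) ^ (j * b + b) := by
        have h7 : t * 2 ^ (j * b + b) ≤ n - 1 := Nat.div_mul_le_self _ _
        have h8 : (t : ℝ) * 2 ^ (j * b + b) ≤ (n : ℝ) - 1 := by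
          have : ((n - 1 : ℕ) : ℝ) = (n : ℝ) - 1 := by
            rw [Nat.cast_sub (by omega)]; simp
          rw [← this]
          exact_mod_cast h7
        rw [one_div, inv_pow, ← div_eq_mul_inv, le_div_iff₀ (by positivity)]
        exact h8
      have h9 : (#(univ.filter fun i : ι => ρ i q.1 ≤ ρ i q.2 + t ∧ ρ i q.2 ≤ ρ i q.1 + t) : ℝ) *
          (n - 1 : ℝ) ≤ (A * (1 / 2) ^ (j * b + b) * Fintype.card ι) * (n - 1 : ℝ) := by
        refine h3.trans ?_
        have : A * t * Fintype.card ι ≤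
            A * (((n : ℝ) - 1) * (1 / 2) ^ (j * b + b)) * Fintype.card ι :=
          mul_le_mul_of_nonneg_right (mul_le_mul_of_nonneg_left h6 hA) (Nat.cast_nonneg _)
        linarith
      exact le_of_mul_le_mul_right h9 (by linarith)
  calc ∑ i : ι, (#(cp (ρ i) U t 0 n) : ℝ)
      ≤ ∑ i : ι, ∑ q ∈ U.offDiag,
        (if ρ i q.1 ≤ ρ i q.2 + t ∧ ρ i q.2 ≤ ρ i q.1 + t then (1 : ℝ) else 0) :=
        sum_le_sum fun i _ => h1 i
    _ = ∑ q ∈ U.offDiag, ∑ i : ι,
        (if ρ i q.1 ≤ ρ i q.2 + t ∧ ρ i q.2 ≤ ρ i q.1 + t then (1 : ℝ) else 0) := sum_comm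
    _ ≤ ∑ _q ∈ U.offDiag, A * (1 / 2) ^ (j * b + b) * Fintype.card ι := sum_le_sum h2
    _ = #U.offDiag * (A * (1 / 2) ^ (j * b + b) * Fintype.card ι) := by
        rw [sum_const, nsmul_eq_mul]
    _ ≤ (2 ^ (j * b + 1) * 2 ^ (j * b + 1)) * (A * (1 / 2) ^ (j * b + b) * Fintype.card ι) := by
        refine mul_le_mul_of_nonneg_right ?_ (by positivity)
        have : #U.offDiag ≤ 2 ^ (j * b + 1) * 2 ^ (j * b + 1) := by
          rw [offDiag_card, hU]; exact Nat.sub_le _ _
        exact_mod_cast this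
    _ = 2 * A * (1 / 2) ^ b * Fintype.card ι * 2 ^ (j * b + 1) := by
        have e : ((1 : ℝ) / 2) ^ (j * b + b) = (1 / 2) ^ (j * b) * (1 / 2) ^ b := pow_add _ _ _
        have e2 : (2 : ℝ) ^ (j * b + 1) = 2 * 2 ^ (j * b) := by rw [pow_succ]; ring
        have e3 : (2 : ℝ) ^ (j * b) * (1 / 2) ^ (j * b) = 1 := by
          rw [← mul_pow]; norm_num
        rw [e, e2]
        calc 2 * 2 ^ (j * b) * (2 * 2 ^ (j * b)) *
              (A * ((1 / 2) ^ (j * b) * (1 / 2) ^ b) * (Fintype.card ι : ℝ))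
            = (2 ^ (j * b) * (1 / 2) ^ (j * b)) * (2 * A * (1 / 2) ^ b * (Fintype.card ι : ℝ) *
              (2 * 2 ^ (j * b))) := by ring
          _ = _ := by rw [e3, one_mul]

theorem mean_colW {A : ℝ} (hA : 0 ≤ A) (hinj : ∀ i, Function.Injective (ρ i))
    (hS : Spread ρ A n) (X : List κ) (b j : ℕ) :
    ∑ i : ι, colW (ρ i) n b X j ≤ 2 * A * (1 / 2) ^ b * Fintype.card ι *
      (2 ^ (j * b + 1) * ((cl (2 ^ (j * b + 1)) ∅ X).length : ℝ)) := by
  unfold colW
  have hcard : ∀ U ∈ cl (2 ^ (j * b + 1)) ∅ X, #U = 2 ^ (j * b + 1) :=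
    cl_card Nat.one_le_two_pow X ∅ (by simp)
  generalize cl (2 ^ (j * b + 1)) ∅ X = C at hcard
  induction C with
  | nil => simp
  | cons U C ih =>
    have i1 := ih fun U' hU' => hcard U' (List.mem_cons_of_mem _ hU')
    have i2 := mean_cp hA hinj hS U (hcard U List.mem_cons_self)
    simp only [List.map_cons, List.sum_cons, sum_add_distrib, List.length_cons]
    push_cast
    linarith

open Classical in
/-- few labellings are bad -/
theorem few {A : ℝ} (hA : 0 ≤ A) (hinj : ∀ i, Function.Injective (ρ i))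
    (hlt : ∀ i x, ρ i x < n) (hS : Spread ρ A n) (X : List κ) {b : ℕ} (hb1 : 1 ≤ b) :
    (#(univ.filter fun i : ι => (20 * b + 1) * (optAny (List.range n) (X.map (ρ i)) : ℝ) <
      wsum [] (X.map (ρ i))) : ℝ) ≤ 4 * A * (1 / 2) ^ b * Fintype.card ι := by
  obtain ⟨s, hb⟩ := exists_bl n 0 n (by omega) (by omega)
  set N := Fintype.card κ with hN
  set Tot : ℝ := ∑ j ∈ range N, 2 ^ (j * b + 1) * ((cl (2 ^ (j * b + 1)) ∅ X).length : ℝ) with hTot
  set H : ℝ := ∑ j ∈ range N, Sm (hv (2 ^ (j * b + 1))) [] X with hH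
  have hHT : H ≤ Tot := by
    refine sum_le_sum fun j _ => ?_
    have := claim2 (k := 2 ^ (j * b + 1)) Nat.one_le_two_pow X [] ∅ (by simp) (by simp)
    push_cast at this
    exact this
  have hW : ∀ i, wsum [] (X.map (ρ i)) ≤ X.length + b * H := by
    intro i
    have h1 := wsum_map (hinj i) X []
    rw [List.map_nil] at h1
    have h2 := Sm_le (fun h x => hvb_sum hb1 N h x (card_le_univ _)) X []
    rw [Sm_add, Sm_const, Sm_mul, Sm_sum, one_mul] at h2
    rw [h1]
    exact h2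
  have hTn : 0 ≤ Tot := sum_nonneg fun j _ => by positivity
  have hlow : ∀ i, Tot ≤ 10 * (optAny (List.range n) (X.map (ρ i)) : ℝ) +
      ∑ j ∈ range N, colW (ρ i) n b X j := by
    intro i
    have h1 := sum_le_sum fun j (_ : j ∈ range N) => one_scale hb (hinj i) (hlt i) X b j
    rw [sum_add_distrib, ← mul_sum,
      dsum (fun e => Sm (fun h x => (Jd (h.map (ρ i)) (ρ i x) e s 0 n : ℝ)) [] X) b N] at h1
    have h2 := changes hb (hlt i) X (N * b)
    linarith
  have hmean : ∑ i : ι, ∑ j ∈ range N, colW (ρ i) n b X j ≤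
      2 * A * (1 / 2) ^ b * Fintype.card ι * Tot := by
    rw [sum_comm, hTot, mul_sum]
    exact sum_le_sum fun j _ => mean_colW hA hinj hS X b j
  have hcol0 : ∀ i, 0 ≤ ∑ j ∈ range N, colW (ρ i) n b X j := by
    intro i
    refine sum_nonneg fun j _ => ?_
    unfold colW
    refine List.sum_nonneg fun a ha => ?_
    rw [List.mem_map] at ha
    obtain ⟨U, _, rfl⟩ := ha
    positivity
  set F := univ.filter fun i : ι => (20 * b + 1) * (optAny (List.range n) (X.map (ρ i)) : ℝ) <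
      wsum [] (X.map (ρ i)) with hF
  have hbr : (1 : ℝ) ≤ b := by exact_mod_cast hb1
  have hbad : ∀ i ∈ F, Tot / 2 ≤ ∑ j ∈ range N, colW (ρ i) n b X j ∧ 0 < Tot := by
    intro i hi
    rw [hF, mem_filter] at hi
    have h1 := hi.2
    have h2 := hW i
    have h3 := len_le' n (X.map (ρ i))
    rw [List.length_map] at h3
    have h4 := hlow i
    have h5 : 20 * (optAny (List.range n) (X.map (ρ i)) : ℝ) < Tot := by
      have h6 : (b : ℝ) * (20 * (optAny (List.range n) (X.map (ρ i)) : ℝ)) < b * Tot := by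
        have : (b : ℝ) * H ≤ b * Tot := mul_le_mul_of_nonneg_left hHT (by linarith)
        nlinarith
      exact lt_of_mul_lt_mul_left h6 (by linarith)
    have h7 : (0 : ℝ) ≤ optAny (List.range n) (X.map (ρ i)) := Nat.cast_nonneg _
    constructor
    · linarith
    · linarith
  by_cases hFe : F = ∅
  · rw [hFe, card_empty, Nat.cast_zero]; positivity
  obtain ⟨i₀, hi₀⟩ := nonempty_iff_ne_empty.2 hFe
  have hTpos := (hbad i₀ hi₀).2
  have h1 : (#F : ℝ) * (Tot / 2) ≤ 2 * A * (1 / 2) ^ b * Fintype.card ι * Tot := by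
    refine le_trans ?_ hmean
    rw [← nsmul_eq_mul, ← sum_const]
    exact (sum_le_sum fun i hi => (hbad i hi).1).trans
      (sum_le_sum_of_subset_of_nonneg (subset_univ _) fun i _ _ => hcol0 i)
  have h2 : (#F : ℝ) * (Tot / 2) ≤ (4 * A * (1 / 2) ^ b * Fintype.card ι) * (Tot / 2) := by
    refine h1.trans (le_of_eq ?_)
    ring
  exact le_of_mul_le_mul_right h2 (by linarith)

open Classical in
/-- the same for the cost of splaying -/
theorem few_splay {A : ℝ} (hA : 0 ≤ A) (hinj : ∀ i, Function.Injective (ρ i))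
    (hlt : ∀ i x, ρ i x < n) (hS : Spread ρ A n) (X : List κ) {b : ℕ} (hb1 : 1 ≤ b) :
    (#(univ.filter fun i : ι => ∃ T : Tr, keys T = List.range n ∧
      (120 * b + 14) * (optAny (List.range n) (X.map (ρ i)) : ℝ) +
        8 * ((n : ℝ) * Real.logb 2 n) < costSplay T (X.map (ρ i))) : ℝ) ≤
      4 * A * (1 / 2) ^ b * Fintype.card ι := by
  refine le_trans (Nat.cast_le.2 (card_le_card ?_)) (few hA hinj hlt hS X hb1)
  intro i hi
  rw [mem_filter] at hi ⊢
  obtain ⟨-, T, hT, h1⟩ := hi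
  refine ⟨mem_univ _, ?_⟩
  by_contra hcon
  push Not at hcon
  have h3 := len_le' n (X.map (ρ i))
  have hlog : (0 : ℝ) ≤ 8 * ((n : ℝ) * Real.logb 2 n) := by
    rcases Nat.eq_zero_or_pos n with h | h
    · simp [h]
    · have h1 : (1 : ℝ) ≤ n := by exact_mod_cast h
      have h2 := Real.logb_nonneg (b := 2) (by norm_num) h1
      positivity
  by_cases hX : X = []
  · subst hX
    have e : costSplay T (([] : List κ).map (ρ i)) = 0 := rfl
    rw [e, Nat.cast_zero] at h1
    have : (0 : ℝ) ≤ (120 * b + 14) * (optAny (List.range n) (([] : List κ).map (ρ i)) : ℝ) := by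
      positivity
    linarith
  have hne : T ≠ Tr.nil := by
    rintro rfl
    obtain ⟨x, hx⟩ := List.exists_mem_of_ne_nil X hX
    have : ρ i x ∈ keys Tr.nil := by rw [hT, List.mem_range]; exact hlt i x
    simp [keys] at this
  have h := ws_holds T (X.map (ρ i)) (bst_range hT) hne (by
    intro x hx
    rw [List.mem_map] at hx
    obtain ⟨y, _, rfl⟩ := hx
    rw [hT, List.mem_range]
    exact hlt i y)
  rw [hT, List.length_range] at h
  linarith

end

end Pool.Agent.K3h49.SR
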