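import Pool.Agent.K3h49.SR.Cand

set_option autoImplicit false

/-! All levels: the exceptional set is doubly exponentially small. -/

namespace Pool.Agent.K3h49.SR

open Finset Pool.Agent.H581R2.Splay Pool.Agent.TH49.Spl Pool.Agent.Y395.SP

section

variable {κ : Type}

theorem Sm_map (F : List ℕ → ℕ → ℝ) (p : κ → ℕ) (Y : List κ) : ∀ g : List κ,
    Sm F (g.map p) (Y.map p) = Sm (fun h x => F (h.map p) (p x)) g Y := by
  induction Y with
  | nil => intro g; rfl
  | cons x Y ih =>
    intro g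
    rw [List.map_cons]
    simp only [Sm]
    have := ih (x :: g)
    rw [List.map_cons] at this
    rw [this]

variable [DecidableEq κ]

theorem bh_empty (p : κ → ℕ) : ∀ (s : AS) (d l r : ℕ), bh p ∅ d s l r = 0 := by
  intro s
  induction s with
  | leaf => intro d l r; cases d <;> rfl
  | node m b b' A C ihA ihC =>
    intro d l r
    cases d with
    | succ d => simp only [bh, ihA, ihC]
    | zero =>
      simp only [bh]
      rw [if_neg]
      rintro ⟨⟨y1, a1, a2⟩, _⟩
      simp at a1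

theorem list_markov {ι : Type} [Fintype ι] {M : ℝ} (P : Finset κ → ι → Prop)
    [∀ U i, Decidable (P U i)] : ∀ C : List (Finset κ),
    (∀ U ∈ C, (#(univ.filter fun i => P U i) : ℝ) ≤ M) →
    ∑ i : ι, (C.map fun U => if P U i then (1 : ℝ) else 0).sum ≤ C.length * M := by
  intro C
  induction C with
  | nil => intro _; simp
  | cons U C ih =>
    intro h
    have h1 := ih fun U' hU' => h U' (List.mem_cons_of_mem _ hU')
    have h2 := h U List.mem_cons_self
    simp only [List.map_cons, List.sum_cons, sum_add_distrib, List.length_cons]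
    have h3 : ∑ i : ι, (if P U i then (1 : ℝ) else 0) = #(univ.filter fun i => P U i) := by
      rw [← sum_filter, sum_const, nsmul_eq_mul, mul_one]
    rw [h3]
    push_cast
    linarith

variable [Fintype κ] {pos : κ → ℕ}

open Classical in
/-- one level -/
theorem level (d : ℕ) {s : AS} {R : ℕ} (hR : ∀ k, pos k < R) (hb : bal pos s 0 R) (X : List κ) :
    (#(univ.filter (fun π : Equiv.Perm κ =>
      32 * Sm (fun h x => (Jd (h.map fun y => pos (π y)) (pos (π x)) d s 0 R : ℝ)) [] X <
        Sm (hv (8 * 2 ^ d)) [] X)) : ℝ) ≤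
      2 * (196608 / 390625 : ℝ) ^ 2 ^ d * (Fintype.card κ).factorial := by
  set N : ℝ := ((Fintype.card κ).factorial : ℝ) with hN
  set C := cl (8 * 2 ^ d) ∅ X with hC
  have hk1 : 1 ≤ 8 * 2 ^ d := by
    have : 0 < 2 ^ d := by positivity
    omega
  set P : Finset κ → Equiv.Perm κ → Prop :=
    fun U π => 2 * bh (fun y => pos (π y)) U d s 0 R < 2 ^ d with hP
  have h2 := claim2 hk1 X [] ∅ (by simp) (by simp)
  rw [← hC] at h2
  have h1 : ∀ π : Equiv.Perm κ, (C.map fun U => (bh (fun y => pos (π y)) U d s 0 R : ℝ)).sum ≤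
      Sm (fun h x => (Jd (h.map fun y => pos (π y)) (pos (π x)) d s 0 R : ℝ)) [] X := by
    intro π
    have := claim1 (fun y => pos (π y)) (8 * 2 ^ d) d s 0 R X [] 0 ∅ (by simp)
    rw [bh_empty, ← hC] at this
    simpa using this
  have h3 : ∀ (π : Equiv.Perm κ) (C : List (Finset κ)),
      (2 : ℝ) ^ d / 2 * (C.length - (C.map fun U => if P U π then (1 : ℝ) else 0).sum) ≤
      (C.map fun U => (bh (fun y => pos (π y)) U d s 0 R : ℝ)).sum := by
    intro π C
    induction C with
    | nil => simp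
    | cons U C ih =>
      simp only [List.map_cons, List.sum_cons, List.length_cons]
      have h4 : (2 : ℝ) ^ d / 2 * (1 - (if P U π then (1 : ℝ) else 0)) ≤
          (bh (fun y => pos (π y)) U d s 0 R : ℝ) := by
        split_ifs with c
        · rw [sub_self, mul_zero]; exact Nat.cast_nonneg _
        · simp only [hP] at c
          push Not at c
          have : (2 : ℝ) ^ d ≤ 2 * (bh (fun y => pos (π y)) U d s 0 R : ℝ) := by exact_mod_cast c
          linarith
      push_cast
      linarith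
  have h5 : ∑ π : Equiv.Perm κ, (C.map fun U => if P U π then (1 : ℝ) else 0).sum ≤
      C.length * ((196608 / 390625 : ℝ) ^ 2 ^ d * N) := by
    refine list_markov P C fun U hU => ?_
    exact window hR hb (cl_card hk1 X ∅ (by simp) U hU)
  set E := univ.filter (fun π : Equiv.Perm κ =>
      32 * Sm (fun h x => (Jd (h.map fun y => pos (π y)) (pos (π x)) d s 0 R : ℝ)) [] X <
        Sm (hv (8 * 2 ^ d)) [] X) with hE
  have hP0 : (0 : ℝ) < 2 ^ d := by positivity
  have h6 : ∀ π ∈ E, (C.length : ℝ) / 2 ≤ (C.map fun U => if P U π then (1 : ℝ) else 0).sum := by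
    intro π hπ
    rw [hE, mem_filter] at hπ
    have a1 := h1 π
    have a2 := h3 π C
    have a3 := hπ.2
    push_cast at h2
    by_contra hcon
    push Not at hcon
    have a4 : 16 * 2 ^ d * ((C.length : ℝ) -
        (C.map fun U => if P U π then (1 : ℝ) else 0).sum) < 8 * 2 ^ d * C.length := by linarith
    nlinarith
  have hnn : ∀ (π : Equiv.Perm κ) (C : List (Finset κ)),
      0 ≤ (C.map fun U => if P U π then (1 : ℝ) else 0).sum := by
    intro π C
    induction C with
    | nil => simp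
    | cons U C ih =>
      simp only [List.map_cons, List.sum_cons]
      have : (0 : ℝ) ≤ if P U π then (1 : ℝ) else 0 := by split_ifs <;> norm_num
      linarith
  have h7 : (#E : ℝ) * ((C.length : ℝ) / 2) ≤
      C.length * ((196608 / 390625 : ℝ) ^ 2 ^ d * N) := by
    refine le_trans ?_ h5
    rw [← nsmul_eq_mul, ← sum_const]
    exact (sum_le_sum h6).trans
      (sum_le_sum_of_subset_of_nonneg (subset_univ _) fun π _ _ => hnn π C)
  by_cases hl : C.length = 0
  · have hEe : E = ∅ := by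
      rw [hE, filter_eq_empty_iff]
      intro π _ hπ
      have a1 := h1 π
      rw [List.length_eq_zero_iff] at hl
      rw [hl] at a1 h2
      simp only [List.map_nil, List.sum_nil, List.length_nil, Nat.cast_zero, mul_zero] at a1 h2
      linarith
    rw [hEe, card_empty, Nat.cast_zero]
    positivity
  · have hl' : (0 : ℝ) < C.length := by
      exact_mod_cast Nat.pos_of_ne_zero hl
    have h8 : (#E : ℝ) * ((C.length : ℝ) / 2) ≤
        (2 * (196608 / 390625 : ℝ) ^ 2 ^ d * N) * ((C.length : ℝ) / 2) := by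
      refine h7.trans (le_of_eq ?_)
      ring
    exact le_of_mul_le_mul_right h8 (by positivity)

/-- the heavy requests of all levels -/
theorem hv_sum (a N : ℕ) (h : List κ) (x : κ) (hN : wk h x ≤ N) :
    Real.logb 2 ((wk h x : ℝ) + 1) ≤ (a + 3 : ℝ) + ∑ i ∈ range N, hv (8 * 2 ^ (a + i)) h x := by
  set w := wk h x with hw
  have h1 : w + 1 ≤ 2 ^ (Nat.log 2 w + 1) := Nat.lt_pow_succ_log_self (by norm_num) _
  have h2 : Real.logb 2 ((w : ℝ) + 1) ≤ (Nat.log 2 w : ℝ) + 1 := by
    have h3 : ((w : ℝ) + 1) ≤ (2 : ℝ) ^ (Nat.log 2 w + 1) := by exact_mod_cast h1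
    have h4 := Real.logb_le_logb_of_le (b := 2) (by norm_num) (by positivity) h3
    rw [Real.logb_pow, Real.logb_self_eq_one (by norm_num)] at h4
    push_cast at h4
    linarith
  set L := Nat.log 2 w - 2 - a with hL
  have hLN : L ≤ N := by
    have := Nat.log_le_self 2 w
    omega
  have h5 : (L : ℝ) ≤ ∑ i ∈ range N, hv (8 * 2 ^ (a + i)) h x := by
    have h6 : ∑ i ∈ range L, hv (8 * 2 ^ (a + i)) h x = L := by
      rw [sum_congr rfl (g := fun _ => (1 : ℝ))]
      · simp
      · intro i hi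
        rw [mem_range] at hi
        unfold hv
        rw [if_pos]
        have h7 : a + i + 3 ≤ Nat.log 2 w := by omega
        have h8 : w ≠ 0 := by
          rintro h0
          rw [h0] at h7
          simp at h7
        rw [← hw]
        calc 8 * 2 ^ (a + i) = 2 ^ (a + i + 3) := by ring
          _ ≤ 2 ^ Nat.log 2 w := Nat.pow_le_pow_right (by norm_num) h7
          _ ≤ w := Nat.pow_log_le_self 2 h8
    rw [← h6]
    refine sum_le_sum_of_subset_of_nonneg (fun i hi => ?_) fun i _ _ => ?_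
    · rw [mem_range] at hi ⊢; omega
    · unfold hv; split_ifs <;> norm_num
  have h6 : (Nat.log 2 w : ℝ) ≤ L + 2 + a := by
    have : Nat.log 2 w ≤ L + 2 + a := by omega
    exact_mod_cast this
  linarith

theorem geo (N : ℕ) : ∀ a : ℕ, ∑ i ∈ range N, (196608 / 390625 : ℝ) ^ 2 ^ (a + i) ≤
    101 / 50 * (196608 / 390625 : ℝ) ^ 2 ^ a := by
  induction N with
  | zero => intro a; rw [sum_range_zero]; positivity
  | succ N ih =>
    intro a
    rw [sum_range_succ']
    have h1 := ih (a + 1)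
    have e : ∀ i, a + 1 + i = a + (i + 1) := fun i => by ring
    simp only [e] at h1
    rw [add_zero]
    have h2 : (196608 / 390625 : ℝ) ^ 2 ^ (a + 1) =
        (196608 / 390625 : ℝ) ^ 2 ^ a * (196608 / 390625 : ℝ) ^ 2 ^ a := by
      rw [← pow_add]; congr 1; rw [pow_succ]; ring
    have h3 : (196608 / 390625 : ℝ) ^ 2 ^ a ≤ 196608 / 390625 := by
      calc (196608 / 390625 : ℝ) ^ 2 ^ a ≤ (196608 / 390625 : ℝ) ^ 1 :=
            pow_le_pow_of_le_one (by norm_num) (by norm_num) Nat.one_le_two_pow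
        _ = _ := pow_one _
    have h4 : 0 < (196608 / 390625 : ℝ) ^ 2 ^ a := by positivity
    rw [h2] at h1
    nlinarith

end

section

variable {K : Finset ℕ} (X : List {x // x ∈ K}) (hX : X ≠ [])

include hX

open Classical in
/-- the optimum is large for almost all relabellings -/
theorem opt_all (a : ℕ) :
    (#(univ.filter (fun σ : Equiv.Perm {x // x ∈ K} =>
      160 * (optAny K.sort (relab σ X) : ℝ) + (a + 3) * X.length <
        wsum [] (X.map Subtype.val))) : ℝ) ≤
      101 / 25 * (196608 / 390625 : ℝ) ^ 2 ^ a * (#K).factorial := by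
  set pos : {x // x ∈ K} → ℕ := fun x => (x : ℕ) with hpos
  have hinj : Function.Injective pos := fun a b e => Subtype.ext e
  obtain ⟨R, hR⟩ : ∃ R : ℕ, ∀ k : {x // x ∈ K}, pos k < R :=
    ⟨K.sup id + 1, fun k => Nat.lt_succ_of_le (Finset.le_sup (f := id) k.2)⟩
  obtain ⟨s, hb⟩ := exists_bal hinj _ 0 R (Nat.zero_le _) (le_refl _)
  have hok := (bal_ok hb).1
  set n := Fintype.card {x // x ∈ K} with hn
  have hnK : n = #K := Fintype.card_coe K
  have hW : wsum [] (X.map Subtype.val) ≤ (a + 3) * X.length +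
      ∑ i ∈ range n, Sm (hv (κ := {x // x ∈ K}) (8 * 2 ^ (a + i))) [] X := by
    have h1 := wsum_map hinj X []
    rw [List.map_nil] at h1
    have h2 := Sm_le (fun h x => hv_sum (κ := {x // x ∈ K}) a n h x (card_le_univ _)) X []
    rw [Sm_add, Sm_const, Sm_sum, ← h1] at h2
    exact h2
  have hkey : ∀ σ : Equiv.Perm {x // x ∈ K},
      (∀ i ∈ range n, Sm (hv (κ := {x // x ∈ K}) (8 * 2 ^ (a + i))) [] X ≤
        32 * Sm (fun h x => (Jd (h.map fun y => pos (σ y)) (pos (σ x)) (a + i) s 0 R : ℝ)) [] X) →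
      wsum [] (X.map Subtype.val) ≤ 160 * (optAny K.sort (relab σ X) : ℝ) +
        (a + 3) * X.length := by
    intro σ hσ
    have h1 := sum_le_sum hσ
    rw [← mul_sum] at h1
    have h2 := low X hb σ
    have h3 := len_le X σ
    -- all changes
    have h4 : Sm (fun h x => ∑ i ∈ range n,
        (Jd (h.map fun y => pos (σ y)) (pos (σ x)) (a + i) s 0 R : ℝ)) [] X ≤
        Sm (fun h x => (J (h.map fun y => pos (σ y)) (pos (σ x)) s 0 R : ℝ) +
          (JL (h.map fun y => pos (σ y)) (pos (σ x)) s 0 R : ℝ)) [] X := by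
      refine Sm_le (fun h x => ?_) X []
      have h5 := Jd_le (h.map fun y => pos (σ y)) (pos (σ x)) (a + n) s 0 R
      rw [sum_range_add] at h5
      have h6 : ∑ i ∈ range n, Jd (h.map fun y => pos (σ y)) (pos (σ x)) (a + i) s 0 R ≤
          J (h.map fun y => pos (σ y)) (pos (σ x)) s 0 R +
          JL (h.map fun y => pos (σ y)) (pos (σ x)) s 0 R := by omega
      exact_mod_cast h6
    rw [Sm_add, Sm_sum] at h4
    have h7 := JL_le (X.map fun y => pos (σ y)) s 0 R hok
    have h8 := Sm_len_le (X.map fun y => pos (σ y)) hok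
    have h9 := Sm_map (fun g x => (JL g x s 0 R : ℝ)) (fun y => pos (σ y)) X []
    have h10 := Sm_map (fun g x => (J g x s 0 R : ℝ)) (fun y => pos (σ y)) X []
    rw [List.map_nil] at h9 h10
    rw [h9, h10] at h7
    rw [List.length_map] at h8
    have h11 : Sm (fun h x => (J (h.map fun y => pos (σ y)) (pos (σ x)) s 0 R : ℝ)) [] X ≤
        2 * (optAny K.sort (relab σ X) : ℝ) := h2
    linarith
  have hsub : univ.filter (fun σ : Equiv.Perm {x // x ∈ K} =>
      160 * (optAny K.sort (relab σ X) : ℝ) + (a + 3) * X.length <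
        wsum [] (X.map Subtype.val)) ⊆ (range n).biUnion (fun i =>
      univ.filter (fun π : Equiv.Perm {x // x ∈ K} =>
      32 * Sm (fun h x => (Jd (h.map fun y => pos (π y)) (pos (π x)) (a + i) s 0 R : ℝ)) [] X <
        Sm (hv (8 * 2 ^ (a + i))) [] X)) := by
    intro σ hσ
    rw [mem_filter] at hσ
    rw [mem_biUnion]
    by_contra hcon
    push Not at hcon
    have h1 := hkey σ (fun i hi => by
      have := hcon i hi
      rw [mem_filter] at this
      push Not at this
      exact this (mem_univ _))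
    linarith [hσ.2]
  calc _ ≤ (#((range n).biUnion (fun i =>
      univ.filter (fun π : Equiv.Perm {x // x ∈ K} =>
      32 * Sm (fun h x => (Jd (h.map fun y => pos (π y)) (pos (π x)) (a + i) s 0 R : ℝ)) [] X <
        Sm (hv (8 * 2 ^ (a + i))) [] X))) : ℝ) := by exact_mod_cast card_le_card hsub
    _ ≤ ∑ i ∈ range n, (#(univ.filter (fun π : Equiv.Perm {x // x ∈ K} =>
      32 * Sm (fun h x => (Jd (h.map fun y => pos (π y)) (pos (π x)) (a + i) s 0 R : ℝ)) [] X <
        Sm (hv (8 * 2 ^ (a + i))) [] X)) : ℝ) := by exact_mod_cast card_biUnion_le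
    _ ≤ ∑ i ∈ range n, 2 * (196608 / 390625 : ℝ) ^ 2 ^ (a + i) * (#K).factorial := by
        refine sum_le_sum fun i _ => ?_
        have := level (pos := pos) (a + i) hR hb X
        rw [Fintype.card_coe] at this
        exact this
    _ = 2 * (∑ i ∈ range n, (196608 / 390625 : ℝ) ^ 2 ^ (a + i)) * (#K).factorial := by
        rw [mul_sum, sum_mul]
    _ ≤ 2 * (101 / 50 * (196608 / 390625 : ℝ) ^ 2 ^ a) * (#K).factorial := by
        refine mul_le_mul_of_nonneg_right ?_ (Nat.cast_nonneg _)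
        have := geo n a
        linarith
    _ = _ := by ring

open Classical in
/-- the same with a simple bound -/
theorem opt_all' (a : ℕ) :
    (#(univ.filter (fun σ : Equiv.Perm {x // x ∈ K} =>
      160 * (optAny K.sort (relab σ X) : ℝ) + (a + 5) * X.length <
        wsum [] (X.map Subtype.val))) : ℝ) ≤ (1 / 2 : ℝ) ^ 2 ^ a * (#K).factorial := by
  have h := opt_all X hX (a + 2)
  have e : (((a + 2 : ℕ) : ℝ) + 3) = (a : ℝ) + 5 := by push_cast; ring
  rw [e] at h
  refine h.trans (mul_le_mul_of_nonneg_right ?_ (Nat.cast_nonneg _))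
  have e2 : (2 : ℕ) ^ (a + 2) = 4 * 2 ^ a := by ring
  rw [e2, pow_mul]
  have h1 : (1 : ℕ) ≤ 2 ^ a := Nat.one_le_two_pow
  obtain ⟨u, hu⟩ : ∃ u, 2 ^ a = u + 1 := ⟨2 ^ a - 1, by omega⟩
  rw [hu, pow_succ, pow_succ (1 / 2 : ℝ)]
  have h2 : ((196608 / 390625 : ℝ) ^ 4) ^ u ≤ (1 / 2 : ℝ) ^ u :=
    pow_le_pow_left₀ (by positivity) (by norm_num) u
  have h3 : 101 / 25 * (196608 / 390625 : ℝ) ^ 4 ≤ 1 / 2 := by norm_num
  have h4 : 0 < (1 / 2 : ℝ) ^ u := by positivity
  have h5 : (0 : ℝ) ≤ ((196608 / 390625 : ℝ) ^ 4) ^ u := by positivity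
  calc 101 / 25 * (((196608 / 390625 : ℝ) ^ 4) ^ u * (196608 / 390625 : ℝ) ^ 4)
      = ((196608 / 390625 : ℝ) ^ 4) ^ u * (101 / 25 * (196608 / 390625 : ℝ) ^ 4) := by ring
    _ ≤ (1 / 2 : ℝ) ^ u * (1 / 2) := by
        refine mul_le_mul h2 h3 (by positivity) (by positivity)

open Classical in
/-- the tail -/
theorem tail_all (a : ℕ) :
    (#(univ.filter (fun σ : Equiv.Perm {x // x ∈ K} => ∃ T : Tr, keys T = K.sort ∧
      (6 * a + 998) * (optAny K.sort (relab σ X) : ℝ) + 8 * ((#K : ℝ) * Real.logb 2 #K) <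
        costSplay T (relab σ X))) : ℝ) ≤ (1 / 2 : ℝ) ^ 2 ^ a * (#K).factorial := by
  refine le_trans (Nat.cast_le.2 (card_le_card ?_)) (opt_all' X hX a)
  intro σ hσ
  rw [mem_filter] at hσ ⊢
  obtain ⟨-, T, hT, h1⟩ := hσ
  refine ⟨mem_univ _, ?_⟩
  by_contra hcon
  push Not at hcon
  have h2 := splay_le X hX σ hT
  rw [lam_mul X hX] at h2
  have h3 := len_le X σ
  have h4 : (0 : ℝ) ≤ a := Nat.cast_nonneg a
  have h5 : ((a : ℝ) + 5) * X.length ≤ (a + 5) * (optAny K.sort (relab σ X) : ℝ) :=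
    mul_le_mul_of_nonneg_left h3 (by linarith)
  linarith

open Classical in
/-- constant ratio -/
theorem const_all (a : ℕ) {ε : ℝ} (hε : 0 < ε)
    (ha : (a + 5) * (X.length : ℝ) ≤ (1 - ε) * wsum [] (X.map Subtype.val)) :
    (#(univ.filter (fun σ : Equiv.Perm {x // x ∈ K} => ∃ T : Tr, keys T = K.sort ∧
      (8 + 960 / ε) * (optAny K.sort (relab σ X) : ℝ) + 8 * ((#K : ℝ) * Real.logb 2 #K) <
        costSplay T (relab σ X))) : ℝ) ≤ (1 / 2 : ℝ) ^ 2 ^ a * (#K).factorial := by
  refine le_trans (Nat.cast_le.2 (card_le_card ?_)) (opt_all' X hX a)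
  intro σ hσ
  rw [mem_filter] at hσ ⊢
  obtain ⟨-, T, hT, h1⟩ := hσ
  refine ⟨mem_univ _, ?_⟩
  by_contra hcon
  push Not at hcon
  have h2 := splay_le X hX σ hT
  rw [lam_mul X hX] at h2
  have h3 := len_le X σ
  have h4 : ε * wsum [] (X.map Subtype.val) ≤ 160 * (optAny K.sort (relab σ X) : ℝ) := by
    linarith
  have h5 : wsum [] (X.map Subtype.val) ≤ 160 / ε * (optAny K.sort (relab σ X) : ℝ) := by
    rw [div_mul_eq_mul_div, le_div_iff₀ hε]
    linarith
  have h6 : (960 : ℝ) / ε = 6 * (160 / ε) := by ring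
  rw [h6] at h1
  linarith

end

end Pool.Agent.K3h49.SR
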