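import Pool.Agent.K3h49.SR.Main

set_option autoImplicit false

/-! Changes in both directions, level by level. -/

namespace Pool.Agent.K3h49.SR

open Finset Pool.Agent.H581R2.Splay Pool.Agent.TH49.Spl Pool.Agent.Y395.SP

/-- the most recent request in `[l, r)` was in `[m, r)` -/
def flr (g : List ℕ) (l m r : ℕ) : Bool :=
  (g.find? fun y => decide (l ≤ y ∧ y < r)).any fun y => decide (m ≤ y)

/-- a change from left to right -/
def cR (g : List ℕ) (x l m r : ℕ) : ℕ := if m ≤ x ∧ x < r ∧ fl g l m r = true then 1 else 0

/-- a change from right to left -/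
def cL (g : List ℕ) (x l m r : ℕ) : ℕ := if l ≤ x ∧ x < m ∧ flr g l m r = true then 1 else 0

/-- the number of changes from right to left -/
def JL (g : List ℕ) (x : ℕ) : AS → ℕ → ℕ → ℕ
  | AS.leaf, _, _ => 0
  | AS.node m _ _ A C, l, r => cL g x l m r + JL g x A l m + JL g x C m r

/-- the number of changes in both directions at the level `d` -/
def Jd (g : List ℕ) (x : ℕ) : ℕ → AS → ℕ → ℕ → ℕ
  | _, AS.leaf, _, _ => 0
  | 0, AS.node m _ _ _ _, l, r => cR g x l m r + cL g x l m r
  | d + 1, AS.node m _ _ A C, l, r => Jd g x d A l m + Jd g x d C m r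

theorem Jd_le (g : List ℕ) (x : ℕ) : ∀ (D : ℕ) (s : AS) (l r : ℕ),
    ∑ d ∈ range D, Jd g x d s l r ≤ J g x s l r + JL g x s l r := by
  intro D
  induction D with
  | zero => intro s l r; simp
  | succ D ih =>
    intro s l r
    cases s with
    | leaf =>
      rw [sum_eq_zero]
      · exact Nat.zero_le _
      · intro d _; cases d <;> rfl
    | node m b p A C =>
      rw [sum_range_succ']
      simp only [Jd, sum_add_distrib, J, JL, cR]
      have h1 := ih A l m
      have h2 := ih C m r
      omega

theorem flr_cons (x : ℕ) (g : List ℕ) (l m r : ℕ) :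
    flr (x :: g) l m r = if l ≤ x ∧ x < r then decide (m ≤ x) else flr g l m r := by
  unfold flr
  by_cases h : l ≤ x ∧ x < r
  · rw [if_pos h, List.find?_cons_of_pos (by simpa using h)]
    simp
  · rw [if_neg h, List.find?_cons_of_neg (by simpa using h)]

theorem not_both {g : List ℕ} {l m r : ℕ} (h1 : fl g l m r = true) (h2 : flr g l m r = true) :
    False := by
  unfold fl at h1
  unfold flr at h2
  cases e : g.find? (fun y => decide (l ≤ y ∧ y < r)) with
  | none => rw [e] at h1; simp at h1
  | some y =>
    rw [e] at h1 h2
    simp at h1 h2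
    omega

/-- the left part is hit -/
def hL (Y : List ℕ) (l m : ℕ) : Prop := ∃ y ∈ Y, l ≤ y ∧ y < m

open Classical in
/-- the allowance -/
noncomputable def alw (g Y : List ℕ) (l m r : ℕ) : ℝ :=
  if fl g l m r = true then 0 else
    if flr g l m r = true then (if hL Y l m then 1 else 0) else
      (if hL Y l m ∧ hL Y m r then 1 else 0)

theorem alw_nonneg (g Y : List ℕ) (l m r : ℕ) : 0 ≤ alw g Y l m r := by
  unfold alw
  split_ifs <;> simp

theorem node_cnt {l m r : ℕ} (h1 : l ≤ m) (h2 : m ≤ r) (Y : List ℕ) : ∀ g : List ℕ,
    Sm (fun g x => (cL g x l m r : ℝ)) g Y ≤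
      Sm (fun g x => (cR g x l m r : ℝ)) g Y + alw g Y l m r := by
  classical
  induction Y with
  | nil =>
    intro g
    simp only [Sm, alw, hL]
    split_ifs <;> simp
  | cons x Y ih =>
    intro g
    have h := ih (x :: g)
    simp only [Sm]
    have hmono1 : hL Y l m → hL (x :: Y) l m := by
      rintro ⟨y, q1, q2⟩; exact ⟨y, List.mem_cons_of_mem _ q1, q2⟩
    have hmono2 : hL Y m r → hL (x :: Y) m r := by
      rintro ⟨y, q1, q2⟩; exact ⟨y, List.mem_cons_of_mem _ q1, q2⟩
    by_cases c1 : l ≤ x ∧ x < m
    · -- to the left
      have e1 : fl (x :: g) l m r = true := by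
        rw [fl_cons, if_pos (by omega)]; simp [c1.2]
      have e2 : alw (x :: g) Y l m r = 0 := by unfold alw; rw [if_pos e1]
      have e3 : cR g x l m r = 0 := by unfold cR; rw [if_neg (by omega)]
      have e4 : hL (x :: Y) l m := ⟨x, List.mem_cons_self, c1⟩
      rw [e2] at h
      rw [e3]
      have e5 : (cL g x l m r : ℝ) ≤ alw g (x :: Y) l m r := by
        unfold cL alw
        by_cases f : flr g l m r = true
        · have nf : ¬ fl g l m r = true := fun q => not_both q f
          rw [if_pos ⟨c1.1, c1.2, f⟩, if_neg nf, if_pos f, if_pos e4]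
          simp
        · rw [if_neg (fun q => f q.2.2)]
          split_ifs <;> simp
      push_cast
      linarith
    · by_cases c2 : m ≤ x ∧ x < r
      · -- to the right
        have e0 : ¬ fl (x :: g) l m r = true := by
          rw [fl_cons, if_pos (by omega)]
          simp
          omega
        have e1 : flr (x :: g) l m r = true := by
          rw [flr_cons, if_pos (by omega)]; simp [c2.1]
        have e3 : cL g x l m r = 0 := by unfold cL; rw [if_neg (by omega)]
        have e4 : hL (x :: Y) m r := ⟨x, List.mem_cons_self, c2⟩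
        rw [e3]
        have e5 : alw (x :: g) Y l m r ≤ cR g x l m r + alw g (x :: Y) l m r := by
          have eA : alw (x :: g) Y l m r = if hL Y l m then 1 else 0 := by
            unfold alw; rw [if_neg e0, if_pos e1]
          rw [eA]
          by_cases f : fl g l m r = true
          · have eB : cR g x l m r = 1 := by unfold cR; rw [if_pos ⟨c2.1, c2.2, f⟩]
            have eC : alw g (x :: Y) l m r = 0 := by unfold alw; rw [if_pos f]
            rw [eB, eC]
            split_ifs <;> simp
          · have h0 : (0 : ℝ) ≤ cR g x l m r := Nat.cast_nonneg _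
            by_cases k : hL Y l m
            · have k' := hmono1 k
              have eC : alw g (x :: Y) l m r = 1 := by
                unfold alw
                rw [if_neg f]
                by_cases f' : flr g l m r = true
                · rw [if_pos f', if_pos k']
                · rw [if_neg f', if_pos ⟨k', e4⟩]
              rw [if_pos k, eC]
              linarith
            · rw [if_neg k]
              have := alw_nonneg g (x :: Y) l m r
              linarith
        push_cast
        linarith
      · -- outside
        have c3 : ¬ (l ≤ x ∧ x < r) := by omega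
        have e1 : fl (x :: g) l m r = fl g l m r := by rw [fl_cons, if_neg c3]
        have e2 : flr (x :: g) l m r = flr g l m r := by rw [flr_cons, if_neg c3]
        have e3 : cL g x l m r = 0 := by unfold cL; rw [if_neg (by omega)]
        have e4 : cR g x l m r = 0 := by unfold cR; rw [if_neg (by omega)]
        have e5 : alw (x :: g) Y l m r ≤ alw g (x :: Y) l m r := by
          unfold alw
          rw [e1, e2]
          by_cases f : fl g l m r = true
          · rw [if_pos f, if_pos f]
          · rw [if_neg f, if_neg f]
            by_cases f' : flr g l m r = true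
            · rw [if_pos f', if_pos f']
              by_cases k : hL Y l m
              · rw [if_pos k, if_pos (hmono1 k)]
              · rw [if_neg k]
                split_ifs <;> simp
            · rw [if_neg f', if_neg f']
              by_cases k : hL Y l m ∧ hL Y m r
              · rw [if_pos k, if_pos ⟨hmono1 k.1, hmono2 k.2⟩]
              · rw [if_neg k]
                split_ifs <;> simp
        rw [e3, e4]
        push_cast
        linarith

open Classical in
/-- the number of nodes with requests on both sides -/
noncomputable def br (Y : List ℕ) : AS → ℕ → ℕ → ℕ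
  | AS.leaf, _, _ => 0
  | AS.node m _ _ A C, l, r => (if hL Y l m ∧ hL Y m r then 1 else 0) + br Y A l m + br Y C m r

theorem br_le (Y : List ℕ) : ∀ (s : AS) (l r : ℕ), ok s l r →
    (¬ hL Y l r → br Y s l r = 0) ∧
    (hL Y l r → br Y s l r + 1 ≤ #(Y.toFinset.filter fun y => l ≤ y ∧ y < r)) := by
  intro s
  induction s with
  | leaf =>
    intro l r _
    refine ⟨fun _ => rfl, ?_⟩
    rintro ⟨y, q1, q2⟩
    simp only [br, zero_add]
    refine card_pos.2 ⟨y, ?_⟩
    rw [mem_filter, List.mem_toFinset]
    exact ⟨q1, q2⟩
  | node m b p A C ihA ihC =>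
    intro l r h
    obtain ⟨h1, h2, h3, h4⟩ := h
    obtain ⟨a1, a2⟩ := ihA l m h3
    obtain ⟨c1, c2⟩ := ihC m r h4
    have hcard : #(Y.toFinset.filter fun y => l ≤ y ∧ y < m) +
        #(Y.toFinset.filter fun y => m ≤ y ∧ y < r) ≤
        #(Y.toFinset.filter fun y => l ≤ y ∧ y < r) := by
      rw [← card_union_of_disjoint]
      · refine card_le_card ?_
        intro y
        rw [mem_union, mem_filter, mem_filter, mem_filter]
        rintro (⟨q1, q2⟩ | ⟨q1, q2⟩)
        · exact ⟨q1, by omega⟩
        · exact ⟨q1, by omega⟩
      · rw [disjoint_left]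
        intro y
        rw [mem_filter, mem_filter]
        rintro ⟨_, q⟩ ⟨_, q'⟩
        omega
    constructor
    · intro hn
      have n1 : ¬ hL Y l m := fun ⟨y, q1, q2⟩ => hn ⟨y, q1, by omega⟩
      have n2 : ¬ hL Y m r := fun ⟨y, q1, q2⟩ => hn ⟨y, q1, by omega⟩
      simp only [br]
      rw [if_neg (fun q => n1 q.1), a1 n1, c1 n2]
    · rintro ⟨y, q1, q2⟩
      simp only [br]
      by_cases k1 : hL Y l m
      · have := a2 k1
        by_cases k2 : hL Y m r
        · have := c2 k2
          rw [if_pos ⟨k1, k2⟩]
          omega
        · rw [if_neg (fun q => k2 q.2), c1 k2]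
          omega
      · rw [if_neg (fun q => k1 q.1), a1 k1]
        have k2 : hL Y m r := by
          refine ⟨y, q1, ?_⟩
          by_contra hcon
          exact k1 ⟨y, q1, by omega⟩
        have := c2 k2
        omega

open Classical in
/-- changes from right to left and from left to right -/
theorem JL_le (Y : List ℕ) : ∀ (s : AS) (l r : ℕ), ok s l r →
    Sm (fun g x => (JL g x s l r : ℝ)) [] Y ≤
      Sm (fun g x => (J g x s l r : ℝ)) [] Y + br Y s l r := by
  intro s
  induction s with
  | leaf =>
    intro l r _
    simp only [JL, J, br, Nat.cast_zero, add_zero]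
    exact le_refl _
  | node m b p A C ihA ihC =>
    intro l r h
    obtain ⟨h1, h2, h3, h4⟩ := h
    have hA := ihA l m h3
    have hC := ihC m r h4
    have hN := node_cnt h1 h2 Y []
    have e : alw [] Y l m r ≤ ((if hL Y l m ∧ hL Y m r then 1 else 0 : ℕ) : ℝ) := by
      unfold alw fl flr
      simp
    have e1 : (fun (g : List ℕ) (x : ℕ) => (JL g x (AS.node m b p A C) l r : ℝ)) =
        fun g x => ((cL g x l m r : ℝ) + (JL g x A l m : ℝ)) + (JL g x C m r : ℝ) := by
      funext g x
      simp only [JL]
      push_cast
      ring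
    have e2 : (fun (g : List ℕ) (x : ℕ) => (J g x (AS.node m b p A C) l r : ℝ)) =
        fun g x => ((cR g x l m r : ℝ) + (J g x A l m : ℝ)) + (J g x C m r : ℝ) := by
      funext g x
      simp only [J, cR]
      push_cast
      ring
    rw [e1, e2, Sm_add, Sm_add, Sm_add, Sm_add]
    simp only [br]
    push_cast at e ⊢
    linarith

theorem Sm_len_le (Y : List ℕ) {s : AS} {l r : ℕ} (h : ok s l r) :
    (br Y s l r : ℝ) ≤ Y.length := by
  obtain ⟨h1, h2⟩ := br_le Y s l r h
  by_cases k : hL Y l r
  · have := h2 k
    have h3 : #(Y.toFinset.filter fun y => l ≤ y ∧ y < r) ≤ Y.length :=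
      (card_filter_le _ _).trans (List.toFinset_card_le _)
    have : br Y s l r ≤ Y.length := by omega
    exact_mod_cast this
  · rw [h1 k]
    simp

end Pool.Agent.K3h49.SR
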