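import Mathlib

set_option autoImplicit false

/-! Relabelled requests. -/

namespace Pool.Agent.K3h49.SR

/-- the requests after the relabelling `σ` of the keys -/
def relab {K : Finset ℕ} (σ : Equiv.Perm {x // x ∈ K}) (X : List {x // x ∈ K}) : List ℕ :=
  X.map fun x => ((σ x : {x // x ∈ K}) : ℕ)

end Pool.Agent.K3h49.SR
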