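import Pool.Agent.K3h49.SR.All
import Pool.Agent.K3h49.SR.Rel
import Pool.Agent.Y395.SP.Asm
import Pool.Agent.Y395.SP.Fin

set_option autoImplicit false

/-! Almost all relabellings of a request sequence: the theorem. -/

namespace Pool.Agent.K3h49.SR

open Finset Pool.Agent.H581R2.Splay Pool.Agent.TH49.Spl Pool.Agent.Y395.SP

/-- the average over the requests of `log₂ (t + 1)`, `t` the working set number -/
noncomputable def lam {K : Finset ℕ} (X : List {x // x ∈ K}) : ℝ :=
  wsum [] (X.map Subtype.val) / X.length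

/-- a path with given keys -/
def comb : List ℕ → Tr
  | [] => Tr.nil
  | a :: l => Tr.node a Tr.nil (comb l)

theorem keys_comb : ∀ l : List ℕ, keys (comb l) = l := by
  intro l
  induction l with
  | nil => rfl
  | cons a l ih => simp [comb, keys, ih]

section

variable {K : Finset ℕ} (X : List {x // x ∈ K})

theorem relab_mem (σ : Equiv.Perm {x // x ∈ K}) {T : Tr} (hT : keys T = K.sort) :
    ∀ x ∈ relab σ X, x ∈ keys T := by
  intro x hx
  unfold relab at hx
  rw [List.mem_map] at hx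
  obtain ⟨y, _, rfl⟩ := hx
  rw [hT, Finset.mem_sort]
  exact (σ y).2

theorem bst_of {T : Tr} (hT : keys T = K.sort) : IsBST T := by
  unfold IsBST
  rw [hT]
  exact (Finset.sortedLT_sort K).pairwise

theorem wsum_relab (σ : Equiv.Perm {x // x ∈ K}) :
    wsum [] (relab σ X) = wsum [] (X.map Subtype.val) := by
  have h1 := wsum_map (p := fun x : {x // x ∈ K} => ((σ x : {x // x ∈ K}) : ℕ))
    (fun a b e => σ.injective (Subtype.ext e)) X []
  have h2 := wsum_map (p := fun x : {x // x ∈ K} => (x : ℕ)) (fun a b e => Subtype.ext e) X []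
  rw [List.map_nil] at h1 h2
  unfold relab
  rw [h1, ← h2]

theorem len_le (σ : Equiv.Perm {x // x ∈ K}) :
    (X.length : ℝ) ≤ optAny K.sort (relab σ X) := by
  have h := len_optAny (T := comb K.sort) (relab σ X)
  rw [keys_comb] at h
  have e : (relab σ X).length = X.length := by simp [relab]
  rw [e] at h
  exact_mod_cast h

/-- the interleave bound for the relabelled requests -/
theorem low {s : AS} {R : ℕ} (hb : bal (fun x : {x // x ∈ K} => (x : ℕ)) s 0 R)
    (σ : Equiv.Perm {x // x ∈ K}) :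
    Sm (fun h x => (PJ (fun x : {x // x ∈ K} => (x : ℕ)) h x s 0 R σ : ℝ)) [] X ≤
      2 * (optAny K.sort (relab σ X) : ℝ) := by
  have h : Sm (fun h x => (PJ (fun x : {x // x ∈ K} => (x : ℕ)) h x s 0 R σ : ℝ)) [] X / 2 ≤
      (optAny K.sort (relab σ X) : ℝ) := by
    refine optAny_ge (keys_comb K.sort) fun T c hT hE => ?_
    have h1 := tot_le hE (bst_of hT) (relab_mem X σ hT) (bal_ok hb).1 (bal_ok hb).2
    have h2 := tot_eq (pos := fun x : {x // x ∈ K} => (x : ℕ)) s R σ X []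
    rw [List.map_nil] at h2
    rw [← h2]
    have h3 : ((tot s 0 R [] (relab σ X) : ℕ) : ℝ) ≤ 2 * c := by exact_mod_cast h1
    unfold relab at h3
    linarith
  linarith

theorem pow_aux {lam D : ℝ} (h4 : 4 ≤ lam) (hD : lam / 2 - 1 ≤ D) :
    8 * (15 / 16 : ℝ) ^ (D / 4) ≤ 9 * (2 : ℝ) ^ (-lam / 90) := by
  have e1 : (15 / 16 : ℝ) ^ (D / 4) ≤ (15 / 16 : ℝ) ^ ((lam - 2) / 8) :=
    Real.rpow_le_rpow_of_exponent_ge (by norm_num) (by norm_num) (by linarith)
  have e2 : (15 / 16 : ℝ) ≤ (2 : ℝ) ^ (-(8 : ℝ) / 90) := by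
    have h1 : ((15 / 16 : ℝ) ^ (90 : ℕ)) ≤ ((2 : ℝ) ^ (-(8 : ℝ) / 90)) ^ (90 : ℕ) := by
      rw [← Real.rpow_natCast ((2 : ℝ) ^ (-(8 : ℝ) / 90)), ← Real.rpow_mul (by norm_num)]
      have : (-(8 : ℝ) / 90 * ((90 : ℕ) : ℝ)) = -((8 : ℕ) : ℝ) := by push_cast; norm_num
      rw [this, Real.rpow_neg (by norm_num), Real.rpow_natCast]
      norm_num
    exact (pow_le_pow_iff_left₀ (by norm_num) (by positivity) (by norm_num)).1 h1
  have e3 : (15 / 16 : ℝ) ^ ((lam - 2) / 8) ≤ ((2 : ℝ) ^ (-(8 : ℝ) / 90)) ^ ((lam - 2) / 8) :=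
    Real.rpow_le_rpow (by norm_num) e2 (by linarith)
  have e4 : ((2 : ℝ) ^ (-(8 : ℝ) / 90)) ^ ((lam - 2) / 8) =
      (2 : ℝ) ^ ((2 : ℝ) / 90) * (2 : ℝ) ^ (-lam / 90) := by
    rw [← Real.rpow_mul (by norm_num), ← Real.rpow_add (by norm_num)]
    congr 1
    ring
  have e5 : (2 : ℝ) ^ ((2 : ℝ) / 90) ≤ 9 / 8 := by
    have h1 : ((2 : ℝ) ^ ((2 : ℝ) / 90)) ^ (45 : ℕ) ≤ (9 / 8 : ℝ) ^ (45 : ℕ) := by
      rw [← Real.rpow_natCast ((2 : ℝ) ^ ((2 : ℝ) / 90)), ← Real.rpow_mul (by norm_num)]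
      have : ((2 : ℝ) / 90 * ((45 : ℕ) : ℝ)) = 1 := by push_cast; norm_num
      rw [this, Real.rpow_one]
      norm_num
    exact (pow_le_pow_iff_left₀ (by positivity) (by norm_num) (by norm_num)).1 h1
  have e6 : 0 < (2 : ℝ) ^ (-lam / 90) := by positivity
  rw [e4] at e3
  nlinarith

variable (hX : X ≠ [])

include hX

theorem len_pos : (0 : ℝ) < X.length := by
  have := List.length_pos_iff.2 hX
  exact_mod_cast this

theorem lam_mul : lam X * X.length = wsum [] (X.map Subtype.val) :=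
  div_mul_cancel₀ _ (len_pos X hX).ne'

open Classical in
/-- the optimum is large for almost all relabellings -/
theorem opt_large :
    (#(univ.filter (fun σ : Equiv.Perm {x // x ∈ K} =>
      256 * (optAny K.sort (relab σ X) : ℝ) < lam X * X.length)) : ℝ) ≤
      9 * (2 : ℝ) ^ (-lam X / 90) * (#K).factorial := by
  have hm := len_pos X hX
  by_cases h4 : lam X < 4
  · have : univ.filter (fun σ : Equiv.Perm {x // x ∈ K} =>
      256 * (optAny K.sort (relab σ X) : ℝ) < lam X * X.length) = ∅ := by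
      rw [filter_eq_empty_iff]
      intro σ _ hσ
      have := len_le X σ
      nlinarith
    rw [this, card_empty, Nat.cast_zero]
    positivity
  push Not at h4
  set pos : {x // x ∈ K} → ℕ := fun x => (x : ℕ) with hpos
  have hinj : Function.Injective pos := fun a b e => Subtype.ext e
  obtain ⟨R, hR⟩ : ∃ R : ℕ, ∀ k : {x // x ∈ K}, pos k < R :=
    ⟨K.sup id + 1, fun k => Nat.lt_succ_of_le (Finset.le_sup (f := id) k.2)⟩
  obtain ⟨s, hb⟩ := exists_bal hinj _ 0 R (Nat.zero_le _) (le_refl _)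
  set 𝒟 := Sm (fun h x => (Dk (κ := {x // x ∈ K}) h x : ℝ)) [] X with hD
  have hW : wsum [] (X.map Subtype.val) ≤ 2 * 𝒟 + 2 * X.length := by
    have h1 := wsum_map hinj X []
    rw [List.map_nil] at h1
    have h2 := Sm_le (fun h x => log_le (κ := {x // x ∈ K}) h x) X []
    rw [Sm_add, Sm_mul, Sm_const] at h2
    rw [← h1] at h2
    exact h2
  rw [← lam_mul X hX] at hW
  have hD1 : lam X / 2 - 1 ≤ 𝒟 / X.length := by
    rw [le_div_iff₀ hm]
    linarith
  have hD2 : lam X * X.length / 4 ≤ 𝒟 := by nlinarith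
  have hD0 : 0 < 𝒟 := by
    have : 0 < lam X * X.length / 4 := by positivity
    linarith
  have h1 := all_bad (pos := pos) hR hb X hD0
  rw [Fintype.card_coe] at h1
  refine le_trans ?_ (h1.trans ?_)
  · refine Nat.cast_le.2 (card_le_card ?_)
    intro σ hσ
    rw [mem_filter] at hσ ⊢
    refine ⟨mem_univ _, ?_⟩
    have h2 := low X hb σ
    rw [← hD]
    linarith [hσ.2]
  · exact mul_le_mul_of_nonneg_right (pow_aux h4 hD1) (Nat.cast_nonneg _)

theorem splay_le (σ : Equiv.Perm {x // x ∈ K}) {T : Tr} (hT : keys T = K.sort) :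
    (costSplay T (relab σ X) : ℝ) ≤ 8 * X.length + 6 * (lam X * X.length) +
      8 * ((#K : ℝ) * Real.logb 2 #K) := by
  have hne : T ≠ Tr.nil := by
    rintro rfl
    obtain ⟨x, hx⟩ := List.exists_mem_of_ne_nil X hX
    have : (x : ℕ) ∈ keys Tr.nil := by rw [hT, Finset.mem_sort]; exact x.2
    simp [keys] at this
  have h := ws_holds T (relab σ X) (bst_of hT) hne (relab_mem X σ hT)
  rw [wsum_relab, hT, Finset.length_sort, ← lam_mul X hX] at h
  have e : (relab σ X).length = X.length := by simp [relab]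
  rw [e] at h
  exact h

open Classical in
/-- almost all relabellings are good -/
theorem main1 :
    (#(univ.filter (fun σ : Equiv.Perm {x // x ∈ K} => ∃ T : Tr, keys T = K.sort ∧
      1544 * (optAny K.sort (relab σ X) : ℝ) + 8 * ((#K : ℝ) * Real.logb 2 #K) <
        costSplay T (relab σ X))) : ℝ) ≤
      9 * (2 : ℝ) ^ (-lam X / 90) * (#K).factorial := by
  refine le_trans (Nat.cast_le.2 (card_le_card ?_)) (opt_large X hX)
  intro σ hσ
  rw [mem_filter] at hσ ⊢
  obtain ⟨-, T, hT, h1⟩ := hσ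
  refine ⟨mem_univ _, ?_⟩
  by_contra hcon
  push Not at hcon
  have h2 := splay_le X hX σ hT
  have h3 := len_le X σ
  linarith

open Classical in
/-- the tail -/
theorem main2 (t : ℝ) :
    (#(univ.filter (fun σ : Equiv.Perm {x // x ∈ K} => ∃ T : Tr, keys T = K.sort ∧
      t * (optAny K.sort (relab σ X) : ℝ) + 8 * ((#K : ℝ) * Real.logb 2 #K) <
        costSplay T (relab σ X))) : ℝ) ≤
      10 * (2 : ℝ) ^ (-t / 540) * (#K).factorial := by
  have hm := len_pos X hX
  have hfac : (0 : ℝ) ≤ (#K).factorial := Nat.cast_nonneg _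
  by_cases ht : t < 1544
  · have h1 : (1 : ℝ) ≤ 10 * (2 : ℝ) ^ (-t / 540) := by
      have : (2 : ℝ) ^ (-(3 : ℝ)) ≤ (2 : ℝ) ^ (-t / 540) :=
        Real.rpow_le_rpow_of_exponent_le (by norm_num) (by linarith)
      have e : (2 : ℝ) ^ (-(3 : ℝ)) = 1 / 8 := by
        rw [Real.rpow_neg (by norm_num)]
        norm_num
      rw [e] at this
      linarith
    have h2 : (#(univ.filter (fun σ : Equiv.Perm {x // x ∈ K} => ∃ T : Tr, keys T = K.sort ∧
        t * (optAny K.sort (relab σ X) : ℝ) + 8 * ((#K : ℝ) * Real.logb 2 #K) <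
          costSplay T (relab σ X))) : ℝ) ≤ (#K).factorial := by
      have := card_le_univ (univ.filter (fun σ : Equiv.Perm {x // x ∈ K} => ∃ T : Tr,
        keys T = K.sort ∧ t * (optAny K.sort (relab σ X) : ℝ) +
          8 * ((#K : ℝ) * Real.logb 2 #K) < costSplay T (relab σ X)))
      rw [Fintype.card_perm, Fintype.card_coe] at this
      exact_mod_cast this
    refine h2.trans ?_
    nlinarith
  push Not at ht
  by_cases hl : 8 + 6 * lam X ≤ t
  · have : univ.filter (fun σ : Equiv.Perm {x // x ∈ K} => ∃ T : Tr, keys T = K.sort ∧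
        t * (optAny K.sort (relab σ X) : ℝ) + 8 * ((#K : ℝ) * Real.logb 2 #K) <
          costSplay T (relab σ X)) = ∅ := by
      rw [filter_eq_empty_iff]
      rintro σ _ ⟨T, hT, h1⟩
      have h2 := splay_le X hX σ hT
      have h3 := len_le X σ
      nlinarith
    rw [this, card_empty, Nat.cast_zero]
    positivity
  push Not at hl
  refine le_trans (Nat.cast_le.2 (card_le_card ?_)) ((main1 X hX).trans ?_)
  · intro σ hσ
    rw [mem_filter] at hσ ⊢
    obtain ⟨-, T, hT, h1⟩ := hσ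
    refine ⟨mem_univ _, T, hT, lt_of_le_of_lt ?_ h1⟩
    have h3 := len_le X σ
    nlinarith
  · refine mul_le_mul_of_nonneg_right ?_ hfac
    have h1 : (2 : ℝ) ^ (-lam X / 90) ≤ (2 : ℝ) ^ ((8 : ℝ) / 540) * (2 : ℝ) ^ (-t / 540) := by
      rw [← Real.rpow_add (by norm_num)]
      exact Real.rpow_le_rpow_of_exponent_le (by norm_num) (by linarith)
    have h2 : (2 : ℝ) ^ ((8 : ℝ) / 540) ≤ 10 / 9 := by
      have h1 : ((2 : ℝ) ^ ((8 : ℝ) / 540)) ^ (135 : ℕ) ≤ (10 / 9 : ℝ) ^ (135 : ℕ) := by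
        rw [← Real.rpow_natCast ((2 : ℝ) ^ ((8 : ℝ) / 540)), ← Real.rpow_mul (by norm_num)]
        have : ((8 : ℝ) / 540 * ((135 : ℕ) : ℝ)) = ((2 : ℕ) : ℝ) := by push_cast; norm_num
        rw [this, Real.rpow_natCast]
        norm_num
      exact (pow_le_pow_iff_left₀ (by positivity) (by norm_num) (by norm_num)).1 h1
    have h3 : 0 < (2 : ℝ) ^ (-t / 540) := by positivity
    nlinarith

end

end Pool.Agent.K3h49.SR
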