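import Pool.Agent.K3h49.SR.Few2

set_option autoImplicit false

/-! Multiplication modulo a prime. -/

namespace Pool.Agent.K3h49.SR

open Finset Pool.Agent.H581R2.Splay Pool.Agent.TH49.Spl Pool.Agent.Y395.SP

variable {p : ℕ} [Fact p.Prime]

theorem mul_inj (a : (ZMod p)ˣ) :
    Function.Injective (fun x : ZMod p => ((a : ZMod p) * x).val) := by
  intro x y h
  exact a.isUnit.mul_left_cancel (ZMod.val_injective p h)

theorem mul_spread : Spread (fun (a : (ZMod p)ˣ) (x : ZMod p) => ((a : ZMod p) * x).val) 2 p := by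
  classical
  intro x y hxy t ht
  set F := univ.filter fun a : (ZMod p)ˣ => ((a : ZMod p) * x).val ≤ ((a : ZMod p) * y).val + t ∧
      ((a : ZMod p) * y).val ≤ ((a : ZMod p) * x).val + t with hF
  have hp := (Fact.out : p.Prime)
  have hcard : (Fintype.card (ZMod p)ˣ : ℝ) = (p : ℝ) - 1 := by
    rw [ZMod.card_units_eq_totient, Nat.totient_prime hp, Nat.cast_sub hp.one_le, Nat.cast_one]
  have h1 : #F ≤ 2 * t := by
    have h2 : #((Finset.Icc (-(t : ℤ)) t).erase 0) = 2 * t := by
      rw [card_erase_of_mem (by rw [mem_Icc]; omega), Int.card_Icc]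
      omega
    rw [← h2]
    refine card_le_card_of_injOn
      (fun a => ((((a : ZMod p) * x).val : ℤ) - (((a : ZMod p) * y).val : ℤ))) ?_ ?_
    · intro a ha
      rw [mem_coe, hF, mem_filter] at ha
      rw [mem_coe, mem_erase, mem_Icc]
      dsimp only
      refine ⟨?_, by omega, by omega⟩
      intro h0
      have : ((a : ZMod p) * x).val = ((a : ZMod p) * y).val := by omega
      exact hxy (mul_inj a this)
    · intro a _ a' _ e
      dsimp only at e
      have key : ∀ z : ZMod p, ((z.val : ℤ) : ZMod p) = z := by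
        intro z
        rw [Int.cast_natCast, ZMod.natCast_zmod_val]
      have e1 := congrArg (fun z : ℤ => (z : ZMod p)) e
      rw [Int.cast_sub, Int.cast_sub, key, key, key, key, ← mul_sub, ← mul_sub] at e1
      have hne : x - y ≠ 0 := sub_ne_zero.2 hxy
      exact Units.ext (mul_right_cancel₀ hne e1)
  have h2 : (#F : ℝ) ≤ 2 * t := by exact_mod_cast h1
  rw [hcard]
  have h3 : (0 : ℝ) ≤ (p : ℝ) - 1 := by
    have : (1 : ℝ) ≤ p := by exact_mod_cast hp.one_le
    linarith
  exact mul_le_mul_of_nonneg_right h2 h3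

end Pool.Agent.K3h49.SR
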