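import Pool.Agent.K3h49.SR.Val

set_option autoImplicit false

/-! The number of changes completed by a request, for a random relabelling of the keys. -/

namespace Pool.Agent.K3h49.SR

open Finset Pool.Agent.TH49.Spl

section

variable {κ : Type} [Fintype κ] [DecidableEq κ] (pos : κ → ℕ)

/-- the positions in `[l, r)` -/
def S0 (l r : ℕ) : Finset κ := univ.filter fun k => l ≤ pos k ∧ pos k < r

/-- permutations which move positions in `[l, r)` only -/
def Sup (l r : ℕ) (τ : Equiv.Perm κ) : Prop := ∀ k, ¬ (l ≤ pos k ∧ pos k < r) → τ k = k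

/-- a balanced scheme without flags -/
def bal : AS → ℕ → ℕ → Prop
  | AS.leaf, l, r => #(S0 pos l r) ≤ 1
  | AS.node m b p A C, l, r => b = false ∧ p = false ∧ l ≤ m ∧ m ≤ r ∧
      #(S0 pos l m) = #(S0 pos l r) / 2 ∧ bal A l m ∧ bal C m r

variable {pos}

theorem mem_S0 {l r : ℕ} {k : κ} : k ∈ S0 pos l r ↔ l ≤ pos k ∧ pos k < r := by
  simp [S0]

theorem Sup.mem {l r : ℕ} {τ : Equiv.Perm κ} (h : Sup pos l r τ) (k : κ) :
    (l ≤ pos (τ k) ∧ pos (τ k) < r) ↔ (l ≤ pos k ∧ pos k < r) := by
  constructor
  · intro h1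
    by_contra h2
    rw [h k h2] at h1
    exact h2 h1
  · intro h1
    by_contra h2
    have h3 := h (τ k) h2
    have h4 := τ.injective h3
    rw [h4] at h2
    exact h2 h1

theorem Sup.mono {l r l' r' : ℕ} {τ : Equiv.Perm κ} (h : Sup pos l r τ) (h1 : l' ≤ l)
    (h2 : r ≤ r') : Sup pos l' r' τ := fun k hk => h k (by omega)

theorem bal_ok : ∀ {s : AS} {l r : ℕ}, bal pos s l r → ok s l r ∧ cln s := by
  intro s
  induction s with
  | leaf => intro l r _; exact ⟨trivial, trivial⟩
  | node m b p A C ihA ihC =>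
    intro l r h
    obtain ⟨h1, h2, h3, h4, _, h6, h7⟩ := h
    exact ⟨⟨h3, h4, (ihA h6).1, (ihC h7).1⟩, ⟨h1, h2, (ihA h6).2, (ihC h7).2⟩⟩

theorem S0_split {l m r : ℕ} (h1 : l ≤ m) (h2 : m ≤ r) :
    S0 pos l r = S0 pos l m ∪ S0 pos m r ∧ Disjoint (S0 pos l m) (S0 pos m r) := by
  constructor
  · ext k
    rw [mem_union, mem_S0, mem_S0, mem_S0]
    omega
  · rw [disjoint_left]
    intro k
    rw [mem_S0, mem_S0]
    omega

theorem S0_card {l m r : ℕ} (h1 : l ≤ m) (h2 : m ≤ r) :
    #(S0 pos l r) = #(S0 pos l m) + #(S0 pos m r) := by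
  obtain ⟨e, d⟩ := S0_split (pos := pos) h1 h2
  rw [e, card_union_of_disjoint d]

theorem S0_succ (hpos : Function.Injective pos) (l m : ℕ) :
    #(S0 pos l (m + 1)) ≤ #(S0 pos l m) + 1 := by
  have h : S0 pos l (m + 1) ⊆ S0 pos l m ∪ univ.filter (fun k => pos k = m) := by
    intro k
    rw [mem_union, mem_S0, mem_S0, mem_filter]
    intro hk
    by_cases e : pos k = m
    · exact Or.inr ⟨mem_univ k, e⟩
    · left; omega
  refine (card_le_card h).trans ((card_union_le _ _).trans (Nat.add_le_add_left ?_ _))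
  rw [card_le_one]
  intro a ha b hb
  rw [mem_filter] at ha hb
  exact hpos (ha.2.trans hb.2.symm)

/-- a split in the middle -/
theorem exists_mid (hpos : Function.Injective pos) {l r : ℕ} (hlr : l ≤ r) :
    ∃ m, l ≤ m ∧ m ≤ r ∧ #(S0 pos l m) = #(S0 pos l r) / 2 := by
  have h0 : #(S0 pos l l) = 0 := by
    rw [card_eq_zero]
    ext k
    rw [mem_S0]
    simp only [notMem_empty, iff_false]
    omega
  have key : ∀ d : ℕ, ∀ v : ℕ, v ≤ #(S0 pos l (l + d)) → ∃ m, l ≤ m ∧ m ≤ l + d ∧
      #(S0 pos l m) = v := by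
    intro d
    induction d with
    | zero =>
      intro v hv
      rw [Nat.add_zero, h0] at hv
      exact ⟨l, le_refl l, by omega, by rw [h0]; omega⟩
    | succ d ih =>
      intro v hv
      by_cases h : v ≤ #(S0 pos l (l + d))
      · obtain ⟨m, h1, h2, h3⟩ := ih v h
        exact ⟨m, h1, by omega, h3⟩
      · have := S0_succ hpos l (l + d)
        exact ⟨l + d + 1, by omega, by omega, by
          have e : l + (d + 1) = l + d + 1 := by ring
          rw [e] at hv
          omega⟩
  obtain ⟨d, rfl⟩ := Nat.exists_eq_add_of_le hlr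
  exact key d _ (Nat.div_le_self _ _)

/-- balanced schemes exist -/
theorem exists_bal (hpos : Function.Injective pos) : ∀ (n l r : ℕ), l ≤ r →
    #(S0 pos l r) ≤ n → ∃ s : AS, bal pos s l r := by
  intro n
  induction n with
  | zero => intro l r _ h; exact ⟨AS.leaf, by show _ ≤ 1; omega⟩
  | succ n ih =>
    intro l r hlr h
    by_cases h1 : #(S0 pos l r) ≤ 1
    · exact ⟨AS.leaf, h1⟩
    obtain ⟨m, m1, m2, m3⟩ := exists_mid hpos hlr
    have h2 := S0_card (pos := pos) m1 m2
    obtain ⟨A, hA⟩ := ih l m m1 (by omega)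
    obtain ⟨C, hC⟩ := ih m r m2 (by omega)
    exact ⟨AS.node m false false A C, rfl, rfl, m1, m2, m3, hA, hC⟩

variable (pos)
variable (h : List κ) (x : κ)

/-- the most recent key with its position in `[l, r)` -/
def yo (l r : ℕ) (π : Equiv.Perm κ) : Option κ :=
  h.find? fun y => decide (l ≤ pos (π y) ∧ pos (π y) < r)

/-- there is one -/
def Ex (l r : ℕ) (π : Equiv.Perm κ) : Prop := ∃ y ∈ h, l ≤ pos (π y) ∧ pos (π y) < r

/-- the positions of the requested key and of the most recent key in `[l, r)` -/
def gp (l r : ℕ) (π : Equiv.Perm κ) : κ × κ := (π x, π ((yo pos h l r π).getD x))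

/-- the number of changes -/
def PJ (s : AS) (l r : ℕ) (π : Equiv.Perm κ) : ℕ :=
  J (h.map fun y => pos (π y)) (pos (π x)) s l r

/-- on the first `D` levels there is a most recent key -/
def Gd : ℕ → AS → ℕ → ℕ → Equiv.Perm κ → Prop
  | 0, _, _, _, _ => True
  | _ + 1, AS.leaf, _, _, _ => False
  | D + 1, AS.node m _ _ A C, l, r, π => Ex pos h l r π ∧
      (if pos (π x) < m then Gd D A l m π else Gd D C m r π)

variable {pos} {h} {x}

theorem yo_inv {l r : ℕ} {τ : Equiv.Perm κ} (hτ : Sup pos l r τ) (π : Equiv.Perm κ) :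
    yo pos h l r (τ * π) = yo pos h l r π := by
  unfold yo
  congr 1
  funext y
  have := hτ.mem (π y)
  simp only [Equiv.Perm.mul_apply]
  exact decide_eq_decide.2 this

theorem Ex_inv {l r : ℕ} {τ : Equiv.Perm κ} (hτ : Sup pos l r τ) (π : Equiv.Perm κ) :
    Ex pos h l r (τ * π) ↔ Ex pos h l r π := by
  unfold Ex
  simp only [Equiv.Perm.mul_apply, hτ.mem]

theorem gp_inv {l r : ℕ} {τ : Equiv.Perm κ} (hτ : Sup pos l r τ) (π : Equiv.Perm κ) :
    gp pos h x l r (τ * π) = (τ (gp pos h x l r π).1, τ (gp pos h x l r π).2) := by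
  unfold gp
  rw [yo_inv hτ]
  rfl

theorem yo_some {l r : ℕ} {π : Equiv.Perm κ} {y : κ} (e : yo pos h l r π = some y) :
    y ∈ h ∧ l ≤ pos (π y) ∧ pos (π y) < r := by
  unfold yo at e
  have h1 := List.mem_of_find?_eq_some e
  have h2 := List.find?_some e
  exact ⟨h1, by simpa using h2⟩

theorem yo_none {l r : ℕ} {π : Equiv.Perm κ} (e : yo pos h l r π = none) :
    ¬ Ex pos h l r π := by
  unfold yo at e
  rw [List.find?_eq_none] at e
  rintro ⟨y, h1, h2⟩
  exact e y h1 (by simpa using h2)

/-- the positions are different if and only if there is a most recent key -/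
theorem gp_off (hx : x ∉ h) {l r : ℕ} {π : Equiv.Perm κ} (hπ : π x ∈ S0 pos l r) :
    Ex pos h l r π ↔ gp pos h x l r π ∈ (S0 pos l r).offDiag := by
  rw [mem_offDiag]
  unfold gp
  cases e : yo pos h l r π with
  | none =>
    have := yo_none e
    simp [this]
  | some y =>
    obtain ⟨h1, h2⟩ := yo_some e
    have h3 : y ≠ x := fun hh => hx (hh ▸ h1)
    simp only [Option.getD_some]
    constructor
    · intro _
      exact ⟨hπ, mem_S0.2 h2, fun hh => h3 (π.injective hh).symm⟩
    · intro _
      exact ⟨y, h1, h2⟩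

theorem fl_eq {l m r : ℕ} (π : Equiv.Perm κ) :
    fl (h.map fun y => pos (π y)) l m r =
      ((yo pos h l r π).any fun y => decide (pos (π y) < m)) := by
  unfold fl yo
  rw [List.find?_map]
  simp only [Option.any_map]
  rfl

/-- the flag is up if and only if the second position is in the left part -/
theorem gp_flag {l m r : ℕ} (hlm : l ≤ m) {π : Equiv.Perm κ} (hπ : π x ∈ S0 pos m r) :
    fl (h.map fun y => pos (π y)) l m r = true ↔
      gp pos h x l r π ∈ S0 pos m r ×ˢ S0 pos l m := by
  rw [fl_eq, mem_product]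
  unfold gp
  rw [mem_S0] at hπ
  cases e : yo pos h l r π with
  | none =>
    simp only [Option.any_none, Option.getD_none, mem_S0]
    constructor
    · intro hh; simp at hh
    · intro hh; omega
  | some y =>
    obtain ⟨h1, h2, h3⟩ := yo_some e
    simp only [Option.any_some, Option.getD_some, mem_S0, decide_eq_true_eq]
    constructor
    · intro hh; exact ⟨hπ, h2, hh⟩
    · intro hh; exact hh.2.2

/-- two pairs of different positions are related by a permutation -/
theorem exists_tau {l r : ℕ} {a b a' b' : κ} (ha : a ∈ S0 pos l r) (hb : b ∈ S0 pos l r)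
    (ha' : a' ∈ S0 pos l r) (hb' : b' ∈ S0 pos l r) (h1 : a ≠ b) (h2 : a' ≠ b') :
    ∃ τ : Equiv.Perm κ, Sup pos l r τ ∧ τ a = a' ∧ τ b = b' := by
  have hs : ∀ u v : κ, u ∈ S0 pos l r → v ∈ S0 pos l r → Sup pos l r (Equiv.swap u v) := by
    intro u v hu hv k hk
    rw [mem_S0] at hu hv
    exact Equiv.swap_apply_of_ne_of_ne (fun e => hk (e ▸ hu)) (fun e => hk (e ▸ hv))
  have t1 := hs a a' ha ha'
  set b1 := Equiv.swap a a' b with hb1
  have hb1' : b1 ∈ S0 pos l r := by
    rw [mem_S0]; exact (t1.mem b).2 (mem_S0.1 hb)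
  have hne : b1 ≠ a' := by
    rw [hb1]
    intro e
    have : Equiv.swap a a' b = Equiv.swap a a' a := by rw [e, Equiv.swap_apply_left]
    exact h1 ((Equiv.swap a a').injective this).symm
  have t2 := hs b1 b' hb1' hb'
  refine ⟨Equiv.swap b1 b' * Equiv.swap a a', ?_, ?_, ?_⟩
  · intro k hk
    rw [Equiv.Perm.mul_apply, t1 k hk, t2 k hk]
  · rw [Equiv.Perm.mul_apply, Equiv.swap_apply_left]
    exact Equiv.swap_apply_of_ne_of_ne hne.symm h2
  · rw [Equiv.Perm.mul_apply, ← hb1, Equiv.swap_apply_left]

/-- the joint law of the two positions is uniform -/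
theorem law {l r : ℕ} {F : Equiv.Perm κ → ℝ}
    (hF : ∀ τ, Sup pos l r τ → ∀ π, F (τ * π) = F π) {a b a' b' : κ}
    (ha : a ∈ S0 pos l r) (hb : b ∈ S0 pos l r) (ha' : a' ∈ S0 pos l r) (hb' : b' ∈ S0 pos l r)
    (h1 : a ≠ b) (h2 : a' ≠ b') :
    ∑ π ∈ univ.filter (fun π : Equiv.Perm κ => gp pos h x l r π = (a, b)), F π =
      ∑ π ∈ univ.filter (fun π : Equiv.Perm κ => gp pos h x l r π = (a', b')), F π := by
  obtain ⟨τ, t1, t2, t3⟩ := exists_tau (pos := pos) ha hb ha' hb' h1 h2
  refine sum_bij (fun π _ => τ * π) ?_ ?_ ?_ ?_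
  · intro π hπ
    rw [mem_filter] at hπ ⊢
    refine ⟨mem_univ _, ?_⟩
    rw [gp_inv t1, hπ.2, t2, t3]
  · intro π _ π' _ e
    exact mul_left_cancel e
  · intro π hπ
    rw [mem_filter] at hπ
    refine ⟨τ⁻¹ * π, ?_, mul_inv_cancel_left τ π⟩
    rw [mem_filter]
    refine ⟨mem_univ _, ?_⟩
    have e := gp_inv (h := h) (x := x) t1 (τ⁻¹ * π)
    rw [mul_inv_cancel_left, hπ.2, Prod.mk.injEq, ← t2, ← t3] at e
    exact Prod.ext (τ.injective e.1).symm (τ.injective e.2).symm
  · intro π _
    exact (hF τ t1 π).symm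

theorem sum_gp {l r : ℕ} (F : Equiv.Perm κ → ℝ) (P : Finset (κ × κ)) :
    ∑ π ∈ univ.filter (fun π : Equiv.Perm κ => gp pos h x l r π ∈ P), F π =
      ∑ p ∈ P, ∑ π ∈ univ.filter (fun π : Equiv.Perm κ => gp pos h x l r π = p), F π := by
  rw [← sum_fiberwise_of_maps_to (t := P) (g := gp pos h x l r)
    (fun π hπ => (mem_filter.1 hπ).2)]
  refine sum_congr rfl fun p hp => sum_congr ?_ fun _ _ => rfl
  ext π
  rw [mem_filter, mem_filter, mem_filter]
  constructor
  · rintro ⟨_, e⟩; exact ⟨mem_univ _, e⟩
  · rintro ⟨_, e⟩; exact ⟨⟨mem_univ _, e ▸ hp⟩, e⟩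

/-- a change is completed with probability at least one quarter -/
theorem quarter {l m r : ℕ} (h1 : l ≤ m) (h2 : m ≤ r)
    (hm : #(S0 pos l m) = #(S0 pos l r) / 2) {F : Equiv.Perm κ → ℝ} (hF0 : ∀ π, 0 ≤ F π)
    (hF : ∀ τ, Sup pos l r τ → ∀ π, F (τ * π) = F π) :
    ∑ π ∈ univ.filter (fun π : Equiv.Perm κ => gp pos h x l r π ∈ (S0 pos l r).offDiag), F π ≤
      4 * ∑ π ∈ univ.filter
        (fun π : Equiv.Perm κ => gp pos h x l r π ∈ S0 pos m r ×ˢ S0 pos l m), F π := by
  rw [sum_gp, sum_gp]
  have hc := S0_card (pos := pos) h1 h2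
  by_cases hs : #(S0 pos l r) ≤ 1
  · have e : (S0 pos l r).offDiag = ∅ := by
      ext p
      rw [mem_offDiag]
      simp only [notMem_empty, iff_false]
      rintro ⟨a, b, c⟩
      exact c (card_le_one.1 hs _ a _ b)
    rw [e, sum_empty]
    exact mul_nonneg (by norm_num) (sum_nonneg fun p _ => sum_nonneg fun π _ => hF0 π)
  obtain ⟨a, ha, b, hb, hab⟩ := one_lt_card.1 (by omega : 1 < #(S0 pos l r))
  set W : ℝ := ∑ π ∈ univ.filter (fun π : Equiv.Perm κ => gp pos h x l r π = (a, b)), F π with hW
  have hW0 : 0 ≤ W := sum_nonneg fun π _ => hF0 π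
  have e1 : ∀ p ∈ (S0 pos l r).offDiag,
      ∑ π ∈ univ.filter (fun π : Equiv.Perm κ => gp pos h x l r π = p), F π = W := by
    rintro ⟨c, d⟩ hp
    rw [mem_offDiag] at hp
    exact law hF hp.1 hp.2.1 ha hb hp.2.2 hab
  have hsub : S0 pos m r ×ˢ S0 pos l m ⊆ (S0 pos l r).offDiag := by
    rintro ⟨c, d⟩ hp
    rw [mem_product, mem_S0, mem_S0] at hp
    simp only at hp
    rw [mem_offDiag, mem_S0, mem_S0]
    refine ⟨by simp only; omega, by simp only; omega, ?_⟩
    simp only
    rintro rfl
    omega
  rw [sum_congr rfl e1, sum_congr rfl (fun p hp => e1 p (hsub hp)), sum_const, sum_const,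
    card_product, offDiag_card, nsmul_eq_mul, nsmul_eq_mul]
  have h3 : #(S0 pos l r) * #(S0 pos l r) - #(S0 pos l r) ≤
      4 * (#(S0 pos m r) * #(S0 pos l m)) := by
    obtain ⟨c, hc'⟩ : ∃ c, c = #(S0 pos l m) := ⟨_, rfl⟩
    rw [← hc'] at hm hc ⊢
    rcases Nat.even_or_odd' #(S0 pos l r) with ⟨k, hk | hk⟩
    · have e2 : c = k := by omega
      have e3 : #(S0 pos m r) = k := by omega
      rw [e2, e3, hk, Nat.sub_le_iff_le_add]
      nlinarith
    · have e2 : c = k := by omega
      have e3 : #(S0 pos m r) = k + 1 := by omega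
      rw [e2, e3, hk, Nat.sub_le_iff_le_add]
      nlinarith
  have h4 : ((#(S0 pos l r) * #(S0 pos l r) - #(S0 pos l r) : ℕ) : ℝ) ≤
      4 * ((#(S0 pos m r) * #(S0 pos l m) : ℕ) : ℝ) := by exact_mod_cast h3
  nlinarith

open Classical in
/-- the generating function of the number of changes -/
theorem main_rec (hx : x ∉ h) : ∀ (D : ℕ) (s : AS) (l r : ℕ), bal pos s l r →
    2 ^ D ≤ #(S0 pos l r) → ∀ F : Equiv.Perm κ → ℝ, (∀ π, 0 ≤ F π) →
    (∀ τ, Sup pos l r τ → ∀ π, F (τ * π) = F π) →
    ∑ π ∈ univ.filter (fun π : Equiv.Perm κ => π x ∈ S0 pos l r ∧ Gd pos h x D s l r π),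
      F π * (1 / 2 : ℝ) ^ PJ pos h x s l r π ≤
      (7 / 8 : ℝ) ^ D * ∑ π ∈ univ.filter (fun π : Equiv.Perm κ => π x ∈ S0 pos l r), F π := by
  intro D
  induction D with
  | zero =>
    intro s l r _ _ F hF0 _
    rw [pow_zero, one_mul]
    refine (sum_le_sum fun π _ => ?_).trans (sum_le_sum_of_subset_of_nonneg ?_ fun π _ _ => hF0 π)
    · exact mul_le_of_le_one_right (hF0 π) (pow_le_one₀ (by norm_num) (by norm_num))
    · intro π hπ
      rw [mem_filter] at hπ ⊢
      exact ⟨hπ.1, hπ.2.1⟩
  | succ D ih =>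
    intro s l r hb hD F hF0 hF
    have hD1 : 1 ≤ 2 ^ D := Nat.one_le_two_pow
    rw [pow_succ] at hD
    cases s with
    | leaf =>
      have : #(S0 pos l r) ≤ 1 := hb
      omega
    | node m b p A C =>
      obtain ⟨_, _, h1, h2, hm, hA, hC⟩ := hb
      have hc := S0_card (pos := pos) h1 h2
      have iA := ih A l m hA (by omega) (fun π => F π * (if Ex pos h l r π then 1 else 0))
        (fun π => mul_nonneg (hF0 π) (by split_ifs <;> norm_num)) (fun τ hτ π => by
          have hτ' := hτ.mono (le_refl l) h2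
          simp only [hF τ hτ', Ex_inv hτ'])
      have iC := ih C m r hC (by omega) (fun π => F π * (if Ex pos h l r π then 1 else 0) *
          (if fl (h.map fun y => pos (π y)) l m r = true then 1 / 2 else 1))
        (fun π => mul_nonneg (mul_nonneg (hF0 π) (by split_ifs <;> norm_num))
          (by split_ifs <;> norm_num)) (fun τ hτ π => by
          have hτ' := hτ.mono h1 (le_refl r)
          have e3 : fl (h.map fun y => pos ((τ * π) y)) l m r = true ↔
              fl (h.map fun y => pos (π y)) l m r = true := by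
            rw [fl_eq, fl_eq, yo_inv hτ']
            cases e : yo pos h l r π with
            | none => simp
            | some y =>
              obtain ⟨_, q1, q2⟩ := yo_some e
              simp only [Option.any_some, decide_eq_true_eq, Equiv.Perm.mul_apply]
              constructor
              · intro hh
                by_contra hcon
                have := (hτ.mem (π y)).2 ⟨by omega, q2⟩
                omega
              · intro hh
                rw [hτ (π y) (by omega)]
                exact hh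
          simp only [hF τ hτ', Ex_inv hτ', e3])
      -- split the sum
      have hS := S0_split (pos := pos) h1 h2
      have hsplit : univ.filter (fun π : Equiv.Perm κ => π x ∈ S0 pos l r ∧
          Gd pos h x (D + 1) (AS.node m b p A C) l r π) =
          (univ.filter fun π : Equiv.Perm κ => Ex pos h l r π ∧ π x ∈ S0 pos l m ∧
            Gd pos h x D A l m π) ∪
          (univ.filter fun π : Equiv.Perm κ => Ex pos h l r π ∧ π x ∈ S0 pos m r ∧
            Gd pos h x D C m r π) := by
        ext π
        rw [mem_union, mem_filter, mem_filter, mem_filter]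
        simp only [mem_univ, true_and, Gd, mem_S0]
        by_cases c : pos (π x) < m
        · rw [if_pos c]
          constructor
          · rintro ⟨q1, q2, q3⟩; exact Or.inl ⟨q2, ⟨q1.1, c⟩, q3⟩
          · rintro (⟨q1, q2, q3⟩ | ⟨q1, q2, q3⟩)
            · exact ⟨⟨q2.1, by omega⟩, q1, q3⟩
            · omega
        · rw [if_neg c]
          constructor
          · rintro ⟨q1, q2, q3⟩; exact Or.inr ⟨q2, ⟨by omega, q1.2⟩, q3⟩
          · rintro (⟨q1, q2, q3⟩ | ⟨q1, q2, q3⟩)
            · omega
            · exact ⟨⟨by omega, q2.2⟩, q1, q3⟩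
      have hdis : Disjoint (univ.filter fun π : Equiv.Perm κ => Ex pos h l r π ∧
          π x ∈ S0 pos l m ∧ Gd pos h x D A l m π)
          (univ.filter fun π : Equiv.Perm κ => Ex pos h l r π ∧ π x ∈ S0 pos m r ∧
            Gd pos h x D C m r π) := by
        rw [disjoint_left]
        intro π q1 q2
        rw [mem_filter] at q1 q2
        exact disjoint_left.1 hS.2 q1.2.2.1 q2.2.2.1
      rw [hsplit, sum_union hdis]
      -- the two parts
      have pA : ∑ π ∈ univ.filter (fun π : Equiv.Perm κ => Ex pos h l r π ∧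
          π x ∈ S0 pos l m ∧ Gd pos h x D A l m π),
          F π * (1 / 2 : ℝ) ^ PJ pos h x (AS.node m b p A C) l r π ≤
          ∑ π ∈ univ.filter (fun π : Equiv.Perm κ => π x ∈ S0 pos l m ∧ Gd pos h x D A l m π),
            F π * (if Ex pos h l r π then 1 else 0) * (1 / 2 : ℝ) ^ PJ pos h x A l m π := by
        refine le_trans (sum_le_sum (g := fun π => F π * (if Ex pos h l r π then 1 else 0) *
          (1 / 2 : ℝ) ^ PJ pos h x A l m π) ?_) (sum_le_sum_of_subset_of_nonneg ?_ ?_)
        · intro π hπ
          rw [mem_filter] at hπ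
          rw [if_pos hπ.2.1, mul_one]
          refine mul_le_mul_of_nonneg_left ?_ (hF0 π)
          refine pow_le_pow_of_le_one (by norm_num) (by norm_num) ?_
          unfold PJ
          simp only [J]
          omega
        · intro π hπ
          rw [mem_filter] at hπ ⊢
          exact ⟨hπ.1, hπ.2.2⟩
        · intro π _ _
          exact mul_nonneg (mul_nonneg (hF0 π) (by split_ifs <;> norm_num)) (by positivity)
      have pC : ∑ π ∈ univ.filter (fun π : Equiv.Perm κ => Ex pos h l r π ∧
          π x ∈ S0 pos m r ∧ Gd pos h x D C m r π),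
          F π * (1 / 2 : ℝ) ^ PJ pos h x (AS.node m b p A C) l r π ≤
          ∑ π ∈ univ.filter (fun π : Equiv.Perm κ => π x ∈ S0 pos m r ∧ Gd pos h x D C m r π),
            F π * (if Ex pos h l r π then 1 else 0) *
              (if fl (h.map fun y => pos (π y)) l m r = true then 1 / 2 else 1) *
              (1 / 2 : ℝ) ^ PJ pos h x C m r π := by
        refine le_trans (sum_le_sum (g := fun π => F π * (if Ex pos h l r π then 1 else 0) *
          (if fl (h.map fun y => pos (π y)) l m r = true then 1 / 2 else 1) *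
          (1 / 2 : ℝ) ^ PJ pos h x C m r π) ?_) (sum_le_sum_of_subset_of_nonneg ?_ ?_)
        · intro π hπ
          rw [mem_filter] at hπ
          rw [if_pos hπ.2.1, mul_one, mul_assoc]
          refine mul_le_mul_of_nonneg_left ?_ (hF0 π)
          have hxm := mem_S0.1 hπ.2.2.1
          split_ifs with hfl
          · have e : PJ pos h x (AS.node m b p A C) l r π =
                1 + PJ pos h x A l m π + PJ pos h x C m r π := by
              unfold PJ
              simp only [J]
              rw [if_pos ⟨hxm.1, hxm.2, hfl⟩]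
            rw [e, ← pow_succ']
            refine pow_le_pow_of_le_one (by norm_num) (by norm_num) (by omega)
          · rw [one_mul]
            refine pow_le_pow_of_le_one (by norm_num) (by norm_num) ?_
            unfold PJ
            simp only [J]
            omega
        · intro π hπ
          rw [mem_filter] at hπ ⊢
          exact ⟨hπ.1, hπ.2.2⟩
        · intro π _ _
          exact mul_nonneg (mul_nonneg (mul_nonneg (hF0 π) (by split_ifs <;> norm_num))
            (by split_ifs <;> norm_num)) (by positivity)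
      -- collect
      have hp8 : (0 : ℝ) ≤ (7 / 8) ^ D := by positivity
      set E : ℝ := ∑ π ∈ univ.filter (fun π : Equiv.Perm κ =>
        gp pos h x l r π ∈ (S0 pos l r).offDiag), F π with hE
      set Q : ℝ := ∑ π ∈ univ.filter (fun π : Equiv.Perm κ =>
        gp pos h x l r π ∈ S0 pos m r ×ˢ S0 pos l m), F π with hQ
      have hEQ : E ≤ 4 * Q := quarter h1 h2 hm hF0 hF
      have sA : ∑ π ∈ univ.filter (fun π : Equiv.Perm κ => π x ∈ S0 pos l m),
          F π * (if Ex pos h l r π then 1 else 0) +
          ∑ π ∈ univ.filter (fun π : Equiv.Perm κ => π x ∈ S0 pos m r),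
          F π * (if Ex pos h l r π then 1 else 0) = E := by
        rw [← sum_union]
        · have e : univ.filter (fun π : Equiv.Perm κ => π x ∈ S0 pos l m) ∪
              univ.filter (fun π : Equiv.Perm κ => π x ∈ S0 pos m r) =
              univ.filter (fun π : Equiv.Perm κ => π x ∈ S0 pos l r) := by
            ext π
            rw [mem_union, mem_filter, mem_filter, mem_filter, hS.1, mem_union]
            tauto
          rw [e, hE]
          rw [← sum_filter_add_sum_filter_not (univ.filter fun π : Equiv.Perm κ =>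
            π x ∈ S0 pos l r) (fun π => Ex pos h l r π)]
          have z2 : ∑ π ∈ (univ.filter fun π : Equiv.Perm κ => π x ∈ S0 pos l r).filter
              (fun π => ¬ Ex pos h l r π), F π * (if Ex pos h l r π then 1 else 0) = 0 :=
            sum_eq_zero fun π hπ => by
              rw [mem_filter] at hπ
              rw [if_neg hπ.2, mul_zero]
          rw [z2, add_zero]
          refine sum_congr ?_ ?_
          · ext π
            rw [mem_filter, mem_filter, mem_filter]
            constructor
            · rintro ⟨⟨_, q1⟩, q2⟩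
              exact ⟨mem_univ _, (gp_off hx q1).1 q2⟩
            · rintro ⟨_, q1⟩
              have q2 : π x ∈ S0 pos l r := (mem_offDiag.1 q1).1
              exact ⟨⟨mem_univ _, q2⟩, (gp_off hx q2).2 q1⟩
          · intro π hπ
            rw [mem_filter] at hπ
            have q2 : π x ∈ S0 pos l r := (mem_offDiag.1 hπ.2).1
            rw [if_pos ((gp_off hx q2).2 hπ.2), mul_one]
        · rw [disjoint_left]
          intro π q1 q2
          rw [mem_filter] at q1 q2
          exact disjoint_left.1 hS.2 q1.2 q2.2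
      have sC : ∑ π ∈ univ.filter (fun π : Equiv.Perm κ => π x ∈ S0 pos m r),
          F π * (if Ex pos h l r π then 1 else 0) *
            (if fl (h.map fun y => pos (π y)) l m r = true then 1 / 2 else 1) =
          ∑ π ∈ univ.filter (fun π : Equiv.Perm κ => π x ∈ S0 pos m r),
            F π * (if Ex pos h l r π then 1 else 0) - 1 / 2 * Q := by
        have e1 : ∀ π ∈ univ.filter (fun π : Equiv.Perm κ => π x ∈ S0 pos m r),
            F π * (if Ex pos h l r π then 1 else 0) *
              (if fl (h.map fun y => pos (π y)) l m r = true then 1 / 2 else 1) =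
            F π * (if Ex pos h l r π then 1 else 0) -
              1 / 2 * (if gp pos h x l r π ∈ S0 pos m r ×ˢ S0 pos l m then F π else 0) := by
          intro π hπ
          rw [mem_filter] at hπ
          by_cases hf : fl (h.map fun y => pos (π y)) l m r = true
          · have q1 := (gp_flag h1 hπ.2).1 hf
            have q2 : Ex pos h l r π := by
              rw [fl_eq] at hf
              by_contra hcon
              cases e : yo pos h l r π with
              | none => rw [e] at hf; simp at hf
              | some y =>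
                obtain ⟨w1, w2⟩ := yo_some e
                exact hcon ⟨y, w1, w2⟩
            rw [if_pos hf, if_pos q1, if_pos q2]; ring
          · have q1 : ¬ gp pos h x l r π ∈ S0 pos m r ×ˢ S0 pos l m :=
              fun q => hf ((gp_flag h1 hπ.2).2 q)
            rw [if_neg hf, if_neg q1]; ring
        rw [sum_congr rfl e1, sum_sub_distrib, ← mul_sum, hQ, ← sum_filter]
        congr 3
        ext π
        rw [mem_filter, mem_filter, mem_filter]
        constructor
        · rintro ⟨_, q1⟩; exact ⟨mem_univ _, q1⟩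
        · rintro ⟨_, q1⟩; exact ⟨⟨mem_univ _, (mem_product.1 q1).1⟩, q1⟩
      have hEle : E ≤ ∑ π ∈ univ.filter (fun π : Equiv.Perm κ => π x ∈ S0 pos l r), F π := by
        rw [hE]
        refine sum_le_sum_of_subset_of_nonneg ?_ fun π _ _ => hF0 π
        intro π hπ
        rw [mem_filter] at hπ ⊢
        exact ⟨hπ.1, (mem_offDiag.1 hπ.2).1⟩
      have hfin := add_le_add (pA.trans iA) (pC.trans iC)
      rw [sC] at hfin
      refine hfin.trans ?_
      rw [← mul_add, pow_succ, mul_assoc]
      refine mul_le_mul_of_nonneg_left ?_ hp8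
      linarith

end

end Pool.Agent.K3h49.SR
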