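import Pool.Agent.K3h49.SR.Few2

set_option autoImplicit false

/-! Independent random labels of bounded density: the number of collisions. -/

namespace Pool.Agent.K3h49.SR

open Finset Pool.Agent.H581R2.Splay Pool.Agent.TH49.Spl Pool.Agent.Y395.SP

section

variable {κ : Type} [DecidableEq κ]

/-- the node of level `D` with the position `v` contains a key of `V` -/
def sh (p : κ → ℕ) (V : Finset κ) : ℕ → AS → ℕ → ℕ → ℕ → Prop
  | 0, _, l, r, v => (l ≤ v ∧ v < r) ∧ hit p V l r
  | _ + 1, AS.leaf, _, _, _ => False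
  | D + 1, AS.node m _ _ A C, l, r, v => sh p V D A l m v ∨ sh p V D C m r v

variable (p : κ → ℕ) (V : Finset κ)

theorem sh_range : ∀ (D : ℕ) (s : AS) (l r v : ℕ), ok s l r → sh p V D s l r v →
    l ≤ v ∧ v < r := by
  intro D
  induction D with
  | zero => intro s l r v _ h; exact h.1
  | succ D ih =>
    intro s l r v hok h
    cases s with
    | leaf => exact absurd h id
    | node m b b' A C =>
      obtain ⟨h1, h2, h3, h4⟩ := hok
      rcases h with h | h
      · have := ih A l m v h3 h; omega
      · have := ih C m r v h4 h; omega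

open Classical in
theorem col_insert {y : κ} (hy : y ∉ V) : ∀ (D : ℕ) (s : AS) (l r : ℕ), ok s l r →
    col p (insert y V) D s l r ≤ col p V D s l r + if sh p V D s l r (p y) then 1 else 0 := by
  intro D
  induction D with
  | zero =>
    intro s l r _
    simp only [col, sh]
    by_cases c : l ≤ p y ∧ p y < r
    · have e : inn p (insert y V) l r = insert y (inn p V l r) := by
        unfold inn
        rw [filter_insert, if_pos c]
      have hy' : y ∉ inn p V l r := fun h => hy (mem_filter.1 h).1
      rw [e, card_insert_of_notMem hy']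
      by_cases c2 : hit p V l r
      · rw [if_pos ⟨c, c2⟩]
        omega
      · rw [if_neg (fun q => c2 q.2)]
        rw [hit_iff] at c2
        omega
    · have e : inn p (insert y V) l r = inn p V l r := by
        unfold inn
        rw [filter_insert, if_neg c]
      rw [e]
      omega
  | succ D ih =>
    intro s l r hok
    cases s with
    | leaf => simp [col]
    | node m b b' A C =>
      obtain ⟨h1, h2, h3, h4⟩ := hok
      have i1 := ih A l m h3
      have i2 := ih C m r h4
      simp only [col, sh]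
      by_cases c1 : sh p V D A l m (p y)
      · have r1 := sh_range p V D A l m _ h3 c1
        have c2 : ¬ sh p V D C m r (p y) := by
          intro c2
          have r2 := sh_range p V D C m r _ h4 c2
          omega
        rw [if_pos c1] at i1
        rw [if_neg c2] at i2
        rw [if_pos (Or.inl c1)]
        omega
      · rw [if_neg c1] at i1
        by_cases c2 : sh p V D C m r (p y)
        · rw [if_pos c2] at i2
          rw [if_pos (Or.inr c2)]
          omega
        · rw [if_neg c2] at i2
          rw [if_neg (by rintro (h | h); exacts [c1 h, c2 h])]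
          omega

theorem inn_congr {p p' : κ → ℕ} {V : Finset κ} (h : ∀ x ∈ V, p x = p' x) (l r : ℕ) :
    inn p V l r = inn p' V l r := by
  unfold inn
  refine filter_congr fun x hx => ?_
  rw [h x hx]

theorem col_congr {p p' : κ → ℕ} {V : Finset κ} (h : ∀ x ∈ V, p x = p' x) :
    ∀ (D : ℕ) (s : AS) (l r : ℕ), col p V D s l r = col p' V D s l r := by
  intro D
  induction D with
  | zero => intro s l r; simp only [col, inn_congr h]
  | succ D ih =>
    intro s l r
    cases s with
    | leaf => rfl
    | node m b b' A C => simp only [col, ih]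

theorem sh_congr {p p' : κ → ℕ} {V : Finset κ} (h : ∀ x ∈ V, p x = p' x) :
    ∀ (D : ℕ) (s : AS) (l r v : ℕ), sh p V D s l r v ↔ sh p' V D s l r v := by
  intro D
  induction D with
  | zero =>
    intro s l r v
    simp only [sh, hit_iff, inn_congr h]
  | succ D ih =>
    intro s l r v
    cases s with
    | leaf => rfl
    | node m b b' A C => simp only [sh, ih]

open Classical in
/-- few positions are in a node which contains a key of `V` -/
theorem sh_card {Ω : Type} [Fintype Ω] {g : Ω → ℕ} {B : ℝ}
    (hg : ∀ l ℓ : ℕ, 1 ≤ ℓ → (#(univ.filter fun ω => l ≤ g ω ∧ g ω < l + ℓ) : ℝ) ≤ B * ℓ)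
    (hB : 0 ≤ B) (t : ℕ) : ∀ (D : ℕ) (s : AS) (l r : ℕ), bl s l r →
    r - l < 2 ^ D * (t + 1) + 1 →
    (#(univ.filter fun ω => sh p V D s l r (g ω)) : ℝ) ≤ #(inn p V l r) * (B * (t + 1)) := by
  intro D
  induction D with
  | zero =>
    intro s l r _ h
    rw [pow_zero, one_mul] at h
    have hnn : 0 ≤ B * ((t : ℝ) + 1) := by positivity
    by_cases c : hit p V l r
    · have h1 := hg l (t + 1) (by omega)
      have h2 : (univ.filter fun ω => sh p V 0 s l r (g ω)) ⊆
          univ.filter fun ω => l ≤ g ω ∧ g ω < l + (t + 1) := by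
        intro ω hω
        rw [mem_filter] at hω ⊢
        have := hω.2.1
        exact ⟨mem_univ _, by omega⟩
      have h3 : (#(univ.filter fun ω => sh p V 0 s l r (g ω)) : ℝ) ≤ B * ((t : ℝ) + 1) := by
        refine le_trans (Nat.cast_le.2 (card_le_card h2)) ?_
        exact_mod_cast h1
      rw [hit_iff] at c
      have h4 : (1 : ℝ) ≤ #(inn p V l r) := by exact_mod_cast c
      nlinarith
    · have : (univ.filter fun ω => sh p V 0 s l r (g ω)) = ∅ := by
        rw [filter_eq_empty_iff]
        intro ω _ hω
        exact c hω.2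
      rw [this, card_empty, Nat.cast_zero]
      positivity
  | succ D ih =>
    intro s l r hb h
    cases s with
    | leaf =>
      simp only [sh, filter_false, card_empty, Nat.cast_zero]
      positivity
    | node m b b' A C =>
      obtain ⟨_, _, h1, h2, h3, h4, hA, hC⟩ := hb
      rw [pow_succ, mul_assoc, mul_comm 2 (t + 1), ← mul_assoc] at h
      have i1 := ih A l m hA (by omega)
      have i2 := ih C m r hC (by omega)
      have e : (univ.filter fun ω => sh p V (D + 1) (AS.node m b b' A C) l r (g ω)) =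
          (univ.filter fun ω => sh p V D A l m (g ω)) ∪
          (univ.filter fun ω => sh p V D C m r (g ω)) := by
        ext ω
        simp only [sh, mem_union, mem_filter, mem_univ, true_and]
      rw [e, inn_split p V h1 h2]
      have h5 : (#((univ.filter fun ω => sh p V D A l m (g ω)) ∪
          (univ.filter fun ω => sh p V D C m r (g ω))) : ℝ) ≤
          #(univ.filter fun ω => sh p V D A l m (g ω)) +
          #(univ.filter fun ω => sh p V D C m r (g ω)) := by
        exact_mod_cast card_union_le _ _
      push_cast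
      linarith

theorem col_zero {p : κ → ℕ} (hp : Function.Injective p) : ∀ (D : ℕ) (s : AS) (l r : ℕ),
    bl s l r → r - l < 2 ^ D + 1 → col p V D s l r = 0 := by
  intro D
  induction D with
  | zero =>
    intro s l r _ h
    rw [pow_zero] at h
    have := inn_leaf V hp (show r ≤ l + 1 by omega)
    simp only [col]
    omega
  | succ D ih =>
    intro s l r hb h
    cases s with
    | leaf => rfl
    | node m b b' A C =>
      obtain ⟨_, _, h1, h2, h3, h4, hA, hC⟩ := hb
      rw [pow_succ] at h
      simp only [col, ih A l m hA (by omega), ih C m r hC (by omega)]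

end

section

variable {κ Ω : Type} [DecidableEq κ] [Fintype κ] [Fintype Ω]

/-- one label is drawn again -/
theorem resample (y : κ) (G : (κ → Ω) → ℝ) :
    (Fintype.card Ω : ℝ) * ∑ u, G u = ∑ u : κ → Ω, ∑ ω : Ω, G (Function.update u y ω) := by
  have h1 : ∑ u : κ → Ω, ∑ ω : Ω, G (Function.update u y ω) =
      ∑ q : (κ → Ω) × Ω, G (Function.update q.1 y q.2) := by
    rw [Fintype.sum_prod_type]
  have h2 : ∑ q : (κ → Ω) × Ω, G q.1 = (Fintype.card Ω : ℝ) * ∑ u, G u := by
    rw [Fintype.sum_prod_type]
    simp only [sum_const, card_univ, nsmul_eq_mul]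
    rw [mul_sum]
  rw [h1, ← h2]
  have hinv : ∀ q : (κ → Ω) × Ω, (Function.update (Function.update q.1 y q.2) y (q.1 y),
      (Function.update q.1 y q.2) y) = q := by
    rintro ⟨u, ω⟩
    simp
  refine Finset.sum_bij' (fun q _ => (Function.update q.1 y q.2, q.1 y))
    (fun q _ => (Function.update q.1 y q.2, q.1 y)) ?_ ?_ ?_ ?_ ?_
  · intro q _; exact mem_univ _
  · intro q _; exact mem_univ _
  · intro q _; exact hinv q
  · intro q _; exact hinv q
  · rintro ⟨u, ω⟩ _
    simp

open Classical in
/-- the exponential moment of the number of collisions -/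
theorem expmom {f : κ → Ω → ℕ} {B : ℝ} (hB : 0 ≤ B)
    (hf : ∀ (x : κ) (l ℓ : ℕ), 1 ≤ ℓ →
      (#(univ.filter fun ω => l ≤ f x ω ∧ f x ω < l + ℓ) : ℝ) ≤ B * ℓ)
    {N : ℕ} {s : AS} (hb : bl s 0 N) (t D k : ℕ) (ht : N < 2 ^ D * (t + 1) + 1)
    (hθ : (k : ℝ) * (B * (t + 1)) ≤ Fintype.card Ω / 16) : ∀ V : Finset κ, #V ≤ k →
    ∑ u : κ → Ω, (16 : ℝ) ^ col (fun x => f x (u x)) V D s 0 N ≤
      2 ^ #V * (Fintype.card Ω : ℝ) ^ Fintype.card κ := by
  have hok := (bl_ok hb).1
  intro V
  induction V using Finset.induction_on with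
  | empty =>
    intro _
    have e : ∀ u : κ → Ω, col (fun x => f x (u x)) ∅ D s 0 N = 0 := by
      intro u
      have : ∀ (D : ℕ) (s : AS) (l r : ℕ), col (fun x => f x (u x)) ∅ D s l r = 0 := by
        intro D
        induction D with
        | zero => intro s l r; simp [col, inn]
        | succ D ih =>
          intro s l r
          cases s with
          | leaf => rfl
          | node m b b' A C => simp only [col, ih]
      exact this D s 0 N
    simp only [e, pow_zero, sum_const, card_univ, nsmul_eq_mul, mul_one, card_empty, one_mul]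
    rw [Fintype.card_fun]
    push_cast
    exact le_refl _
  | insert y V hy ih =>
    intro hk
    rw [card_insert_of_notMem hy] at hk
    have ih' := ih (by omega)
    rcases Nat.eq_zero_or_pos (Fintype.card Ω) with h0 | h0
    · have : IsEmpty Ω := Fintype.card_eq_zero_iff.1 h0
      have : IsEmpty (κ → Ω) := ⟨fun u => IsEmpty.false (u y)⟩
      rw [univ_eq_empty, sum_empty]
      positivity
    have h0' : (0 : ℝ) < Fintype.card Ω := by exact_mod_cast h0
    have key : ∀ u : κ → Ω, ∑ ω : Ω,
        (16 : ℝ) ^ col (fun x => f x (Function.update u y ω x)) (insert y V) D s 0 N ≤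
        (2 * Fintype.card Ω) * (16 : ℝ) ^ col (fun x => f x (u x)) V D s 0 N := by
      intro u
      have h1 : ∀ ω : Ω,
          (16 : ℝ) ^ col (fun x => f x (Function.update u y ω x)) (insert y V) D s 0 N ≤
          (16 : ℝ) ^ col (fun x => f x (u x)) V D s 0 N *
            (1 + 16 * if sh (fun x => f x (u x)) V D s 0 N (f y ω) then 1 else 0) := by
        intro ω
        have hc : ∀ x ∈ V, f x (Function.update u y ω x) = f x (u x) := by
          intro x hx
          have hxy : x ≠ y := by
            rintro rfl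
            exact hy hx
          rw [Function.update_of_ne hxy]
        have h2 := col_insert (fun x => f x (Function.update u y ω x)) V hy D s 0 N hok
        rw [col_congr hc] at h2
        have e : (sh (fun x => f x (Function.update u y ω x)) V D s 0 N
            ((fun x => f x (Function.update u y ω x)) y)) ↔
            sh (fun x => f x (u x)) V D s 0 N (f y ω) := by
          rw [sh_congr hc]
          simp only [Function.update_self]
        by_cases c : sh (fun x => f x (u x)) V D s 0 N (f y ω)
        · rw [if_pos (e.2 c)] at h2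
          rw [if_pos c]
          calc (16 : ℝ) ^ col (fun x => f x (Function.update u y ω x)) (insert y V) D s 0 N
              ≤ 16 ^ (col (fun x => f x (u x)) V D s 0 N + 1) :=
                pow_le_pow_right₀ (by norm_num) h2
            _ = 16 ^ col (fun x => f x (u x)) V D s 0 N * 16 := pow_succ _ _
            _ ≤ _ := by
                refine mul_le_mul_of_nonneg_left (by norm_num) (by positivity)
        · rw [if_neg (fun q => c (e.1 q))] at h2
          rw [if_neg c, mul_zero, add_zero, mul_one]
          exact pow_le_pow_right₀ (by norm_num) h2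
      refine (sum_le_sum fun ω _ => h1 ω).trans ?_
      rw [← mul_sum, sum_add_distrib, ← mul_sum, sum_const, card_univ, nsmul_eq_mul, mul_one,
        ← sum_filter, sum_const, nsmul_eq_mul, mul_one]
      have h3 := sh_card (fun x => f x (u x)) V (hf y) hB t D s 0 N hb (by omega)
      have h4 : (#(inn (fun x => f x (u x)) V 0 N) : ℝ) ≤ k := by
        have : #(inn (fun x => f x (u x)) V 0 N) ≤ k := (card_filter_le _ _).trans (by omega)
        exact_mod_cast this
      have h5 : (#(inn (fun x => f x (u x)) V 0 N) : ℝ) * (B * (t + 1)) ≤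
          k * (B * (t + 1)) := mul_le_mul_of_nonneg_right h4 (by positivity)
      rw [mul_comm]
      refine mul_le_mul_of_nonneg_right ?_ (by positivity)
      linarith
    have h6 := resample y (fun u => (16 : ℝ) ^ col (fun x => f x (u x)) (insert y V) D s 0 N)
    have h7 : (Fintype.card Ω : ℝ) *
        ∑ u : κ → Ω, (16 : ℝ) ^ col (fun x => f x (u x)) (insert y V) D s 0 N ≤
        (Fintype.card Ω : ℝ) * (2 * ∑ u : κ → Ω, (16 : ℝ) ^ col (fun x => f x (u x)) V D s 0 N) := by
      rw [h6]
      refine (sum_le_sum fun u _ => key u).trans (le_of_eq ?_)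
      rw [← mul_sum]
      ring
    have h8 := le_of_mul_le_mul_left h7 h0'
    rw [card_insert_of_notMem hy, pow_succ]
    linarith

open Classical in
/-- many collisions are unlikely -/
theorem col_tail {f : κ → Ω → ℕ} {A : ℝ} (hA : 0 ≤ A) {N : ℕ}
    (hf : ∀ (x : κ) (l ℓ : ℕ), 1 ≤ ℓ →
      (#(univ.filter fun ω => l ≤ f x ω ∧ f x ω < l + ℓ) : ℝ) * N ≤ A * ℓ * Fintype.card Ω)
    {s : AS} (hb : bl s 0 N) {b : ℕ} (hAb : 128 * A ≤ 2 ^ b) (d : ℕ) {V : Finset κ}
    (hV : #V = 2 ^ (d + 2)) :
    (#(univ.filter fun u : κ → Ω => Function.Injective (fun x => f x (u x)) ∧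
      2 ^ (d + 2) ≤ 2 * col (fun x => f x (u x)) V (d + b) s 0 N) : ℝ) ≤
      (1 / 2 : ℝ) ^ 2 ^ (d + 2) * (Fintype.card Ω : ℝ) ^ Fintype.card κ := by
  set k := 2 ^ (d + 2) with hk
  have hkpos : 0 < k := by positivity
  by_cases hN : N ≤ 2 ^ (d + b)
  · rw [filter_eq_empty_iff.2]
    · rw [card_empty, Nat.cast_zero]; positivity
    · rintro u _ ⟨h1, h2⟩
      rw [col_zero V h1 (d + b) s 0 N hb (by omega)] at h2
      omega
  push Not at hN
  have hN0 : (0 : ℝ) < N := by
    have : 0 < N := lt_of_le_of_lt (Nat.zero_le _) hN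
    exact_mod_cast this
  set t := (N - 1) / 2 ^ (d + b) with ht
  have ht1 : N < 2 ^ (d + b) * (t + 1) + 1 := by
    have := Nat.lt_mul_div_succ (N - 1) (show 0 < 2 ^ (d + b) by positivity)
    rw [← ht] at this
    omega
  have ht2 : ((t : ℝ) + 1) * 2 ^ (d + b) ≤ 2 * N := by
    have h1 : t * 2 ^ (d + b) ≤ N - 1 := Nat.div_mul_le_self _ _
    have h2 : (t + 1) * 2 ^ (d + b) ≤ 2 * N := by
      rw [add_mul, one_mul]; omega
    exact_mod_cast h2
  set B : ℝ := A * Fintype.card Ω / N with hB
  have hB0 : 0 ≤ B := by positivity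
  have hf' : ∀ (x : κ) (l ℓ : ℕ), 1 ≤ ℓ →
      (#(univ.filter fun ω => l ≤ f x ω ∧ f x ω < l + ℓ) : ℝ) ≤ B * ℓ := by
    intro x l ℓ hℓ
    have h1 := hf x l ℓ hℓ
    rw [hB, div_mul_eq_mul_div, le_div_iff₀ hN0]
    linarith
  have hθ : (k : ℝ) * (B * (t + 1)) ≤ Fintype.card Ω / 16 := by
    have h2b : (0 : ℝ) < 2 ^ b := by positivity
    have hdb : (0 : ℝ) < 2 ^ (d + b) := by positivity
    have h1 : (t : ℝ) + 1 ≤ 2 * N / 2 ^ (d + b) := by
      rw [le_div_iff₀ hdb]; exact ht2
    have h2 : B * ((t : ℝ) + 1) ≤ B * (2 * N / 2 ^ (d + b)) := mul_le_mul_of_nonneg_left h1 hB0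
    have h3 : (k : ℝ) * (B * (2 * N / 2 ^ (d + b))) = 8 * A * Fintype.card Ω / 2 ^ b := by
      rw [hB, hk]
      push_cast
      rw [pow_add, pow_add]
      field_simp
      ring
    have h4 : 8 * A * Fintype.card Ω / 2 ^ b ≤ Fintype.card Ω / 16 := by
      rw [div_le_div_iff₀ h2b (by norm_num)]
      have h5 : (0 : ℝ) ≤ Fintype.card Ω := Nat.cast_nonneg _
      nlinarith
    calc (k : ℝ) * (B * (t + 1)) ≤ k * (B * (2 * N / 2 ^ (d + b))) :=
          mul_le_mul_of_nonneg_left h2 (Nat.cast_nonneg _)
      _ ≤ _ := by rw [h3]; exact h4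
  have h1 := expmom hB0 hf' hb t (d + b) k ht1 hθ V (le_of_eq hV)
  rw [hV] at h1
  set Fs := univ.filter fun u : κ → Ω => Function.Injective (fun x => f x (u x)) ∧
      k ≤ 2 * col (fun x => f x (u x)) V (d + b) s 0 N with hFs
  have h2 : (#Fs : ℝ) * 4 ^ k ≤ 2 ^ k * (Fintype.card Ω : ℝ) ^ Fintype.card κ := by
    refine le_trans ?_ h1
    rw [← nsmul_eq_mul, ← sum_const]
    refine (sum_le_sum (g := fun u : κ → Ω =>
      (16 : ℝ) ^ col (fun x => f x (u x)) V (d + b) s 0 N) ?_).trans
      (sum_le_sum_of_subset_of_nonneg (subset_univ _) fun _ _ _ => by positivity)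
    intro u hu
    rw [hFs, mem_filter] at hu
    rw [show (16 : ℝ) = 4 ^ 2 by norm_num, ← pow_mul]
    exact pow_le_pow_right₀ (by norm_num) hu.2.2
  have h3 : (1 / 2 : ℝ) ^ k * 4 ^ k = 2 ^ k := by
    rw [← mul_pow]; norm_num
  have h4 : (#Fs : ℝ) * 4 ^ k ≤
      ((1 / 2 : ℝ) ^ k * (Fintype.card Ω : ℝ) ^ Fintype.card κ) * 4 ^ k := by
    refine h2.trans (le_of_eq ?_)
    rw [← h3]; ring
  exact le_of_mul_le_mul_right h4 (by positivity)

end

end Pool.Agent.K3h49.SR
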