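import Pool.Agent.K3h49.SR.Smo

set_option autoImplicit false

/-! Independent random labels of bounded density: the theorem. -/

namespace Pool.Agent.K3h49.SR

open Finset Pool.Agent.H581R2.Splay Pool.Agent.TH49.Spl Pool.Agent.Y395.SP

section

variable {κ : Type} [DecidableEq κ]

theorem hvc_sum {b : ℕ} (hb : 1 ≤ b) (α N : ℕ) (h : List κ) (x : κ) (hN : wk h x ≤ N) :
    Real.logb 2 ((wk h x : ℝ) + 1) ≤
      (α + 2 : ℝ) + b * ∑ j ∈ range N, hv (2 ^ (α + j * b + 2)) h x := by
  set w := wk h x with hw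
  have h1 : w + 1 ≤ 2 ^ (Nat.log 2 w + 1) := Nat.lt_pow_succ_log_self (by norm_num) _
  have h2 : Real.logb 2 ((w : ℝ) + 1) ≤ (Nat.log 2 w : ℝ) + 1 := by
    have h3 : ((w : ℝ) + 1) ≤ (2 : ℝ) ^ (Nat.log 2 w + 1) := by exact_mod_cast h1
    have h4 := Real.logb_le_logb_of_le (b := 2) (by norm_num) (by positivity) h3
    rw [Real.logb_pow, Real.logb_self_eq_one (by norm_num)] at h4
    push_cast at h4
    linarith
  have hnn : (0 : ℝ) ≤ ∑ j ∈ range N, hv (2 ^ (α + j * b + 2)) h x := by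
    refine sum_nonneg fun i _ => ?_
    unfold hv; split_ifs <;> norm_num
  by_cases h0 : Nat.log 2 w < α + 2
  · have : (0 : ℝ) ≤ b * ∑ j ∈ range N, hv (2 ^ (α + j * b + 2)) h x := by positivity
    have h5 : (Nat.log 2 w : ℝ) + 1 ≤ α + 2 := by
      have : Nat.log 2 w + 1 ≤ α + 2 := by omega
      exact_mod_cast this
    linarith
  push Not at h0
  set q := (Nat.log 2 w - (α + 2)) / b + 1 with hq
  have hw0 : w ≠ 0 := by
    rintro e
    rw [e] at h0
    simp at h0
  have hlw : Nat.log 2 w ≤ w := Nat.log_le_self 2 w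
  have hqN : q ≤ N := by
    have : (Nat.log 2 w - (α + 2)) / b ≤ Nat.log 2 w - (α + 2) := Nat.div_le_self _ _
    omega
  have hbq : Nat.log 2 w + 1 ≤ (α + 2) + b * q := by
    have := Nat.lt_mul_div_succ (Nat.log 2 w - (α + 2)) (show 0 < b by omega)
    rw [hq]
    omega
  have h5 : (q : ℝ) ≤ ∑ j ∈ range N, hv (2 ^ (α + j * b + 2)) h x := by
    have h6 : ∑ j ∈ range q, hv (2 ^ (α + j * b + 2)) h x = q := by
      rw [sum_congr rfl (g := fun _ => (1 : ℝ))]
      · simp
      · intro j hj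
        rw [mem_range] at hj
        unfold hv
        rw [if_pos]
        have h7 : j * b ≤ Nat.log 2 w - (α + 2) := by
          have h8 : j ≤ (Nat.log 2 w - (α + 2)) / b := by omega
          calc j * b ≤ (Nat.log 2 w - (α + 2)) / b * b := Nat.mul_le_mul_right _ h8
            _ ≤ Nat.log 2 w - (α + 2) := Nat.div_mul_le_self _ _
        rw [← hw]
        calc 2 ^ (α + j * b + 2) ≤ 2 ^ Nat.log 2 w :=
              Nat.pow_le_pow_right (by norm_num) (by omega)
          _ ≤ w := Nat.pow_log_le_self 2 hw0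
    rw [← h6]
    refine sum_le_sum_of_subset_of_nonneg (fun i hi => ?_) fun i _ _ => ?_
    · rw [mem_range] at hi ⊢; omega
    · unfold hv; split_ifs <;> norm_num
  have h6 : (Nat.log 2 w : ℝ) + 1 ≤ (α + 2) + b * q := by exact_mod_cast hbq
  have h7 : (b : ℝ) * q ≤ b * ∑ j ∈ range N, hv (2 ^ (α + j * b + 2)) h x :=
    mul_le_mul_of_nonneg_left h5 (Nat.cast_nonneg _)
  linarith

theorem len_le'' (Ks Y : List ℕ) : (Y.length : ℝ) ≤ optAny Ks Y := by
  have h := len_optAny (T := comb Ks) Y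
  rw [keys_comb] at h
  exact_mod_cast h

/-- all changes -/
theorem changes' {N : ℕ} {s : AS} (hb : bl s 0 N) {p : κ → ℕ} {Ks : List ℕ}
    (hKs : Ks.Pairwise (· < ·)) (hp : ∀ y, p y ∈ Ks) (X : List κ) (D : ℕ) :
    ∑ e ∈ range D, Sm (fun h x => (Jd (h.map p) (p x) e s 0 N : ℝ)) [] X ≤
      5 * (optAny Ks (X.map p) : ℝ) := by
  have hok := (bl_ok hb).1
  have h2 : Sm (fun h x => (J (h.map p) (p x) s 0 N : ℝ)) [] X / 2 ≤
      (optAny Ks (X.map p) : ℝ) := by
    refine optAny_ge (keys_comb Ks) fun T c hT hE => ?_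
    have h1 := tot_le hE (by unfold IsBST; rw [hT]; exact hKs) (by
      intro x hx
      rw [List.mem_map] at hx
      obtain ⟨y, _, rfl⟩ := hx
      rw [hT]
      exact hp y) hok (bl_ok hb).2
    have h2 := tot_map s N p X []
    rw [List.map_nil] at h2
    rw [← h2]
    have h3 : ((tot s 0 N [] (X.map p) : ℕ) : ℝ) ≤ 2 * c := by exact_mod_cast h1
    linarith
  have h3 := len_le'' Ks (X.map p)
  rw [List.length_map] at h3
  have h4 : Sm (fun h x => ∑ e ∈ range D, (Jd (h.map p) (p x) e s 0 N : ℝ)) [] X ≤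
      Sm (fun h x => (J (h.map p) (p x) s 0 N : ℝ) + (JL (h.map p) (p x) s 0 N : ℝ)) [] X := by
    refine Sm_le (fun h x => ?_) X []
    exact_mod_cast Jd_le (h.map p) (p x) D s 0 N
  rw [Sm_add, Sm_sum] at h4
  have h7 := JL_le (X.map p) s 0 N hok
  have h8 := Sm_len_le (X.map p) hok
  have h9 := Sm_map (fun g x => (JL g x s 0 N : ℝ)) p X []
  have h10 := Sm_map (fun g x => (J g x s 0 N : ℝ)) p X []
  rw [List.map_nil] at h9 h10
  rw [h9, h10] at h7
  rw [List.length_map] at h8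
  linarith

/-- the branching nodes of the levels `d, …, d + b - 1` -/
theorem block' {p : κ → ℕ} (hp : Function.Injective p) {n : ℕ} (hn : ∀ y, p y < n) {s : AS}
    (hb : bl s 0 n) (V : Finset κ) (d b : ℕ) :
    #V ≤ ∑ e ∈ range b, bh p V (d + e) s 0 n + 2 ^ d + col p V (d + b) s 0 n := by
  have e1 : inn p V 0 n = V := by
    ext y
    simp [inn, hn]
  have h1 := branch V hp (d + b) s 0 n hb
  rw [e1, sum_range_add] at h1
  have h2 := sum_bh_le p V d s 0 n
  omega

end

section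

variable {κ Ω : Type} [DecidableEq κ] [Fintype κ] [Fintype Ω]

open Classical in
/-- one scale -/
theorem scale {f : κ → Ω → ℕ} {A : ℝ} (hA : 0 ≤ A) {N : ℕ} (hfN : ∀ x ω, f x ω < N)
    (hf : ∀ (x : κ) (l ℓ : ℕ), 1 ≤ ℓ →
      (#(univ.filter fun ω => l ≤ f x ω ∧ f x ω < l + ℓ) : ℝ) * N ≤ A * ℓ * Fintype.card Ω)
    {s : AS} (hb : bl s 0 N) {b : ℕ} (hAb : 128 * A ≤ 2 ^ b) (d : ℕ) (X : List κ) :
    (#(univ.filter fun u : κ → Ω => Function.Injective (fun x => f x (u x)) ∧
      8 * ∑ e ∈ range b, Sm (fun h x => (Jd (h.map fun y => f y (u y)) (f x (u x)) (d + e) s 0 N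
        : ℝ)) [] X < 2 ^ (d + 2) * ((cl (2 ^ (d + 2)) ∅ X).length : ℝ)) : ℝ) ≤
      2 * (1 / 2 : ℝ) ^ 2 ^ (d + 2) * (Fintype.card Ω : ℝ) ^ Fintype.card κ := by
  set M : ℝ := (1 / 2 : ℝ) ^ 2 ^ (d + 2) * (Fintype.card Ω : ℝ) ^ Fintype.card κ with hM
  set C := cl (2 ^ (d + 2)) ∅ X with hC
  have hk1 : 1 ≤ 2 ^ (d + 2) := Nat.one_le_two_pow
  have hcard : ∀ U ∈ C, #U = 2 ^ (d + 2) := cl_card hk1 X ∅ (by simp)
  set P : Finset κ → (κ → Ω) → Prop := fun U u => Function.Injective (fun x => f x (u x)) ∧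
      2 ^ (d + 2) ≤ 2 * col (fun x => f x (u x)) U (d + b) s 0 N with hP
  have h5 : ∑ u : κ → Ω, (C.map fun U => if P U u then (1 : ℝ) else 0).sum ≤ C.length * M := by
    refine list_markov P C fun U hU => ?_
    exact col_tail hA hf hb hAb d (hcard U hU)
  have h1 : ∀ (u : κ → Ω) (e : ℕ),
      (C.map fun U => (bh (fun y => f y (u y)) U (d + e) s 0 N : ℝ)).sum ≤
      Sm (fun h x => (Jd (h.map fun y => f y (u y)) (f x (u x)) (d + e) s 0 N : ℝ)) [] X := by
    intro u e
    have := claim1 (fun y => f y (u y)) (2 ^ (d + 2)) (d + e) s 0 N X [] 0 ∅ (by simp)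
    rw [bh_empty, ← hC] at this
    simpa using this
  have h3 : ∀ (u : κ → Ω), Function.Injective (fun x => f x (u x)) →
      ∀ C : List (Finset κ), (∀ U ∈ C, #U = 2 ^ (d + 2)) →
      (2 : ℝ) ^ d * (C.length - (C.map fun U => if P U u then (1 : ℝ) else 0).sum) ≤
      ∑ e ∈ range b, (C.map fun U => (bh (fun y => f y (u y)) U (d + e) s 0 N : ℝ)).sum := by
    intro u hu C
    induction C with
    | nil => intro _; simp
    | cons U C ih =>
      intro hU
      have i1 := ih fun U' hU' => hU U' (List.mem_cons_of_mem _ hU')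
      have i2 := hU U List.mem_cons_self
      have i3 := block' hu (fun y => hfN y (u y)) hb U d b
      rw [i2] at i3
      simp only [List.map_cons, List.sum_cons, List.length_cons, sum_add_distrib]
      have h4 : (2 : ℝ) ^ d * (1 - (if P U u then (1 : ℝ) else 0)) ≤
          ∑ e ∈ range b, (bh (fun y => f y (u y)) U (d + e) s 0 N : ℝ) := by
        split_ifs with c
        · rw [sub_self, mul_zero]; exact sum_nonneg fun _ _ => Nat.cast_nonneg _
        · have c' : 2 * col (fun x => f x (u x)) U (d + b) s 0 N < 2 ^ (d + 2) := by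
            by_contra hcon
            push Not at hcon
            exact c ⟨hu, hcon⟩
          have e4 : 2 ^ (d + 2) = 4 * 2 ^ d := by ring
          have h6 : 2 ^ d ≤ ∑ e ∈ range b, bh (fun y => f y (u y)) U (d + e) s 0 N := by
            omega
          have h7 : (2 : ℝ) ^ d ≤ ∑ e ∈ range b,
              (bh (fun y => f y (u y)) U (d + e) s 0 N : ℝ) := by exact_mod_cast h6
          linarith
      push_cast
      linarith
  set E := univ.filter fun u : κ → Ω => Function.Injective (fun x => f x (u x)) ∧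
      8 * ∑ e ∈ range b, Sm (fun h x => (Jd (h.map fun y => f y (u y)) (f x (u x)) (d + e) s 0 N
        : ℝ)) [] X < 2 ^ (d + 2) * (C.length : ℝ) with hE
  have hP0 : (0 : ℝ) < 2 ^ d := by positivity
  have h6 : ∀ u ∈ E, (C.length : ℝ) / 2 ≤ (C.map fun U => if P U u then (1 : ℝ) else 0).sum := by
    intro u hu
    rw [hE, mem_filter] at hu
    obtain ⟨-, hu1, hu2⟩ := hu
    have a1 := sum_le_sum fun e (_ : e ∈ range b) => h1 u e
    have a2 := h3 u hu1 C hcard
    by_contra hcon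
    push Not at hcon
    have e4 : (2 : ℝ) ^ (d + 2) = 4 * 2 ^ d := by ring
    rw [e4] at hu2
    nlinarith
  have hnn : ∀ (u : κ → Ω) (C : List (Finset κ)),
      0 ≤ (C.map fun U => if P U u then (1 : ℝ) else 0).sum := by
    intro u C
    induction C with
    | nil => simp
    | cons U C ih =>
      simp only [List.map_cons, List.sum_cons]
      have : (0 : ℝ) ≤ if P U u then (1 : ℝ) else 0 := by split_ifs <;> norm_num
      linarith
  have h7 : (#E : ℝ) * ((C.length : ℝ) / 2) ≤ C.length * M := by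
    refine le_trans ?_ h5
    rw [← nsmul_eq_mul, ← sum_const]
    exact (sum_le_sum h6).trans
      (sum_le_sum_of_subset_of_nonneg (subset_univ _) fun u _ _ => hnn u C)
  by_cases hl : C.length = 0
  · have hEe : E = ∅ := by
      rw [hE, filter_eq_empty_iff]
      rintro u _ ⟨_, hu2⟩
      rw [hl, Nat.cast_zero, mul_zero] at hu2
      have a1 : 0 ≤ ∑ e ∈ range b, Sm (fun h x =>
          (Jd (h.map fun y => f y (u y)) (f x (u x)) (d + e) s 0 N : ℝ)) [] X := by
        refine sum_nonneg fun e _ => ?_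
        have := h1 u e
        rw [List.length_eq_zero_iff] at hl
        rw [hl] at this
        simpa using this
      linarith
    rw [hEe, card_empty, Nat.cast_zero]
    positivity
  · have hl' : (0 : ℝ) < C.length := by
      exact_mod_cast Nat.pos_of_ne_zero hl
    have h8 : (#E : ℝ) * ((C.length : ℝ) / 2) ≤ (2 * M) * ((C.length : ℝ) / 2) := by
      refine h7.trans (le_of_eq ?_)
      ring
    have h9 := le_of_mul_le_mul_right h8 (by positivity)
    rw [mul_assoc]
    exact h9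

theorem geo2 (N α : ℕ) {b : ℕ} (hb : 1 ≤ b) :
    ∑ j ∈ range N, (1 / 2 : ℝ) ^ 2 ^ (α + j * b + 2) ≤ 16 / 15 * (1 / 2 : ℝ) ^ (4 * 2 ^ α) := by
  have h1 : ∀ j ∈ range N, (1 / 2 : ℝ) ^ 2 ^ (α + j * b + 2) ≤
      (1 / 2 : ℝ) ^ (4 * 2 ^ α) * (1 / 16) ^ j := by
    intro j _
    have e : (1 / 2 : ℝ) ^ (4 * 2 ^ α) * (1 / 16) ^ j = (1 / 2) ^ (4 * 2 ^ α + 4 * j) := by
      rw [pow_add, pow_mul (1 / 2 : ℝ) 4 j]; norm_num
    rw [e]
    refine pow_le_pow_of_le_one (by norm_num) (by norm_num) ?_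
    have h2 : 2 ^ (α + j * b + 2) = 4 * (2 ^ α * 2 ^ (j * b)) := by rw [pow_add, pow_add]; ring
    have h3 : j + 1 ≤ 2 ^ (j * b) := by
      calc j + 1 ≤ 2 ^ j := Nat.lt_two_pow_self
        _ ≤ 2 ^ (j * b) := Nat.pow_le_pow_right (by norm_num) (Nat.le_mul_of_pos_right j hb)
    have h4 : 1 ≤ 2 ^ α := Nat.one_le_two_pow
    have h5 : 2 ^ α + j ≤ 2 ^ α * 2 ^ (j * b) := by
      calc 2 ^ α + j ≤ 2 ^ α * (j + 1) := by nlinarith
        _ ≤ _ := Nat.mul_le_mul_left _ h3
    omega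
  refine (sum_le_sum h1).trans ?_
  rw [← mul_sum, mul_comm]
  refine mul_le_mul_of_nonneg_right ?_ (by positivity)
  have h2 := geom_sum_eq (show (1 / 16 : ℝ) ≠ 1 by norm_num) N
  rw [h2]
  have h3 : (0 : ℝ) ≤ (1 / 16) ^ N := by positivity
  rw [div_le_iff_of_neg (by norm_num)]
  linarith

open Classical in
/-- the optimum is large -/
theorem smo_opt {f : κ → Ω → ℕ} {A : ℝ} (hA : 0 ≤ A) {N : ℕ} (hfN : ∀ x ω, f x ω < N)
    (hf : ∀ (x : κ) (l ℓ : ℕ), 1 ≤ ℓ →
      (#(univ.filter fun ω => l ≤ f x ω ∧ f x ω < l + ℓ) : ℝ) * N ≤ A * ℓ * Fintype.card Ω)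
    {b : ℕ} (hb1 : 1 ≤ b) (hAb : 128 * A ≤ 2 ^ b) (X : List κ) (α : ℕ) :
    (#(univ.filter fun u : κ → Ω => Function.Injective (fun x => f x (u x)) ∧
      40 * b * (optAny (univ.image fun x => f x (u x)).sort (X.map fun x => f x (u x)) : ℝ) +
        (α + 2) * X.length < wsum [] (X.map fun x => f x (u x))) : ℝ) ≤
      (1 / 2 : ℝ) ^ 2 ^ α * (Fintype.card Ω : ℝ) ^ Fintype.card κ := by
  obtain ⟨s, hb⟩ := exists_bl N 0 N (by omega) (by omega)
  set n := Fintype.card κ with hn
  set Q : ℝ := (Fintype.card Ω : ℝ) ^ n with hQ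
  have hQ0 : 0 ≤ Q := by positivity
  set H : ℝ := ∑ j ∈ range n, Sm (hv (2 ^ (α + j * b + 2))) [] X with hH
  have hW : ∀ u : κ → Ω, Function.Injective (fun x => f x (u x)) →
      wsum [] (X.map fun x => f x (u x)) ≤ (α + 2) * X.length + b * H := by
    intro u hu
    have h1 := wsum_map hu X []
    rw [List.map_nil] at h1
    have h2 := Sm_le (fun h x => hvc_sum hb1 α n h x (card_le_univ _)) X []
    rw [Sm_add, Sm_const, Sm_mul, Sm_sum] at h2
    rw [h1]
    exact h2
  set E : ℕ → Finset (κ → Ω) := fun j => univ.filter fun u : κ → Ω =>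
      Function.Injective (fun x => f x (u x)) ∧
      8 * ∑ e ∈ range b, Sm (fun h x => (Jd (h.map fun y => f y (u y)) (f x (u x))
        (α + j * b + e) s 0 N : ℝ)) [] X <
        2 ^ (α + j * b + 2) * ((cl (2 ^ (α + j * b + 2)) ∅ X).length : ℝ) with hE
  have hEc : ∀ j, (#(E j) : ℝ) ≤ 2 * (1 / 2 : ℝ) ^ 2 ^ (α + j * b + 2) * Q := fun j =>
    scale hA hfN hf hb hAb (α + j * b) X
  have hsub : (univ.filter fun u : κ → Ω => Function.Injective (fun x => f x (u x)) ∧
      40 * b * (optAny (univ.image fun x => f x (u x)).sort (X.map fun x => f x (u x)) : ℝ) +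
        (α + 2) * X.length < wsum [] (X.map fun x => f x (u x))) ⊆ (range n).biUnion E := by
    intro u hu
    rw [mem_filter] at hu
    obtain ⟨-, hu1, hu2⟩ := hu
    rw [mem_biUnion]
    by_contra hcon
    push Not at hcon
    have h1 : ∀ j ∈ range n, 2 ^ (α + j * b + 2) * ((cl (2 ^ (α + j * b + 2)) ∅ X).length : ℝ) ≤
        8 * ∑ e ∈ range b, Sm (fun h x => (Jd (h.map fun y => f y (u y)) (f x (u x))
        (α + j * b + e) s 0 N : ℝ)) [] X := by
      intro j hj
      have := hcon j hj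
      rw [hE, mem_filter] at this
      push Not at this
      exact this (mem_univ _) hu1
    have h2 : H ≤ 8 * ∑ j ∈ range n, ∑ e ∈ range b, Sm (fun h x =>
        (Jd (h.map fun y => f y (u y)) (f x (u x)) (α + (j * b + e)) s 0 N : ℝ)) [] X := by
      rw [mul_sum]
      refine sum_le_sum fun j hj => ?_
      have h3 := claim2 (k := 2 ^ (α + j * b + 2)) Nat.one_le_two_pow X [] ∅ (by simp) (by simp)
      push_cast at h3
      refine h3.trans ((h1 j hj).trans (le_of_eq ?_))
      simp only [add_assoc]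
    rw [dsum (fun e => Sm (fun h x =>
        (Jd (h.map fun y => f y (u y)) (f x (u x)) (α + e) s 0 N : ℝ)) [] X) b n] at h2
    have h4 := changes' hb (p := fun x => f x (u x))
      (Ks := (univ.image fun x => f x (u x)).sort)
      (Finset.sortedLT_sort _).pairwise
      (fun y => by rw [Finset.mem_sort]; exact mem_image_of_mem _ (mem_univ y)) X (α + n * b)
    rw [sum_range_add] at h4
    have h5 : 0 ≤ ∑ e ∈ range α, Sm (fun h x => (Jd (h.map fun y => f y (u y)) (f x (u x)) e s 0 N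
        : ℝ)) [] X := by
      refine sum_nonneg fun e _ => ?_
      have := Sm_le (f := fun _ _ => (0 : ℝ)) (f' := fun (h : List κ) x =>
        (Jd (h.map fun y => f y (u y)) (f x (u x)) e s 0 N : ℝ))
        (fun h x => Nat.cast_nonneg _) X []
      rw [Sm_const, zero_mul] at this
      exact this
    have h6 := hW u hu1
    have h7 : H ≤ 40 * (optAny (univ.image fun x => f x (u x)).sort
        (X.map fun x => f x (u x)) : ℝ) := by linarith
    have h8 : (b : ℝ) * H ≤ b * (40 * (optAny (univ.image fun x => f x (u x)).sort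
        (X.map fun x => f x (u x)) : ℝ)) := mul_le_mul_of_nonneg_left h7 (Nat.cast_nonneg _)
    linarith
  calc _ ≤ (#((range n).biUnion E) : ℝ) := by exact_mod_cast card_le_card hsub
    _ ≤ ∑ j ∈ range n, (#(E j) : ℝ) := by exact_mod_cast card_biUnion_le
    _ ≤ ∑ j ∈ range n, 2 * (1 / 2 : ℝ) ^ 2 ^ (α + j * b + 2) * Q :=
        sum_le_sum fun j _ => hEc j
    _ = 2 * (∑ j ∈ range n, (1 / 2 : ℝ) ^ 2 ^ (α + j * b + 2)) * Q := by
        rw [mul_sum, sum_mul]
    _ ≤ 2 * (16 / 15 * (1 / 2 : ℝ) ^ (4 * 2 ^ α)) * Q := by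
        refine mul_le_mul_of_nonneg_right ?_ hQ0
        have := geo2 n α hb1
        linarith
    _ ≤ (1 / 2 : ℝ) ^ 2 ^ α * Q := by
        refine mul_le_mul_of_nonneg_right ?_ hQ0
        have h1 : (1 : ℕ) ≤ 2 ^ α := Nat.one_le_two_pow
        have e : (1 / 2 : ℝ) ^ (4 * 2 ^ α) = (1 / 2) ^ 2 ^ α * (1 / 2) ^ (3 * 2 ^ α) := by
          rw [← pow_add]; congr 1; ring
        rw [e]
        have h2 : (1 / 2 : ℝ) ^ (3 * 2 ^ α) ≤ (1 / 2) ^ 3 :=
          pow_le_pow_of_le_one (by norm_num) (by norm_num) (by omega)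
        have h3 : (0 : ℝ) < (1 / 2 : ℝ) ^ 2 ^ α := by positivity
        nlinarith

open Classical in
/-- the cost of splaying -/
theorem smo_splay {f : κ → Ω → ℕ} {A : ℝ} (hA : 0 ≤ A) {N : ℕ} (hfN : ∀ x ω, f x ω < N)
    (hf : ∀ (x : κ) (l ℓ : ℕ), 1 ≤ ℓ →
      (#(univ.filter fun ω => l ≤ f x ω ∧ f x ω < l + ℓ) : ℝ) * N ≤ A * ℓ * Fintype.card Ω)
    {b : ℕ} (hb1 : 1 ≤ b) (hAb : 128 * A ≤ 2 ^ b) (X : List κ) (α : ℕ) :
    (#(univ.filter fun u : κ → Ω => Function.Injective (fun x => f x (u x)) ∧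
      ∃ T : Tr, keys T = (univ.image fun x => f x (u x)).sort ∧
      (240 * b + 6 * α + 20) *
          (optAny (univ.image fun x => f x (u x)).sort (X.map fun x => f x (u x)) : ℝ) +
        8 * ((Fintype.card κ : ℝ) * Real.logb 2 (Fintype.card κ)) <
          costSplay T (X.map fun x => f x (u x))) : ℝ) ≤
      (1 / 2 : ℝ) ^ 2 ^ α * (Fintype.card Ω : ℝ) ^ Fintype.card κ := by
  refine le_trans (Nat.cast_le.2 (card_le_card ?_)) (smo_opt hA hfN hf hb1 hAb X α)
  intro u hu
  rw [mem_filter] at hu ⊢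
  obtain ⟨-, hu1, T, hT, h1⟩ := hu
  refine ⟨mem_univ _, hu1, ?_⟩
  by_contra hcon
  push Not at hcon
  set Ks := (univ.image fun x => f x (u x)).sort with hKs
  have h3 := len_le'' Ks (X.map fun x => f x (u x))
  rw [List.length_map] at h3
  have hlog : (0 : ℝ) ≤ 8 * ((Fintype.card κ : ℝ) * Real.logb 2 (Fintype.card κ)) := by
    rcases Nat.eq_zero_or_pos (Fintype.card κ) with h | h
    · simp [h]
    · have h1 : (1 : ℝ) ≤ Fintype.card κ := by exact_mod_cast h
      have h2 := Real.logb_nonneg (b := 2) (by norm_num) h1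
      positivity
  have hlen : Ks.length = Fintype.card κ := by
    rw [hKs, Finset.length_sort, card_image_of_injective _ hu1, card_univ]
  by_cases hX : X = []
  · subst hX
    have e : costSplay T (([] : List κ).map fun x => f x (u x)) = 0 := rfl
    rw [e, Nat.cast_zero] at h1
    have : (0 : ℝ) ≤ (240 * b + 6 * α + 20) *
        (optAny Ks (([] : List κ).map fun x => f x (u x)) : ℝ) := by positivity
    linarith
  have hmem : ∀ x ∈ X.map (fun x => f x (u x)), x ∈ keys T := by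
    intro x hx
    rw [List.mem_map] at hx
    obtain ⟨y, _, rfl⟩ := hx
    rw [hT, hKs, Finset.mem_sort]
    exact mem_image_of_mem _ (mem_univ y)
  have hne : T ≠ Tr.nil := by
    rintro rfl
    obtain ⟨x, hx⟩ := List.exists_mem_of_ne_nil X hX
    have := hmem (f x (u x)) (List.mem_map_of_mem hx)
    simp [keys] at this
  have hbst : IsBST T := by
    unfold IsBST
    rw [hT]
    exact (Finset.sortedLT_sort _).pairwise
  have h := ws_holds T (X.map fun x => f x (u x)) hbst hne hmem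
  rw [hT, hlen, List.length_map] at h
  have h4 : ((α : ℝ) + 2) * X.length ≤ (α + 2) * (optAny Ks (X.map fun x => f x (u x)) : ℝ) :=
    mul_le_mul_of_nonneg_left h3 (by positivity)
  linarith

end

end Pool.Agent.K3h49.SR
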