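import Pool.Agent.K3h49.SR.Cnt

set_option autoImplicit false

/-! One request: few changes are exponentially unlikely. -/

namespace Pool.Agent.K3h49.SR

open Finset Pool.Agent.TH49.Spl

theorem half_pow {J D : ℕ} (h : 16 * J ≤ D) : (14 / 15 : ℝ) ^ D ≤ (1 / 2) ^ J := by
  have h1 : ((14 / 15 : ℝ) ^ D) ^ 16 ≤ ((1 / 2 : ℝ) ^ J) ^ 16 := by
    rw [← pow_mul, ← pow_mul, mul_comm D 16, pow_mul]
    calc ((14 / 15 : ℝ) ^ 16) ^ D ≤ (1 / 2) ^ D :=
          pow_le_pow_left₀ (by positivity) (by norm_num) _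
      _ ≤ (1 / 2) ^ (J * 16) := pow_le_pow_of_le_one (by norm_num) (by norm_num) (by omega)
  exact (pow_le_pow_iff_left₀ (by positivity) (by positivity) (by norm_num)).1 h1

theorem rho_pow {n S w D : ℕ} (hw : 4 ^ (D + 1) ≤ w + 1) (hwn : w + 1 ≤ n) (hS : S = n / 2 ^ D) :
    2 ≤ S ∧ S ≤ n ∧ 2 ^ D * S ≤ n ∧
    (((n : ℝ) - S) / ((n : ℝ) - 1)) ^ w ≤ (1 / 2 : ℝ) ^ (D + 1) := by
  have hP : 0 < 2 ^ D := by positivity
  obtain ⟨P, hPe⟩ : ∃ P, P = 2 ^ D := ⟨_, rfl⟩
  have h4 : 4 ^ (D + 1) = 4 * (P * P) := by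
    rw [pow_succ, show (4 : ℕ) = 2 * 2 from rfl, mul_pow, hPe]; ring
  rw [← hPe] at hP hS
  have h2 : 2 ^ (D + 1) = 2 * P := by rw [pow_succ, hPe]; ring
  have hn4 : 4 * (P * P) ≤ n := by omega
  have hS1 : P * S ≤ n := by rw [hS]; exact Nat.mul_div_le _ _
  have hS2 : n < P * (S + 1) := by
    rw [hS]; exact Nat.lt_mul_div_succ n hP
  have hS4 : 4 * P ≤ S := by
    by_contra hcon
    push Not at hcon
    have : P * (S + 1) ≤ P * (4 * P) := Nat.mul_le_mul_left _ (by omega)
    nlinarith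
  have hS0 : S ≤ n := by nlinarith
  refine ⟨by omega, hS0, by rw [← hPe]; exact hS1, ?_⟩
  have hPr : (1 : ℝ) ≤ P := by exact_mod_cast hP
  have hn1 : (1 : ℝ) < n := by
    have : 4 * (1 * 1) ≤ n := le_trans (Nat.mul_le_mul_left _ (Nat.mul_le_mul hP hP)) hn4
    have : 1 < n := by omega
    exact_mod_cast this
  set u : ℝ := 1 / (2 * P) with hu
  have hu0 : 0 < u := by positivity
  have hu1 : u ≤ 1 := by
    rw [hu, div_le_one (by positivity)]; linarith
  have hle : ((n : ℝ) - S) / ((n : ℝ) - 1) ≤ 1 - u := by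
    rw [div_le_iff₀ (by linarith), hu, sub_mul, one_mul, div_mul_eq_mul_div, one_mul]
    have h5 : ((n : ℝ) - 1) / (2 * P) ≤ (S : ℝ) - 1 := by
      rw [div_le_iff₀ (by positivity)]
      have h6 : (n : ℝ) + 1 ≤ P * (S + 1) := by exact_mod_cast hS2
      have h7 : 4 * ((P : ℝ) * P) ≤ n := by exact_mod_cast hn4
      nlinarith [mul_self_nonneg ((P : ℝ) - 1)]
    linarith
  have hge : 0 ≤ ((n : ℝ) - S) / ((n : ℝ) - 1) :=
    div_nonneg (by have : (S : ℝ) ≤ n := by exact_mod_cast hS0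
                   linarith) (by linarith)
  refine (pow_le_pow_left₀ hge hle w).trans ?_
  have h8 : (1 - u) ^ w * (1 + u) ^ w ≤ 1 := by
    rw [← mul_pow]
    refine pow_le_one₀ ?_ ?_
    · nlinarith
    · nlinarith
  have h9 : 1 + (w : ℝ) * u ≤ (1 + u) ^ w := one_add_mul_le_pow (by linarith) w
  have h10 : (2 : ℝ) ^ (D + 1) ≤ 1 + (w : ℝ) * u := by
    have e : (2 : ℝ) ^ (D + 1) = 2 * P := by exact_mod_cast h2
    rw [e, hu, mul_one_div]
    have h11 : 4 * ((P : ℝ) * P) ≤ w + 1 := by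
      have : 4 * (P * P) ≤ w + 1 := by omega
      exact_mod_cast this
    have h12 : 2 * (P : ℝ) - 1 ≤ (w : ℝ) / (2 * P) := by
      rw [le_div_iff₀ (by positivity)]
      nlinarith
    linarith
  have h13 : (1 - u) ^ w * 2 ^ (D + 1) ≤ 1 :=
    (mul_le_mul_of_nonneg_left (h10.trans h9) (pow_nonneg (by linarith) _)).trans h8
  rw [one_div, inv_pow, ← one_div, le_div_iff₀ (by positivity)]
  exact h13

section

variable {κ : Type} [Fintype κ] [DecidableEq κ] {pos : κ → ℕ} {h : List κ} {x : κ}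

theorem card_perm_all {R : ℕ} (hR : ∀ k, pos k < R) (x : κ) :
    univ.filter (fun π : Equiv.Perm κ => π x ∈ S0 pos 0 R) = univ := by
  ext π
  simp [mem_S0, hR]

theorem S0_all {R : ℕ} (hR : ∀ k, pos k < R) : #(S0 pos 0 R) = Fintype.card κ := by
  rw [← card_univ]
  congr 1
  ext k
  simp [mem_S0, hR]

open Classical in
/-- one request -/
theorem step_bad (hx : x ∉ h) {s : AS} {R : ℕ} (hR : ∀ k, pos k < R) (hb : bal pos s 0 R)
    {D : ℕ} (hD : 4 ^ D ≤ #h.toFinset + 1) :
    (#(univ.filter (fun π : Equiv.Perm κ => 16 * PJ pos h x s 0 R π < D)) : ℝ) ≤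
      2 * (15 / 16 : ℝ) ^ D * (Fintype.card κ).factorial := by
  cases D with
  | zero =>
    have : univ.filter (fun π : Equiv.Perm κ => 16 * PJ pos h x s 0 R π < 0) = ∅ := by
      ext π; simp
    rw [this, card_empty, Nat.cast_zero]
    positivity
  | succ D =>
    have hwn : #h.toFinset + 1 ≤ Fintype.card κ := by
      have h1 : h.toFinset ⊆ univ.erase x := by
        intro y hy
        rw [List.mem_toFinset] at hy
        exact mem_erase.2 ⟨fun e => hx (e ▸ hy), mem_univ _⟩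
      have h2 := card_le_card h1
      rw [card_erase_of_mem (mem_univ x), card_univ] at h2
      have h3 : 1 ≤ Fintype.card κ := Fintype.card_pos_iff.2 ⟨x⟩
      omega
    obtain ⟨r1, r2, r3, r4⟩ := rho_pow hD hwn rfl
    have hn2 : 2 ≤ Fintype.card κ := r1.trans r2
    have hall := card_perm_all (pos := pos) hR x
    have hS0 := S0_all (pos := pos) hR
    have hfac : (#(univ : Finset (Equiv.Perm κ)) : ℝ) = (Fintype.card κ).factorial := by
      rw [card_univ, Fintype.card_perm]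
    have a1 := ngd hx hn2 r1 r2 D s 0 R hb (by rw [hS0]; exact r3)
    rw [hall, hfac] at a1
    have hP : 2 ^ (D + 1) ≤ #(S0 pos 0 R) := by
      rw [hS0]
      refine le_trans ?_ (hD.trans hwn)
      exact Nat.pow_le_pow_left (by norm_num) _
    have a2 := main_rec (h := h) (x := x) hx (D + 1) s 0 R hb hP (fun _ => 1)
      (fun _ => zero_le_one) (fun _ _ _ => rfl)
    rw [hall] at a2
    simp only [one_mul, sum_const, nsmul_eq_mul, mul_one] at a2
    rw [hfac] at a2
    set G := univ.filter (fun π : Equiv.Perm κ => π x ∈ S0 pos 0 R ∧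
      Gd pos h x (D + 1) s 0 R π) with hG
    set N := univ.filter (fun π : Equiv.Perm κ => π x ∈ S0 pos 0 R ∧
      ¬ Gd pos h x (D + 1) s 0 R π) with hN
    have hsub : univ.filter (fun π : Equiv.Perm κ => 16 * PJ pos h x s 0 R π < D + 1) ⊆
        (G.filter fun π => 16 * PJ pos h x s 0 R π < D + 1) ∪ N := by
      intro π hπ
      rw [mem_filter] at hπ
      rw [mem_union, mem_filter, hG, hN, mem_filter, mem_filter]
      have h1 : π x ∈ S0 pos 0 R := mem_S0.2 ⟨Nat.zero_le _, hR _⟩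
      by_cases hg : Gd pos h x (D + 1) s 0 R π
      · exact Or.inl ⟨⟨mem_univ _, h1, hg⟩, hπ.2⟩
      · exact Or.inr ⟨mem_univ _, h1, hg⟩
    have h3 : (#(univ.filter (fun π : Equiv.Perm κ => 16 * PJ pos h x s 0 R π < D + 1)) : ℝ) ≤
        #(G.filter fun π => 16 * PJ pos h x s 0 R π < D + 1) + #N := by
      exact_mod_cast (card_le_card hsub).trans (card_union_le _ _)
    have h4 : (#(G.filter fun π => 16 * PJ pos h x s 0 R π < D + 1) : ℝ) * (14 / 15) ^ (D + 1) ≤
        (7 / 8) ^ (D + 1) * (Fintype.card κ).factorial := by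
      refine le_trans ?_ a2
      rw [← nsmul_eq_mul, ← sum_const]
      refine le_trans (sum_le_sum (g := fun π => (1 / 2 : ℝ) ^ PJ pos h x s 0 R π) ?_)
        (sum_le_sum_of_subset_of_nonneg (filter_subset _ _) fun _ _ _ => by positivity)
      intro π hπ
      rw [mem_filter] at hπ
      exact half_pow hπ.2.le
    have h5 : (#(G.filter fun π => 16 * PJ pos h x s 0 R π < D + 1) : ℝ) ≤
        (15 / 16) ^ (D + 1) * (Fintype.card κ).factorial := by
      have e : (15 / 16 : ℝ) = (7 / 8) / (14 / 15) := by norm_num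
      rw [e, div_pow, div_mul_eq_mul_div, le_div_iff₀ (by positivity)]
      exact h4
    have h6 : (#N : ℝ) ≤ (15 / 16) ^ (D + 1) * (Fintype.card κ).factorial := by
      refine a1.trans ?_
      refine mul_le_mul_of_nonneg_right ?_ (Nat.cast_nonneg _)
      exact r4.trans (pow_le_pow_left₀ (by norm_num) (by norm_num) _)
    push_cast at h3 ⊢
    linarith

end

end Pool.Agent.K3h49.SR
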