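import Pool.Agent.TH49.Spl.Low
import Pool.Agent.Y395.SP.Stm

set_option autoImplicit false

/-! The interleave bound as a sum over the requests of a function of the history. -/

namespace Pool.Agent.K3h49.SR

open Pool.Agent.H581R2.Splay Pool.Agent.TH49.Spl Pool.Agent.Y395.SP

/-- all flags are down -/
def cln : AS → Prop
  | AS.leaf => True
  | AS.node _ b p A C => b = false ∧ p = false ∧ cln A ∧ cln C

/-- the most recent request in `[l, r)` was in `[l, m)` -/
def fl (g : List ℕ) (l m r : ℕ) : Bool :=
  (g.find? fun y => decide (l ≤ y ∧ y < r)).any fun y => decide (y < m)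

/-- the number of changes completed by the request `x` after the history `g` -/
def J (g : List ℕ) (x : ℕ) : AS → ℕ → ℕ → ℕ
  | AS.leaf, _, _ => 0
  | AS.node m _ _ A C, l, r =>
      (if m ≤ x ∧ x < r ∧ fl g l m r = true then 1 else 0) + J g x A l m + J g x C m r

/-- the value with the flags given by the history -/
def valg (g : List ℕ) (Y : List ℕ) : AS → ℕ → ℕ → ℕ
  | AS.leaf, _, _ => 0
  | AS.node m _ _ A C, l, r => cnt l m r (fl g l m r) Y + valg g Y A l m + valg g Y C m r

/-- the sum over the requests -/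
def tot (s : AS) (l r : ℕ) : List ℕ → List ℕ → ℕ
  | _, [] => 0
  | g, x :: Y => J g x s l r + tot s l r (x :: g) Y

theorem fl_cons (x : ℕ) (g : List ℕ) (l m r : ℕ) :
    fl (x :: g) l m r = if l ≤ x ∧ x < r then decide (x < m) else fl g l m r := by
  unfold fl
  by_cases h : l ≤ x ∧ x < r
  · rw [if_pos h, List.find?_cons_of_pos (by simpa using h)]
    simp
  · rw [if_neg h, List.find?_cons_of_neg (by simpa using h)]

theorem cnt_cons {l m r : ℕ} (h1 : l ≤ m) (h2 : m ≤ r) (g : List ℕ) (x : ℕ) (X : List ℕ) :
    cnt l m r (fl g l m r) (x :: X) =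
      (if m ≤ x ∧ x < r ∧ fl g l m r = true then 1 else 0) + cnt l m r (fl (x :: g) l m r) X := by
  rw [fl_cons]
  simp only [cnt]
  by_cases c1 : l ≤ x ∧ x < m
  · rw [if_pos c1, if_neg (by omega), if_pos (by omega), zero_add]
    simp [c1.2]
  · rw [if_neg c1]
    by_cases c2 : m ≤ x ∧ x < r
    · rw [if_pos c2, if_pos (show l ≤ x ∧ x < r by omega)]
      have : decide (x < m) = false := by simp; omega
      rw [this]
      congr 1
      by_cases hf : fl g l m r = true
      · rw [if_pos hf, if_pos ⟨c2.1, c2.2, hf⟩]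
      · rw [if_neg hf, if_neg (fun h => hf h.2.2)]
    · rw [if_neg c2, if_neg (fun h => c2 ⟨h.1, h.2.1⟩), if_neg (by omega), zero_add]

theorem valg_cons (g : List ℕ) (x : ℕ) (Y : List ℕ) : ∀ (s : AS) (l r : ℕ), ok s l r →
    valg g (x :: Y) s l r = J g x s l r + valg (x :: g) Y s l r := by
  intro s
  induction s with
  | leaf => intro l r _; rfl
  | node m b p A C ihA ihC =>
    intro l r h
    obtain ⟨h1, h2, h3, h4⟩ := h
    simp only [valg, J, ihA l m h3, ihC m r h4, cnt_cons h1 h2]
    omega

theorem valg_eq {s : AS} {l r : ℕ} (h : ok s l r) (Y : List ℕ) : ∀ g : List ℕ,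
    valg g Y s l r = tot s l r g Y := by
  induction Y with
  | nil =>
    intro g
    have : ∀ (s : AS) (l r : ℕ), valg g [] s l r = 0 := by
      intro s
      induction s with
      | leaf => intro l r; rfl
      | node m b p A C ihA ihC => intro l r; simp [valg, cnt, ihA, ihC]
    rw [this]; rfl
  | cons x Y ih =>
    intro g
    rw [valg_cons g x Y s l r h, ih]; rfl

theorem val_cln (Y : List ℕ) : ∀ (s : AS) (l r : ℕ), cln s → val s l r Y = valg [] Y s l r := by
  intro s
  induction s with
  | leaf => intro l r _; rfl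
  | node m b p A C ihA ihC =>
    intro l r h
    obtain ⟨h1, h2, h3, h4⟩ := h
    simp only [val, valg, ihA l m h3, ihC m r h4, h1]
    rfl

theorem inv_cln (T : Tr) : ∀ (s : AS) (l r : ℕ), cln s → inv T s l r := by
  intro s
  induction s with
  | leaf => intro l r _; trivial
  | node m b p A C ihA ihC =>
    intro l r h
    obtain ⟨h1, h2, h3, h4⟩ := h
    exact ⟨by rw [h1]; simp, ihA l m h3, ihC m r h4⟩

theorem cred_cln : ∀ s : AS, cln s → cred s = 0 := by
  intro s
  induction s with
  | leaf => intro _; rfl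
  | node m b p A C ihA ihC =>
    intro h
    obtain ⟨h1, h2, h3, h4⟩ := h
    simp [cred, h2, ihA h3, ihC h4]

/-- the interleave bound -/
theorem tot_le {T : Tr} {Y : List ℕ} {c : ℕ} (h : Exec T Y c) (hb : IsBST T)
    (hY : ∀ x ∈ Y, x ∈ keys T) {s : AS} {l r : ℕ} (hok : ok s l r) (hc : cln s) :
    tot s l r [] Y ≤ 2 * c := by
  have h1 := exec_val h hb hY s l r hok (inv_cln T s l r hc)
  rw [cred_cln s hc, val_cln Y s l r hc, valg_eq hok] at h1
  omega

/-- a longer history gives more changes -/
theorem J_mono {g g' : List ℕ} (hg : g' <+: g) (x : ℕ) : ∀ (s : AS) (l r : ℕ),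
    J g' x s l r ≤ J g x s l r := by
  intro s
  induction s with
  | leaf => intro l r; exact le_refl _
  | node m b p A C ihA ihC =>
    intro l r
    simp only [J]
    have h1 := ihA l m
    have h2 := ihC m r
    have h3 : fl g' l m r = true → fl g l m r = true := by
      obtain ⟨u, rfl⟩ := hg
      unfold fl
      intro h
      rw [List.find?_append]
      cases e : g'.find? (fun y => decide (l ≤ y ∧ y < r)) with
      | none => rw [e] at h; simp at h
      | some y => rw [e] at h; simpa using h
    have h4 : (if m ≤ x ∧ x < r ∧ fl g' l m r = true then 1 else 0) ≤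
        (if m ≤ x ∧ x < r ∧ fl g l m r = true then 1 else 0) := by
      split_ifs with c1 c2
      · exact le_refl _
      · exact absurd ⟨c1.1, c1.2.1, h3 c1.2.2⟩ c2
      · exact Nat.zero_le _
      · exact le_refl _
    omega

end Pool.Agent.K3h49.SR
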