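import Pool.Agent.K3h49.SR.Lev

set_option autoImplicit false

/-! Windows with a given number of different keys. -/

namespace Pool.Agent.K3h49.SR

open Finset Pool.Agent.H581R2.Splay Pool.Agent.TH49.Spl Pool.Agent.Y395.SP

section

variable {κ : Type} [DecidableEq κ]

/-- the finished windows with `k` different keys; `V` is the set of keys of the current window -/
def cl (k : ℕ) : Finset κ → List κ → List (Finset κ)
  | _, [] => []
  | V, x :: Y => if #(insert x V) ≤ k then cl k (insert x V) Y else V :: cl k {x} Y

/-- a key of `V` has its position in `[a, b)` -/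
def hit (p : κ → ℕ) (V : Finset κ) (a b : ℕ) : Prop := ∃ y ∈ V, a ≤ p y ∧ p y < b

open Classical in
/-- the number of nodes of level `d` with keys of `V` on both sides -/
noncomputable def bh (p : κ → ℕ) (V : Finset κ) : ℕ → AS → ℕ → ℕ → ℕ
  | _, AS.leaf, _, _ => 0
  | 0, AS.node m _ _ _ _, l, r => if hit p V l m ∧ hit p V m r then 1 else 0
  | d + 1, AS.node m _ _ A C, l, r => bh p V d A l m + bh p V d C m r

theorem find_take {α : Type} (Q : α → Bool) (g : List α) (c : ℕ)
    (h : ∃ y ∈ g.take c, Q y = true) : ∃ y ∈ g.take c, g.find? Q = some y ∧ Q y = true := by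
  have e : g.find? Q = ((g.take c).find? Q).or ((g.drop c).find? Q) := by
    rw [← List.find?_append, List.take_append_drop]
  cases f : (g.take c).find? Q with
  | none =>
    rw [List.find?_eq_none] at f
    obtain ⟨y, h1, h2⟩ := h
    exact absurd h2 (f y h1)
  | some y =>
    refine ⟨y, List.mem_of_find?_eq_some f, ?_, List.find?_some f⟩
    rw [e, f]
    rfl

variable (p : κ → ℕ)

theorem fl_of_hit {g : List κ} {c : ℕ} {V : Finset κ} (hV : V = (g.take c).toFinset)
    {l m r : ℕ} (hmr : m ≤ r) (h1 : hit p V l m) (h2 : ¬ hit p V m r) :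
    fl (g.map p) l m r = true := by
  obtain ⟨y, q1, q2⟩ := h1
  rw [hV, List.mem_toFinset] at q1
  obtain ⟨y', w1, w2, w3⟩ := find_take (fun y => decide (l ≤ p y ∧ p y < r)) g c
    ⟨y, q1, by simp; omega⟩
  unfold fl
  rw [List.find?_map]
  have e : ((fun y => decide (l ≤ y ∧ y < r)) ∘ p) = fun y => decide (l ≤ p y ∧ p y < r) := rfl
  rw [e, w2]
  simp only [Option.map_some, Option.any_some, decide_eq_true_eq] at w3 ⊢
  by_contra hcon
  exact h2 ⟨y', by rw [hV, List.mem_toFinset]; exact w1, by omega⟩

theorem flr_of_hit {g : List κ} {c : ℕ} {V : Finset κ} (hV : V = (g.take c).toFinset)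
    {l m r : ℕ} (hlm : l ≤ m) (h1 : hit p V m r) (h2 : ¬ hit p V l m) :
    flr (g.map p) l m r = true := by
  obtain ⟨y, q1, q2⟩ := h1
  rw [hV, List.mem_toFinset] at q1
  obtain ⟨y', w1, w2, w3⟩ := find_take (fun y => decide (l ≤ p y ∧ p y < r)) g c
    ⟨y, q1, by simp; omega⟩
  unfold flr
  rw [List.find?_map]
  have e : ((fun y => decide (l ≤ y ∧ y < r)) ∘ p) = fun y => decide (l ≤ p y ∧ p y < r) := rfl
  rw [e, w2]
  simp only [Option.map_some, Option.any_some, decide_eq_true_eq] at w3 ⊢
  by_contra hcon
  exact h2 ⟨y', by rw [hV, List.mem_toFinset]; exact w1, by omega⟩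

/-- one request -/
theorem bh_step {g : List κ} {c : ℕ} {V : Finset κ} (hV : V = (g.take c).toFinset) (x : κ) :
    ∀ (s : AS) (d l r : ℕ), bh p (insert x V) d s l r ≤
      bh p V d s l r + Jd (g.map p) (p x) d s l r := by
  intro s
  induction s with
  | leaf => intro d l r; cases d <;> exact Nat.le_refl _
  | node m b b' A C ihA ihC =>
    intro d l r
    cases d with
    | succ d =>
      simp only [bh, Jd]
      have h1 := ihA d l m
      have h2 := ihC d m r
      omega
    | zero =>
      simp only [bh, Jd]
      by_cases c1 : hit p (insert x V) l m ∧ hit p (insert x V) m r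
      · rw [if_pos c1]
        by_cases c2 : hit p V l m ∧ hit p V m r
        · rw [if_pos c2]; omega
        rw [if_neg c2]
        obtain ⟨⟨y1, a1, a2⟩, ⟨y2, b1, b2⟩⟩ := c1
        rw [mem_insert] at a1 b1
        by_cases c3 : hit p V l m
        · have c4 : ¬ hit p V m r := fun q => c2 ⟨c3, q⟩
          have e1 : y2 = x := by
            rcases b1 with b1 | b1
            · exact b1
            · exact absurd ⟨y2, b1, b2⟩ c4
          subst e1
          have := fl_of_hit p hV (by omega) c3 c4
          unfold cR
          rw [if_pos ⟨b2.1, b2.2, this⟩]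
          omega
        · have e1 : y1 = x := by
            rcases a1 with a1 | a1
            · exact a1
            · exact absurd ⟨y1, a1, a2⟩ c3
          subst e1
          have c4 : hit p V m r := by
            rcases b1 with b1 | b1
            · subst b1; omega
            · exact ⟨y2, b1, b2⟩
          have := flr_of_hit p hV (by omega) c4 c3
          unfold cL
          rw [if_pos ⟨a2.1, a2.2, this⟩]
          omega
      · rw [if_neg c1]; exact Nat.zero_le _

theorem bh_single (x : κ) : ∀ (s : AS) (d l r : ℕ), bh p {x} d s l r = 0 := by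
  intro s
  induction s with
  | leaf => intro d l r; cases d <;> rfl
  | node m b b' A C ihA ihC =>
    intro d l r
    cases d with
    | succ d => simp only [bh, ihA, ihC]
    | zero =>
      simp only [bh]
      rw [if_neg]
      rintro ⟨⟨y1, a1, a2⟩, ⟨y2, b1, b2⟩⟩
      rw [mem_singleton] at a1 b1
      subst a1
      subst b1
      omega

/-- the changes and the windows -/
theorem claim1 (k d : ℕ) (s : AS) (l r : ℕ) : ∀ (Y g : List κ) (c : ℕ) (V : Finset κ),
    V = (g.take c).toFinset →
    ((cl k V Y).map fun U => (bh p U d s l r : ℝ)).sum ≤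
      Sm (fun h x => (Jd (h.map p) (p x) d s l r : ℝ)) g Y + bh p V d s l r := by
  intro Y
  induction Y with
  | nil => intro g c V _; simp [cl, Sm]
  | cons x Y ih =>
    intro g c V hV
    simp only [cl, Sm]
    have h1 := bh_step p hV x s d l r
    have h1' : (bh p (insert x V) d s l r : ℝ) ≤
        bh p V d s l r + Jd (g.map p) (p x) d s l r := by exact_mod_cast h1
    split_ifs with hk
    · have h2 := ih (x :: g) (c + 1) (insert x V) (by
        rw [hV, List.take_succ_cons, List.toFinset_cons])
      linarith
    · have h2 := ih (x :: g) 1 {x} (by simp)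
      rw [bh_single] at h2
      rw [List.map_cons, List.sum_cons]
      have h3 : (0 : ℝ) ≤ Jd (g.map p) (p x) d s l r := Nat.cast_nonneg _
      push_cast at h2
      linarith

theorem cl_card {k : ℕ} (hk : 1 ≤ k) : ∀ (Y : List κ) (V : Finset κ), #V ≤ k →
    ∀ U ∈ cl k V Y, #U = k := by
  intro Y
  induction Y with
  | nil => intro V _ U hU; simp [cl] at hU
  | cons x Y ih =>
    intro V hV U hU
    simp only [cl] at hU
    split_ifs at hU with h
    · exact ih _ h U hU
    · rw [List.mem_cons] at hU
      rcases hU with rfl | hU
      · have := card_insert_le x U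
        omega
      · exact ih _ (by simpa using hk) U hU

theorem wk_lt {g : List κ} {c : ℕ} {V : Finset κ} (hV : V = (g.take c).toFinset) {x : κ}
    (hx : x ∈ V) : wk g x < #V := by
  unfold wk
  have h1 : (g.takeWhile fun y => decide (y ≠ x)).toFinset ⊆ V.erase x := by
    intro y hy
    rw [List.mem_toFinset] at hy
    have hyx : y ≠ x := by
      have := List.mem_takeWhile_imp hy
      simpa using this
    rw [mem_erase]
    refine ⟨hyx, ?_⟩
    rw [hV, List.mem_toFinset]
    rw [hV, List.mem_toFinset] at hx
    rw [← List.take_append_drop c g, List.takeWhile_append] at hy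
    split_ifs at hy with hlen
    · exfalso
      have h3 := (List.takeWhile_prefix (p := fun y => decide (y ≠ x)) (l := g.take c)).eq_of_length
        hlen
      have h4 := List.mem_takeWhile_imp (p := fun y => decide (y ≠ x)) (by rw [h3]; exact hx)
      simp at h4
    · exact (List.takeWhile_prefix _).subset hy
  have h2 := card_le_card h1
  rw [card_erase_of_mem hx] at h2
  have h3 : 0 < #V := card_pos.2 ⟨x, hx⟩
  omega

theorem wk_le (g : List κ) (x : κ) : wk g x ≤ #(g.toFinset.erase x) := by
  unfold wk
  refine card_le_card ?_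
  intro y hy
  rw [List.mem_toFinset] at hy
  have hyx : y ≠ x := by
    have := List.mem_takeWhile_imp hy
    simpa using this
  rw [mem_erase, List.mem_toFinset]
  exact ⟨hyx, (List.takeWhile_prefix _).subset hy⟩

/-- the request is heavy -/
def hv (k : ℕ) (h : List κ) (x : κ) : ℝ := if k ≤ wk h x then 1 else 0

theorem hv_le (k : ℕ) (h : List κ) (x : κ) : hv k h x ≤ 1 := by
  unfold hv; split_ifs <;> norm_num

theorem claim2b {k : ℕ} (hk : 1 ≤ k) : ∀ (Y g : List κ) (c : ℕ) (V : Finset κ),
    V = (g.take c).toFinset → #V ≤ k →
    Sm (hv k) g Y ≤ k * (cl k V Y).length + (k - #V : ℝ) := by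
  intro Y
  induction Y with
  | nil =>
    intro g c V _ hVk
    simp only [cl, Sm, List.length_nil, Nat.cast_zero, mul_zero, zero_add, sub_nonneg]
    exact_mod_cast hVk
  | cons x Y ih =>
    intro g c V hV hVk
    simp only [cl, Sm]
    split_ifs with h
    · have h2 := ih (x :: g) (c + 1) (insert x V) (by
        rw [hV, List.take_succ_cons, List.toFinset_cons]) h
      by_cases hx : x ∈ V
      · have h3 : hv k g x = 0 := by
          unfold hv
          rw [if_neg]
          have := wk_lt hV hx
          omega
        rw [insert_eq_of_mem hx] at h2 ⊢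
        rw [h3]
        linarith
      · rw [card_insert_of_notMem hx] at h2
        have := hv_le k g x
        push_cast at h2
        linarith
    · have h2 := ih (x :: g) 1 {x} (by simp) (by simpa using hk)
      rw [card_singleton] at h2
      have h3 := hv_le k g x
      have h4 : (#V : ℝ) ≤ k := by exact_mod_cast hVk
      rw [List.length_cons]
      push_cast at h2 ⊢
      linarith

/-- the heavy requests and the windows -/
theorem claim2 {k : ℕ} (hk : 1 ≤ k) : ∀ (Y g : List κ) (V : Finset κ),
    V = g.toFinset → #V ≤ k → Sm (hv k) g Y ≤ k * (cl k V Y).length := by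
  intro Y
  induction Y with
  | nil => intro g V _ _; simp [cl, Sm]
  | cons x Y ih =>
    intro g V hV hVk
    simp only [cl, Sm]
    split_ifs with h
    · have h2 := ih (x :: g) (insert x V) (by rw [hV, List.toFinset_cons]) h
      have h3 : hv k g x = 0 := by
        unfold hv
        rw [if_neg]
        have h4 := wk_le g x
        rw [← hV] at h4
        by_cases hx : x ∈ V
        · rw [card_erase_of_mem hx] at h4
          have := card_pos.2 ⟨x, hx⟩
          omega
        · rw [erase_eq_of_notMem hx] at h4
          rw [card_insert_of_notMem hx] at h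
          omega
      rw [h3]
      linarith
    · have h2 := claim2b hk Y (x :: g) 1 {x} (by simp) (by simpa using hk)
      rw [card_singleton] at h2
      have h3 := hv_le k g x
      rw [List.length_cons]
      push_cast at h2 ⊢
      linarith

end

end Pool.Agent.K3h49.SR
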